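import Pool.Agent.Lib.HB.Basic
import Pool.Agent.Lib.MP_663568_q.R07

/-!
# Row A: outside of the major arcs
-/

set_option autoImplicit false
open Finset MeasureTheory
open scoped commutatorElement

namespace Pool.Agent.HB

open Pool.Agent.Lib.MP_663568_nt Pool.Agent.Lib.MP_663568_nt.Katai
  Pool.Agent.Lib.MP_663568_nt.Nul Pool.Agent.Lib.MP_663568_nt.Fib

namespace RowA

/-- The centre. -/
def Cen : Subgroup Heis where
  carrier := {g | g.x = 0 ∧ g.y = 0}
  one_mem' := ⟨rfl, rfl⟩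
  mul_mem' := by
    rintro g h ⟨h1, h2⟩ ⟨h3, h4⟩
    exact ⟨by simp [h1, h3], by simp [h2, h4]⟩
  inv_mem' := by
    rintro g ⟨h1, h2⟩
    exact ⟨by simp [h1], by simp [h2]⟩

lemma mem_Cen (g : Heis) : g ∈ Cen ↔ g.x = 0 ∧ g.y = 0 := Iff.rfl

/-- The filtration. -/
def Af : ℕ → Subgroup Heis
  | 0 => ⊤
  | 1 => ⊤
  | 2 => Cen
  | _ + 3 => ⊥

/-- The dimensions. -/
def dm : ℕ → ℕ
  | 0 => 0
  | 1 => 2
  | 2 => 1
  | _ + 3 => 0

/-- The coordinates. -/
def pr : (s : ℕ) → Heis → Fin (dm s) → ℝ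
  | 0, _ => Fin.elim0
  | 1, g => ![g.x, g.y]
  | 2, g => ![g.z]
  | _ + 3, _ => Fin.elim0

/-- The one-parameter subgroups. -/
def ep : (s : ℕ) → Fin (dm s) → ℝ → Heis
  | 0, _, _ => 1
  | 1, j, r => ⟨(![r, 0] : Fin 2 → ℝ) j, (![0, r] : Fin 2 → ℝ) j, 0⟩
  | 2, _, r => ⟨0, 0, r⟩
  | _ + 3, _, _ => 1

lemma Af_three (n : ℕ) : Af (n + 3) = ⊥ := rfl

lemma commElt (g h : Heis) : ⁅g, h⁆ = ⟨0, 0, g.x * h.y - h.x * g.y⟩ := by
  rw [commutatorElement_def]
  ext
  · simp
  · simp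
  · simp
    ring

lemma comm_top_top : ⁅(⊤ : Subgroup Heis), ⊤⁆ ≤ Cen := by
  rw [Subgroup.commutator_le]
  intro g _ h _
  rw [commElt]
  exact ⟨rfl, rfl⟩

lemma comm_top_Cen : ⁅(⊤ : Subgroup Heis), Cen⁆ ≤ ⊥ := by
  rw [Subgroup.commutator_le]
  intro g _ h hh
  rw [mem_Cen] at hh
  rw [commElt, Subgroup.mem_bot, hh.1, hh.2]
  ext <;> simp

lemma Cen_le : Cen ≤ ⁅(⊤ : Subgroup Heis), (⊤ : Subgroup Heis)⁆ := by
  intro g hg
  rw [mem_Cen] at hg
  have : g = ⁅(⟨1, 0, 0⟩ : Heis), (⟨0, g.z, 0⟩ : Heis)⁆ := by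
    rw [commElt]
    ext
    · simp [hg.1]
    · simp [hg.2]
    · simp
  rw [this]
  exact Subgroup.commutator_mem_commutator (Subgroup.mem_top _) (Subgroup.mem_top _)

lemma Af_anti : Antitone Af := by
  apply antitone_nat_of_succ_le
  rintro (_ | _ | _ | n)
  · exact le_rfl
  · exact le_top
  · exact bot_le
  · exact le_rfl

lemma coc_Af : Tw.Coc Af Gam := by
  have h01 : ∃ C : Set Heis, IsCompact C ∧ (∀ c ∈ C, c ∈ (⊤ : Subgroup Heis)) ∧
      ∀ x ∈ (⊤ : Subgroup Heis), ∃ c ∈ C, ∃ γ ∈ Gam, x = c * γ := by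
    refine ⟨{g : Heis | |g.x| ≤ 1 ∧ |g.y| ≤ 1 ∧ |g.z| ≤ 1}, isCompact_box 1,
      fun _ _ => trivial, fun x _ => ?_⟩
    obtain ⟨γ, hγ, ⟨h1, h2⟩, ⟨h3, h4⟩, h5, h6⟩ := exists_red x
    refine ⟨x * γ, ⟨?_, ?_, ?_⟩, γ⁻¹, Gam.inv_mem hγ, by rw [mul_assoc, mul_inv_cancel, mul_one]⟩
    · rw [abs_of_nonneg h1]; exact h2
    · rw [abs_of_nonneg h3]; exact h4
    · rw [abs_of_nonneg h5]; exact h6
  rintro (_ | _ | _ | n)
  · exact h01
  · exact h01
  · refine ⟨(fun t : ℝ => (⟨0, 0, t⟩ : Heis)) '' Set.Icc 0 1, ?_, ?_, ?_⟩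
    · exact isCompact_Icc.image
        (Heis.continuous_mk continuous_const continuous_const continuous_id)
    · rintro _ ⟨t, _, rfl⟩
      exact ⟨rfl, rfl⟩
    · intro x hx
      have hx' : x.x = 0 ∧ x.y = 0 := hx
      refine ⟨⟨0, 0, Int.fract x.z⟩, ⟨Int.fract x.z, ⟨Int.fract_nonneg _, (Int.fract_lt_one _).le⟩,
        rfl⟩, ⟨0, 0, ⌊x.z⌋⟩, ⟨0, 0, ⌊x.z⌋, by ext <;> simp⟩, ?_⟩
      ext
      · simp [hx'.1]
      · simp [hx'.2]
      · simp
  · refine ⟨{1}, isCompact_singleton, ?_, ?_⟩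
    · rintro c rfl
      exact Subgroup.one_mem _
    · intro x hx
      have hx' : x = 1 := hx
      exact ⟨1, rfl, 1, Gam.one_mem, by rw [hx', mul_one]⟩

lemma ns : T3.NS Af Gam (β := fun s => Fin (dm s)) pr ep where
  anti := Af_anti
  comm := by
    have hb : ∀ B : Subgroup Heis, ⁅(⊥ : Subgroup Heis), B⁆ ≤ ⊥ := fun B => by
      rw [Subgroup.commutator_bot_left]
    have hb' : ∀ B : Subgroup Heis, ⁅B, (⊥ : Subgroup Heis)⁆ ≤ ⊥ := fun B => by
      rw [Subgroup.commutator_bot_right]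
    have hCT : ⁅Cen, (⊤ : Subgroup Heis)⁆ ≤ ⊥ := by
      rw [Subgroup.commutator_comm]; exact comm_top_Cen
    have hCC : ⁅Cen, Cen⁆ ≤ ⊥ := (Subgroup.commutator_mono le_top le_rfl).trans comm_top_Cen
    have A1 : Af 1 = ⊤ := rfl
    have A2 : Af 2 = Cen := rfl
    have key : ∀ i j, 3 ≤ i + j → 1 ≤ i → 1 ≤ j → ⁅Af i, Af j⁆ ≤ ⊥ := by
      intro i j h h1 h2
      by_cases hi : 3 ≤ i
      · obtain ⟨k, rfl⟩ := Nat.exists_eq_add_of_le' hi
        rw [Af_three]
        exact hb _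
      by_cases hj : 3 ≤ j
      · obtain ⟨k, rfl⟩ := Nat.exists_eq_add_of_le' hj
        rw [Af_three]
        exact hb' _
      have h3 : i = 1 ∨ i = 2 := by omega
      have h4 : j = 1 ∨ j = 2 := by omega
      rcases h3 with rfl | rfl <;> rcases h4 with rfl | rfl
      · omega
      · rw [A1, A2]; exact comm_top_Cen
      · rw [A1, A2]; exact hCT
      · rw [A2]; exact hCC
    intro i j
    rcases Nat.eq_zero_or_pos i with rfl | hi
    · rw [zero_add]
      rcases j with _ | _ | _ | j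
      · exact le_top
      · exact le_top
      · exact comm_top_Cen.trans bot_le
      · exact hb' _
    rcases Nat.eq_zero_or_pos j with rfl | hj
    · rw [add_zero]
      rcases i with _ | _ | _ | i
      · exact le_top
      · exact le_top
      · exact hCT.trans bot_le
      · exact hb _
    rcases Nat.lt_or_ge (i + j) 3 with h | h
    · have h1 : i = 1 := by omega
      have h2 : j = 1 := by omega
      subst h1 h2
      exact comm_top_top
    · exact (key i j h hi hj).trans bot_le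
  A0 := rfl
  A1 := rfl
  low := by
    rintro (_ | _ | s) hs
    · omega
    · exact Cen_le
    · exact bot_le
  coc := coc_Af
  pi_mul := by
    rintro (_ | _ | _ | s) hs x hx y hy
    · omega
    · funext j
      have hj : ∀ j : Fin 2, (![(x * y).x, (x * y).y] : Fin 2 → ℝ) j =
          (![x.x, x.y] : Fin 2 → ℝ) j + (![y.x, y.y] : Fin 2 → ℝ) j := by
        intro j
        fin_cases j <;> simp
      exact hj j
    · funext j
      have hx' : x.x = 0 ∧ x.y = 0 := hx
      have hj : ∀ j : Fin 1, (![(x * y).z] : Fin 1 → ℝ) j =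
          (![x.z] : Fin 1 → ℝ) j + (![y.z] : Fin 1 → ℝ) j := by
        intro j
        fin_cases j
        simp [hx'.1]
      exact hj j
    · funext j
      exact Fin.elim0 j
  pi_cont := by
    rintro (_ | _ | _ | s) hs
    · omega
    · refine Continuous.continuousOn ?_
      change Continuous fun g : Heis => (![g.x, g.y] : Fin 2 → ℝ)
      refine continuous_pi fun j => ?_
      fin_cases j
      · exact Heis.continuous_x
      · exact Heis.continuous_y
    · refine Continuous.continuousOn ?_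
      change Continuous fun g : Heis => (![g.z] : Fin 1 → ℝ)
      refine continuous_pi fun j => ?_
      fin_cases j
      exact Heis.continuous_z
    · refine Continuous.continuousOn ?_
      refine continuous_pi fun j => ?_
      exact Fin.elim0 j
  pi_int := by
    rintro (_ | _ | _ | s) hs γ hγ _ j
    · omega
    · obtain ⟨a, b, c, rfl⟩ := hγ
      have : ∀ j : Fin 2, ∃ z : ℤ, (![(a : ℝ), (b : ℝ)] : Fin 2 → ℝ) j = z := by
        intro j
        fin_cases j
        · exact ⟨a, rfl⟩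
        · exact ⟨b, rfl⟩
      exact this j
    · obtain ⟨a, b, c, rfl⟩ := hγ
      have : ∀ j : Fin 1, ∃ z : ℤ, (![(c : ℝ)] : Fin 1 → ℝ) j = z := by
        intro j
        fin_cases j
        exact ⟨c, rfl⟩
      exact this j
    · exact Fin.elim0 j
  pi_ker := by
    rintro (_ | _ | _ | s) hs x hx
    · omega
    · change (![x.x, x.y] : Fin 2 → ℝ) = 0 ↔ x.x = 0 ∧ x.y = 0
      constructor
      · intro h
        exact ⟨congrFun h 0, congrFun h 1⟩
      · rintro ⟨h1, h2⟩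
        rw [h1, h2]
        funext j
        fin_cases j <;> rfl
    · change (![x.z] : Fin 1 → ℝ) = 0 ↔ x = 1
      have hx' : x.x = 0 ∧ x.y = 0 := hx
      constructor
      · intro h
        have h3 : x.z = 0 := congrFun h 0
        ext
        · exact hx'.1
        · exact hx'.2
        · exact h3
      · rintro rfl
        funext j
        fin_cases j
        rfl
    · constructor
      · intro _
        exact hx
      · intro _
        funext j
        exact Fin.elim0 j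
  e_onep := by
    rintro (_ | _ | _ | s) hs j
    · omega
    · have : ∀ j : Fin 2, IsOneP (fun r : ℝ => (⟨(![r, 0] : Fin 2 → ℝ) j,
          (![0, r] : Fin 2 → ℝ) j, 0⟩ : Heis)) ∧ (⟨(![1, 0] : Fin 2 → ℝ) j,
          (![0, 1] : Fin 2 → ℝ) j, 0⟩ : Heis) ∈ Gam := by
        intro j
        fin_cases j
        · refine ⟨⟨Heis.continuous_mk continuous_id continuous_const continuous_const,
            fun a b => ?_⟩, ⟨1, 0, 0, ?_⟩⟩
          · ext <;> simp
          · ext <;> simp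
        · refine ⟨⟨Heis.continuous_mk continuous_const continuous_id continuous_const,
            fun a b => ?_⟩, ⟨0, 1, 0, ?_⟩⟩
          · ext <;> simp
          · ext <;> simp
      exact ⟨(this j).1, (this j).2, fun r => trivial⟩
    · refine ⟨⟨Heis.continuous_mk continuous_const continuous_const continuous_id,
        fun a b => ?_⟩, ⟨0, 0, 1, ?_⟩, fun r => ⟨rfl, rfl⟩⟩
      · change (⟨0, 0, a + b⟩ : Heis) = ⟨0, 0, a⟩ * ⟨0, 0, b⟩
        ext <;> simp
      · change (⟨0, 0, 1⟩ : Heis) = _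
        ext <;> simp
    · exact Fin.elim0 j
  e_pi := by
    rintro (_ | _ | _ | s) hs j r
    · omega
    · have : ∀ j : Fin 2, (![(![r, 0] : Fin 2 → ℝ) j, (![0, r] : Fin 2 → ℝ) j] : Fin 2 → ℝ) =
          Pi.single j r := by
        intro j
        funext i
        fin_cases j <;> fin_cases i <;> simp
      exact this j
    · have : ∀ j : Fin 1, (![r] : Fin 1 → ℝ) = Pi.single j r := by
        intro j
        funext i
        fin_cases j
        fin_cases i
        simp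
      exact this j
    · exact Fin.elim0 j

lemma freq_ver {m : ℤ} {F : Heis → ℂ} (hF : Ver m F) : Freq (fun r => (⟨0, 0, r⟩ : Heis)) m F := by
  intro r x
  rw [central_mul]
  exact hF.2 x r

lemma lev {m : ℤ} {F : Heis → ℂ} (hF : Ver m F) :
    T3.LevN Af Gam (β := fun s => Fin (dm s)) ep (0 + 2) F := by
  refine ⟨hF.1, fun z hz x => ?_, fun j => ⟨m, freq_ver hF⟩⟩
  have hz' : z = 1 := hz
  rw [hz', one_mul]

lemma good {m : ℤ} (hm : m ≠ 0) {F : Heis → ℂ} (hF : Ver m F) :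
    T3.GoodN (β := fun s => Fin (dm s)) ep (0 + 2) F :=
  ⟨(0 : Fin 1), m, hm, freq_ver hF⟩

lemma tame_one : E.Tame (0 + 1) {fun _ => (1 : ℂ)} := by
  apply E.Tame.succ
  refine ⟨⟨1, one_pos, ?_⟩, ?_⟩
  · rintro t rfl l
    simp
  · rintro t rfl l
    rfl

lemma far_of {K d : ℝ} {g : Heis} (h : FarG K d g) : Q.Far K d (pr 1 g) := by
  intro k hk hkK
  have h1 : ∑ j, (k j : ℝ) * pr 1 g j = k (0 : Fin 2) * g.x + k (1 : Fin 2) * g.y := by
    have : ∀ k : Fin 2 → ℤ, ∑ j, (k j : ℝ) * (![g.x, g.y] : Fin 2 → ℝ) j =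
        k (0 : Fin 2) * g.x + k (1 : Fin 2) * g.y := fun k => by simp [Fin.sum_univ_two]
    exact this k
  rw [h1]
  refine h _ _ _ ?_ (hkK _) (hkK _)
  by_contra h2
  push Not at h2
  apply hk
  funext j
  have : ∀ (k : Fin 2 → ℤ), k 0 = 0 → k 1 = 0 → ∀ j, k j = 0 := by
    intro k h0 h1 j
    fin_cases j
    · exact h0
    · exact h1
  exact this k h2.1 h2.2 j

end RowA

open RowA in
theorem rowA : A_stmt := by
  intro m F hm hF ε hε
  obtain ⟨C, hC, h⟩ := Q.char_R ns 0 _ tame_one F (lev hF) (good hm hF) ε hε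
  refine ⟨C, hC, fun R d δ hR hδ hδd hd1 H N hH hHN => ?_⟩
  refine le_trans (sum_le_sum fun n _ => mul_le_mul_of_nonneg_left ?_ (by positivity))
    (h C le_rfl muC norm_muC (fun p hp m hpm => muC_mul p hp m hpm) R d δ hR hδ hδd hd1 H N hH hHN)
  obtain ⟨B, _, hB⟩ := reg_bound hF.1
  refine WH_le (GG_nonneg _ _ _ _) fun g hg x => ?_
  obtain ⟨h1, h2, h3, h4⟩ := hg
  have hgood : Q.GoodEl (pr 1) C R d δ g := by
    refine ⟨?_, far_of h3, far_of h4⟩
    have : ∀ j : Fin 2, |(![g.x, g.y] : Fin 2 → ℝ) j| ≤ R := by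
      intro j
      fin_cases j
      · exact h1
      · exact h2
    exact this
  refine le_trans (le_of_eq ?_) (Q.le_GGR (p := pr 1) (T := {fun _ => (1 : ℂ)}) ⟨B, hB⟩
    tame_one.bdd norm_muC H n
    (⟨g, hgood⟩, (g ^ n)⁻¹ * x, ⟨fun _ => 1, rfl⟩))
  congr 1
  refine sum_congr rfl fun h _ => ?_
  simp only [Q.famR]
  have e : g ^ (n + h) * ((g ^ n)⁻¹ * x) = g ^ h * x := by
    rw [add_comm, pow_add, mul_assoc, mul_inv_cancel_left]
  rw [e, mul_one, mul_comm]

end Pool.Agent.HB
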