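import Pool.Agent.Lib.HB.Basic
import Pool.Agent.Lib.MP_663568_nt_h86.FFourier

/-!
# Row B: the vertical Fourier series
-/

set_option autoImplicit false
open Finset MeasureTheory

namespace Pool.Agent.HB

open Pool.Agent.Lib.MP_663568_nt Pool.Agent.Lib.MP_663568_nt.Katai
  Pool.Agent.Lib.MP_663568_nt.Nul Pool.Agent.Lib.MP_663568_nt.Fib

namespace RowB

/-- The centre as a one-parameter subgroup. -/
def cen (t : ℝ) : Heis := ⟨0, 0, t⟩

lemma isOneP_cen : IsOneP cen := by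
  refine ⟨Heis.continuous_mk continuous_const continuous_const continuous_id, fun a b => ?_⟩
  ext <;> simp [cen]

lemma cocompact_Gam : Cocompact' Gam := by
  refine ⟨{g : Heis | |g.x| ≤ 1 ∧ |g.y| ≤ 1 ∧ |g.z| ≤ 1}, isCompact_box 1, fun x => ?_⟩
  obtain ⟨γ, hγ, ⟨h1, h2⟩, ⟨h3, h4⟩, h5, h6⟩ := exists_red x
  refine ⟨x * γ, ⟨?_, ?_, ?_⟩, γ⁻¹, Gam.inv_mem hγ, by rw [mul_assoc, mul_inv_cancel, mul_one]⟩
  · rw [abs_of_nonneg h1]; exact h2
  · rw [abs_of_nonneg h3]; exact h4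
  · rw [abs_of_nonneg h5]; exact h6

lemma cen_per {f : Heis → ℂ} (hf : Reg Gam f) (x : Heis) : f (cen 1 * x) = f x := by
  rw [cen, central_mul]
  exact hf.2 x _ ⟨0, 0, 1, by ext <;> simp⟩

lemma ver_Pop {f : Heis → ℂ} (hf : Reg Gam f) (m : ℤ) : Ver m (Pop cen m f) := by
  refine ⟨reg_Pop Gam f hf cen isOneP_cen.1 m, fun g t => ?_⟩
  rw [← central_mul]
  exact freq_Pop f hf.1 cen isOneP_cen (cen_per hf) m t g

lemma Pop_zero {f : Heis → ℂ} (h : ZM f) (g : Heis) : Pop cen 0 f g = 0 := by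
  unfold Pop
  rw [← h g]
  congr 1
  funext t
  have : ee (-(((0 : ℤ) : ℝ) * t)) = 1 := by
    have := ee_int 0
    simpa using this
  rw [this, one_mul, cen, central_mul]

end RowB

open RowB in
theorem rowB : B_stmt := by
  intro f hf hz ε hε
  obtain ⟨M, c, h⟩ := M1.one_circle Gam cocompact_Gam f hf cen isOneP_cen (cen_per hf) ε hε
  refine ⟨M.erase 0, fun m g => c m * Pop cen m f g, by simp, fun m _ => ⟨⟨?_, ?_⟩, ?_⟩,
    fun g => ?_⟩
  · exact continuous_const.mul (ver_Pop hf m).1.1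
  · intro x γ hγ
    simp only [(ver_Pop hf m).1.2 x γ hγ]
  · intro g t
    simp only [(ver_Pop hf m).2 g t]
    ring
  · have e : ∑ m ∈ M.erase 0, c m * Pop cen m f g = ∑ m ∈ M, c m * Pop cen m f g := by
      apply Finset.sum_erase
      rw [Pop_zero hz, mul_zero]
    rw [e]
    exact h g

end Pool.Agent.HB
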