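import Pool.Agent.Lib.HB.Defs

/-!
# Nilrotations of the Heisenberg group (MP_663568_nt): basic lemmas
-/

set_option autoImplicit false
open Finset MeasureTheory

namespace Pool.Agent.HB

open Pool.Agent.Lib.MP_663568_nt Pool.Agent.Lib.MP_663568_nt.Katai
  Pool.Agent.Lib.MP_663568_nt.Nul Pool.Agent.Lib.MP_663568_nt.Fib

/-- Reduction to the unit cube. -/
lemma exists_red (g : Heis) : ∃ γ ∈ Gam, (0 ≤ (g * γ).x ∧ (g * γ).x ≤ 1) ∧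
    (0 ≤ (g * γ).y ∧ (g * γ).y ≤ 1) ∧ (0 ≤ (g * γ).z ∧ (g * γ).z ≤ 1) := by
  refine ⟨⟨((-⌊g.x⌋ : ℤ) : ℝ), ((-⌊g.y⌋ : ℤ) : ℝ),
    ((-⌊g.z + g.x * ((-⌊g.y⌋ : ℤ) : ℝ)⌋ : ℤ) : ℝ)⟩, ⟨_, _, _, rfl⟩, ?_, ?_, ?_⟩
  · simp only [Heis.mul_x]
    push_cast
    constructor
    · linarith [Int.floor_le g.x]
    · linarith [Int.lt_floor_add_one g.x]
  · simp only [Heis.mul_y]
    push_cast
    constructor
    · linarith [Int.floor_le g.y]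
    · linarith [Int.lt_floor_add_one g.y]
  · simp only [Heis.mul_z]
    have h1 := Int.floor_le (g.z + g.x * ((-⌊g.y⌋ : ℤ) : ℝ))
    have h2 := Int.lt_floor_add_one (g.z + g.x * ((-⌊g.y⌋ : ℤ) : ℝ))
    constructor
    · push_cast at h1 ⊢; linarith
    · push_cast at h2 ⊢; linarith

/-- The closed box `|x|, |y|, |z| ≤ R` is compact. -/
lemma isCompact_box (R : ℝ) : IsCompact {g : Heis | |g.x| ≤ R ∧ |g.y| ≤ R ∧ |g.z| ≤ R} := by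
  have h1 : IsCompact (Set.Icc (-R) R ×ˢ (Set.Icc (-R) R ×ˢ Set.Icc (-R) R)) :=
    isCompact_Icc.prod (isCompact_Icc.prod isCompact_Icc)
  have h2 : Continuous fun p : ℝ × ℝ × ℝ => (⟨p.1, p.2.1, p.2.2⟩ : Heis) :=
    Heis.continuous_mk continuous_fst (continuous_fst.comp continuous_snd)
      (continuous_snd.comp continuous_snd)
  have h3 := h1.image h2
  convert h3 using 1
  ext g
  simp only [Set.mem_ofPred_eq, Set.mem_image, Set.mem_prod, Set.mem_Icc, Prod.exists]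
  constructor
  · rintro ⟨h1, h2, h3⟩
    exact ⟨g.x, g.y, g.z, ⟨⟨(abs_le.1 h1).1, (abs_le.1 h1).2⟩, ⟨(abs_le.1 h2).1, (abs_le.1 h2).2⟩,
      (abs_le.1 h3).1, (abs_le.1 h3).2⟩, rfl⟩
  · rintro ⟨a, b, c, ⟨h1, h2, h3⟩, rfl⟩
    exact ⟨abs_le.2 h1, abs_le.2 h2, abs_le.2 h3⟩

/-- Functions on `G ⧸ Γ` are bounded. -/
lemma reg_bound {f : Heis → ℂ} (hf : Reg Gam f) : ∃ B : ℝ, 0 < B ∧ ∀ g, ‖f g‖ ≤ B := by
  obtain ⟨B, hB⟩ := ((isCompact_box 1).image hf.1.norm).bddAbove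
  refine ⟨max B 1, lt_max_of_lt_right one_pos, fun g => ?_⟩
  obtain ⟨γ, hγ, ⟨h1, h2⟩, ⟨h3, h4⟩, h5, h6⟩ := exists_red g
  rw [← hf.2 g γ hγ]
  refine le_trans (hB ⟨g * γ, ⟨?_, ?_, ?_⟩, rfl⟩) (le_max_left _ _)
  · rw [abs_of_nonneg h1]; exact h2
  · rw [abs_of_nonneg h3]; exact h4
  · rw [abs_of_nonneg h5]; exact h6

lemma norm_sum_mu_le {u : ℕ → ℂ} {B : ℝ} (hu : ∀ h, ‖u h‖ ≤ B) (H n : ℕ) :
    ‖∑ h ∈ Icc 1 H, muC (n + h) * u h‖ ≤ H * B := by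
  calc _ ≤ ∑ h ∈ Icc 1 H, ‖muC (n + h) * u h‖ := norm_sum_le _ _
    _ ≤ ∑ _h ∈ Icc 1 H, B := by
        refine sum_le_sum fun h _ => ?_
        rw [norm_mul]
        calc _ ≤ 1 * ‖u h‖ := mul_le_mul_of_nonneg_right (norm_muC _) (norm_nonneg _)
          _ ≤ B := by rw [one_mul]; exact hu h
    _ = H * B := by simp

lemma WH_bdd {F : Heis → ℂ} {B : ℝ} (hB : ∀ g, ‖F g‖ ≤ B) (S : Set Heis) (H n : ℕ) :
    BddAbove (Set.range fun v : {v : Heis × Heis // v.1 ∈ S} =>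
      ‖∑ h ∈ Icc 1 H, muC (n + h) * F (v.1.1 ^ h * v.1.2)‖) :=
  ⟨H * B, by rintro _ ⟨v, rfl⟩; exact norm_sum_mu_le (fun h => hB _) H n⟩

lemma WH_nonneg (F : Heis → ℂ) (S : Set Heis) (H n : ℕ) : 0 ≤ WH F S H n :=
  Real.iSup_nonneg fun _ => norm_nonneg _

lemma le_WH {F : Heis → ℂ} {B : ℝ} (hB : ∀ g, ‖F g‖ ≤ B) {S : Set Heis} {g : Heis} (hg : g ∈ S)
    (x : Heis) (H n : ℕ) : ‖∑ h ∈ Icc 1 H, muC (n + h) * F (g ^ h * x)‖ ≤ WH F S H n :=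
  le_ciSup (WH_bdd hB S H n) (⟨(g, x), hg⟩ : {v : Heis × Heis // v.1 ∈ S})

lemma WH_le {F : Heis → ℂ} {S : Set Heis} {H n : ℕ} {c : ℝ} (hc : 0 ≤ c)
    (h : ∀ g ∈ S, ∀ x, ‖∑ h ∈ Icc 1 H, muC (n + h) * F (g ^ h * x)‖ ≤ c) : WH F S H n ≤ c :=
  Real.iSup_le (fun v => h v.1.1 v.2 v.1.2) hc

lemma WH_le_card {F : Heis → ℂ} {B : ℝ} (hB : ∀ g, ‖F g‖ ≤ B) (S : Set Heis) (H n : ℕ) :
    WH F S H n ≤ H * B :=
  WH_le (mul_nonneg (Nat.cast_nonneg _) ((norm_nonneg _).trans (hB 1)))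
    fun _ _ _ => norm_sum_mu_le (fun _ => hB _) H n

lemma WH_mono {F : Heis → ℂ} {B : ℝ} (hB : ∀ g, ‖F g‖ ≤ B) {S S' : Set Heis} (hS : S ⊆ S')
    (H n : ℕ) : WH F S H n ≤ WH F S' H n :=
  WH_le (WH_nonneg _ _ _ _) fun _ hg x => le_WH hB (hS hg) x H n

lemma AH_nonneg (F : Heis → ℂ) (S : Set Heis) (N H : ℕ) : 0 ≤ AH F S N H :=
  sum_nonneg fun _ _ => mul_nonneg (by positivity) (WH_nonneg _ _ _ _)

lemma AH_mono {F : Heis → ℂ} {B : ℝ} (hB : ∀ g, ‖F g‖ ≤ B) {S S' : Set Heis} (hS : S ⊆ S')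
    (N H : ℕ) : AH F S N H ≤ AH F S' N H :=
  sum_le_sum fun _ _ => mul_le_mul_of_nonneg_left (WH_mono hB hS _ _) (by positivity)

lemma WQ_bdd (A : Set ℝ) (H n : ℕ) : BddAbove (Set.range fun v : {v : ℝ × ℝ // v.1 ∈ A} =>
    ‖∑ h ∈ Icc 1 H, muC (n + h) * ee (v.1.1 * (h : ℝ) ^ 2 + v.1.2 * (h : ℝ))‖) :=
  ⟨H * 1, by rintro _ ⟨v, rfl⟩; exact norm_sum_mu_le (fun h => (norm_ee _).le) H n⟩

lemma WQ_nonneg (A : Set ℝ) (H n : ℕ) : 0 ≤ WQ A H n := Real.iSup_nonneg fun _ => norm_nonneg _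

lemma le_WQ {A : Set ℝ} {a : ℝ} (ha : a ∈ A) (β : ℝ) (H n : ℕ) :
    ‖∑ h ∈ Icc 1 H, muC (n + h) * ee (a * (h : ℝ) ^ 2 + β * (h : ℝ))‖ ≤ WQ A H n :=
  le_ciSup (WQ_bdd A H n) (⟨(a, β), ha⟩ : {v : ℝ × ℝ // v.1 ∈ A})

lemma WQ_le {A : Set ℝ} {H n : ℕ} {c : ℝ} (hc : 0 ≤ c)
    (h : ∀ a ∈ A, ∀ β : ℝ,
      ‖∑ h ∈ Icc 1 H, muC (n + h) * ee (a * (h : ℝ) ^ 2 + β * (h : ℝ))‖ ≤ c) : WQ A H n ≤ c :=
  Real.iSup_le (fun v => h v.1.1 v.2 v.1.2) hc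

lemma WQ_le_card (A : Set ℝ) (H n : ℕ) : WQ A H n ≤ H :=
  WQ_le (Nat.cast_nonneg _) fun a _ β =>
    (norm_sum_mu_le (B := 1) (fun h => (norm_ee _).le) H n).trans (by simp)

lemma WQ_mono {A A' : Set ℝ} (hA : A ⊆ A') (H n : ℕ) : WQ A H n ≤ WQ A' H n :=
  WQ_le (WQ_nonneg _ _ _) fun _ ha β => le_WQ (hA ha) β H n

lemma AQ_nonneg (A : Set ℝ) (N H : ℕ) : 0 ≤ AQ A N H :=
  sum_nonneg fun _ _ => mul_nonneg (by positivity) (WQ_nonneg _ _ _)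

lemma AQ_mono {A A' : Set ℝ} (hA : A ⊆ A') (N H : ℕ) : AQ A N H ≤ AQ A' N H :=
  sum_le_sum fun _ _ => mul_le_mul_of_nonneg_left (WQ_mono hA _ _) (by positivity)

/-- A phase with a constant term. -/
lemma le_WQ' {A : Set ℝ} {a : ℝ} (ha : a ∈ A) (β γ : ℝ) (H n : ℕ) :
    ‖∑ h ∈ Icc 1 H, muC (n + h) * ee (a * (h : ℝ) ^ 2 + β * (h : ℝ) + γ)‖ ≤ WQ A H n := by
  have e : ∑ h ∈ Icc 1 H, muC (n + h) * ee (a * (h : ℝ) ^ 2 + β * (h : ℝ) + γ) =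
      ee γ * ∑ h ∈ Icc 1 H, muC (n + h) * ee (a * (h : ℝ) ^ 2 + β * (h : ℝ)) := by
    rw [mul_sum]
    exact sum_congr rfl fun h _ => by rw [ee_add]; ring
  rw [e, norm_mul, norm_ee, one_mul]
  exact le_WQ ha β H n

/-- The central elements commute with everything. -/
lemma central_mul (g : Heis) (t : ℝ) : (⟨0, 0, t⟩ : Heis) * g = g * ⟨0, 0, t⟩ := by
  ext <;> simp [add_comm]

lemma sum_inv_le (N : ℕ) : ∑ n ∈ Icc 1 N, (1 / (n : ℝ)) ≤ 1 + Real.log N := sum_inv_le_log N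

end Pool.Agent.HB
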