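import Pool.Agent.Lib.HB.Basic
import Pool.Agent.Lib.TUK.Defs3
import Pool.Agent.Lib.TUK.SK

/-!
# Nilrotations of the Heisenberg group (MP_663568_nt): the trivial class of sequences
-/

set_option autoImplicit false
open Finset MeasureTheory Polynomial

namespace Pool.Agent.HB

open Pool.Agent.Lib.MP_663568_nt Pool.Agent.Lib.MP_663568_nt.Katai
  Pool.Agent.Lib.MP_663568_nt.Nul Pool.Agent.Lib.MP_663568_nt.Fib

/-- The class consisting of the constant sequence one. -/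
def F1c : Set (ℕ → ℂ) := {fun _ => 1}

lemma NS_one : TUK.NS (⊥ : Subgroup PUnit.{1}) (fun _ => (1 : ℂ)) = F1c := by
  ext u
  simp only [TUK.NS, F1c, Set.mem_ofPred_eq, Set.mem_singleton_iff]
  constructor
  · rintro ⟨_, _, hu⟩
    funext m
    exact hu m
  · rintro rfl
    exact ⟨1, 1, fun _ => rfl⟩

lemma F1c_laws : TUK.Cls F1c ∧ TUK.DualLaw (0 + 1) F1c := by
  have h := TUK.rowSK PUnit.{1} 0 (fun _ => ⊤) (fun _ _ _ => le_rfl)
    (fun _ _ => le_top) rfl (Subsingleton.elim _ _) ⊥ (isClosed_discrete _)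
    (fun _ => ⟨Set.univ, isCompact_univ, fun _ _ => trivial,
      fun x _ => ⟨x, trivial, 1, Subgroup.one_mem _, by simp⟩⟩)
    (fun _ => (1 : ℂ)) continuous_const (fun _ => by simp)
  rw [NS_one] at h
  exact ⟨h.1, h.2.1⟩

lemma Mn_eq (Q : ℕ) (δ : ℝ) : Mn Q δ = TUK.Mn Q δ := rfl

lemma AQ_le_AT (A : Set ℝ) (N H : ℕ) : AQ A N H ≤ TUK.AT 2 A F1c (fun _ => 1) N H := by
  refine sum_le_sum fun n _ => mul_le_mul_of_nonneg_left ?_ (by positivity)
  refine WQ_le (Real.iSup_nonneg fun _ => norm_nonneg _) fun a ha β => ?_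
  have hb : BddAbove (Set.range fun p : {p : ℝ[X] × (ℕ → ℂ) // p.1.natDegree ≤ 2 ∧
      p.1.coeff 2 ∈ A ∧ p.2 ∈ F1c} =>
      ‖∑ h ∈ Icc 1 H, muC (n + h) * (p.1.2 h * ((fun _ => 1 : ℕ → ℂ) h *
        ee (p.1.1.eval (h : ℝ))))‖) := by
    refine ⟨H * 1, ?_⟩
    rintro _ ⟨⟨⟨P, u⟩, hP, hA, hu⟩, rfl⟩
    rw [F1c, Set.mem_singleton_iff] at hu
    subst hu
    exact norm_sum_mu_le (fun h => by simp [norm_ee]) H n
  have hP1 : (C a * X ^ 2 + C β * X : ℝ[X]).natDegree ≤ 2 := by compute_degree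
  have hP2 : (C a * X ^ 2 + C β * X : ℝ[X]).coeff 2 ∈ A := by
    have : (C a * X ^ 2 + C β * X : ℝ[X]).coeff 2 = a := by
      simp [coeff_X]
    rw [this]
    exact ha
  refine le_trans (le_of_eq ?_) (le_ciSup hb ⟨(C a * X ^ 2 + C β * X, fun _ => 1), hP1, hP2, rfl⟩)
  simp only [one_mul]
  congr 1
  refine sum_congr rfl fun h _ => ?_
  simp

lemma AT_le_AQ (A : Set ℝ) (N H : ℕ) : TUK.AT 2 A F1c (fun _ => 1) N H ≤ AQ A N H := by
  refine sum_le_sum fun n _ => mul_le_mul_of_nonneg_left ?_ (by positivity)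
  refine Real.iSup_le ?_ (WQ_nonneg _ _ _)
  rintro ⟨⟨P, u⟩, hP, hA, hu⟩
  rw [F1c, Set.mem_singleton_iff] at hu
  subst hu
  refine le_trans (le_of_eq ?_) (le_WQ' hA (P.coeff 1) (P.coeff 0) H n)
  congr 1
  refine sum_congr rfl fun h _ => ?_
  simp only [one_mul]
  congr 2
  rw [eval_eq_sum_range' (lt_of_le_of_lt hP (by norm_num : 2 < 3))]
  simp [sum_range_succ]
  ring

end Pool.Agent.HB
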