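import Pool.Agent.Lib.HB.Basic

/-!
# Nilrotations of the Heisenberg group (MP_663568_nt): row C, near a rational line
-/

set_option autoImplicit false
open Finset MeasureTheory

namespace Pool.Agent.HB

open Pool.Agent.Lib.MP_663568_nt Pool.Agent.Lib.MP_663568_nt.Katai
  Pool.Agent.Lib.MP_663568_nt.Nul Pool.Agent.Lib.MP_663568_nt.Fib

namespace CRow

lemma ver_z {m : ℤ} {F : Heis → ℂ} (hF : Ver m F) (x y z : ℝ) :
    F ⟨x, y, z⟩ = ee (m * z) * F ⟨x, y, 0⟩ := by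
  rw [← hF.2 ⟨x, y, 0⟩ z]
  congr 1
  ext <;> simp

lemma ver_int {m : ℤ} {F : Heis → ℂ} (hF : Ver m F) (x y : ℝ) (a b : ℤ) :
    F ⟨x + a, y + b, 0⟩ = ee (-(m * x * b)) * F ⟨x, y, 0⟩ := by
  have h1 := hF.1.2 ⟨x, y, -(x * b)⟩ ⟨a, b, (0 : ℤ)⟩ ⟨a, b, 0, rfl⟩
  have h2 : (⟨x, y, -(x * b)⟩ : Heis) * ⟨a, b, ((0 : ℤ) : ℝ)⟩ = ⟨x + a, y + b, 0⟩ := by
    ext <;> simp
  rw [h2] at h1
  rw [h1, ver_z hF]
  congr 2
  ring

lemma cont_slice {m : ℤ} {F : Heis → ℂ} (hF : Ver m F) :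
    Continuous fun p : ℝ × ℝ => F ⟨p.1, p.2, 0⟩ :=
  hF.1.1.comp (Heis.continuous_mk continuous_fst continuous_snd continuous_const)

/-- Trigonometric approximation on the circle. -/
lemma trig1 (u : ℝ → ℂ) (hu : Continuous u) (hp : ∀ x, u (x + 1) = u x) {η : ℝ} (hη : 0 < η) :
    ∃ (S : Finset ℤ) (a : ℤ → ℂ), ∀ x, ‖u x - ∑ k ∈ S, a k * ee (k * x)‖ ≤ η := by
  have hp' : Function.Periodic u 1 := hp
  have hc : Continuous (hp'.lift) := by
    refine continuous_coinduced_dom.2 ?_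
    exact hu
  set U : C(AddCircle (1 : ℝ), ℂ) := ⟨hp'.lift, hc⟩ with hU
  have : Fact (0 < (1 : ℝ)) := ⟨one_pos⟩
  have h : U ∈ (Submodule.span ℂ (Set.range <| @fourier 1)).topologicalClosure := by
    rw [span_fourier_closure_eq_top]; trivial
  have h' : U ∈ closure ((Submodule.span ℂ (Set.range <| @fourier 1) :
      Set C(AddCircle (1 : ℝ), ℂ))) := h
  obtain ⟨T, hT, hd⟩ := Metric.mem_closure_iff.mp h' η hη
  obtain ⟨c, hc⟩ := (Finsupp.mem_span_range_iff_exists_finsupp).mp hT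
  refine ⟨c.support, c, ?_⟩
  intro x
  have h1 : T (x : AddCircle (1 : ℝ)) = ∑ k ∈ c.support, c k * ee (k * x) := by
    rw [← hc, Finsupp.sum]
    simp only [ContinuousMap.coe_sum, Finset.sum_apply, ContinuousMap.coe_smul, Pi.smul_apply,
      smul_eq_mul]
    refine sum_congr rfl fun k _ => ?_
    rw [fourier_coe_apply, ee]
    congr 2
    push_cast
    ring
  rw [← h1]
  have h2 : ‖U x - T x‖ ≤ ‖U - T‖ := (U - T).norm_coe_le_norm x
  rw [dist_eq_norm] at hd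
  have h3 : U (x : AddCircle (1 : ℝ)) = u x := by
    rw [hU]; rfl
  rw [h3] at h2
  exact h2.trans hd.le

/-- Uniform continuity in the second variable, uniformly in the first one. -/
lemma unif_y {m : ℤ} {F : Heis → ℂ} (hF : Ver m F) {η : ℝ} (hη : 0 < η) :
    ∃ ρ : ℝ, 0 < ρ ∧ ∀ x y y' : ℝ, |y - y'| ≤ ρ → ‖F ⟨x, y, 0⟩ - F ⟨x, y', 0⟩‖ ≤ η := by
  have hK : IsCompact (Set.Icc (0 : ℝ) 1 ×ˢ Set.Icc (-1 : ℝ) 2) :=
    isCompact_Icc.prod isCompact_Icc
  have hu := hK.uniformContinuousOn_of_continuous (cont_slice hF).continuousOn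
  obtain ⟨δ, hδ, h⟩ := Metric.uniformContinuousOn_iff.1 hu η hη
  refine ⟨min (δ / 2) 1, by positivity, ?_⟩
  intro x y y' hy
  have e1 : (⟨x, y, 0⟩ : Heis) = ⟨Int.fract x + (⌊x⌋ : ℤ), Int.fract y + (⌊y⌋ : ℤ), 0⟩ := by
    ext <;> simp [Int.fract_add_floor]
  have e2 : (⟨x, y', 0⟩ : Heis) = ⟨Int.fract x + (⌊x⌋ : ℤ), (y' - ⌊y⌋) + (⌊y⌋ : ℤ), 0⟩ := by
    ext <;> simp [Int.fract_add_floor]
  rw [e1, e2, ver_int hF, ver_int hF, ← mul_sub, norm_mul, norm_ee, one_mul, ← dist_eq_norm]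
  have a1 := Int.fract_nonneg x
  have a2 := (Int.fract_lt_one x).le
  have a3 := Int.fract_nonneg y
  have a4 := (Int.fract_lt_one y).le
  have a5 := Int.fract_add_floor y
  have a6 : |y - y'| ≤ 1 := hy.trans (min_le_right _ _)
  have a7 : |y - y'| ≤ δ / 2 := hy.trans (min_le_left _ _)
  rw [abs_le] at a6
  refine (h (Int.fract x, Int.fract y) ⟨⟨a1, a2⟩, ⟨by simp only; linarith, by simp only; linarith⟩⟩
    (Int.fract x, y' - ⌊y⌋) ⟨⟨a1, a2⟩, ⟨by simp only; linarith, by simp only; linarith⟩⟩ ?_).le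
  rw [Prod.dist_eq]
  simp only [dist_self]
  have a8 : dist (Int.fract y) (y' - ⌊y⌋) = |y - y'| := by
    rw [Real.dist_eq]
    congr 1
    linarith
  rw [a8]
  exact max_lt hδ (by linarith)

/-- Trigonometric approximation of all slices with bounded coefficients. -/
lemma net {m : ℤ} {F : Heis → ℂ} (hF : Ver m F) {η : ℝ} (hη : 0 < η) :
    ∃ C₀ : ℝ, 0 < C₀ ∧ ∀ Y : ℝ, ∃ (c : ℤ) (S : Finset ℤ) (a : ℤ → ℂ),
      ∑ k ∈ S, ‖a k‖ ≤ C₀ ∧
      ∀ X : ℝ, ‖F ⟨X, Y, 0⟩ - ∑ k ∈ S, a k * ee (((k + c : ℤ) : ℝ) * X)‖ ≤ η := by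
  obtain ⟨ρ, hρ, hu⟩ := unif_y hF (half_pos hη)
  obtain ⟨M, hM⟩ := exists_nat_gt (1 / ρ)
  have hM0 : (0 : ℝ) < M := lt_trans (by positivity) hM
  have hM1 : 1 / (M : ℝ) ≤ ρ := by
    rw [div_le_iff₀ hM0]
    rw [div_lt_iff₀ hρ] at hM
    linarith
  have ht : ∀ i : ℕ, ∃ (S : Finset ℤ) (a : ℤ → ℂ), ∀ x,
      ‖F ⟨x, (i : ℝ) / M, 0⟩ - ∑ k ∈ S, a k * ee (k * x)‖ ≤ η / 2 := by
    intro i
    refine trig1 (fun x => F ⟨x, (i : ℝ) / M, 0⟩)
      ((cont_slice hF).comp (continuous_id.prodMk continuous_const)) ?_ (half_pos hη)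
    intro x
    have h1 := ver_int hF x ((i : ℝ) / M) 1 0
    have h2 : ee (-(m * x * ((0 : ℤ) : ℝ))) = 1 := by
      have := ee_int 0
      rw [← this]; congr 1; push_cast; ring
    rw [h2, one_mul] at h1
    simpa using h1
  choose S a hSa using ht
  refine ⟨1 + ∑ i ∈ range (M + 1), ∑ k ∈ S i, ‖a i k‖, by positivity, ?_⟩
  intro Y
  set i : ℕ := ⌊(M : ℝ) * Int.fract Y⌋₊ with hi
  have hf0 := Int.fract_nonneg Y
  have hf1 := (Int.fract_lt_one Y).le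
  have hi1 : (i : ℝ) ≤ M * Int.fract Y := Nat.floor_le (by positivity)
  have hi2 : (M : ℝ) * Int.fract Y < i + 1 := Nat.lt_floor_add_one _
  have hiM : i ∈ range (M + 1) := by
    rw [mem_range]
    have : (i : ℝ) < (M + 1 : ℕ) := by
      push_cast
      nlinarith
    exact_mod_cast this
  refine ⟨-(m * ⌊Y⌋), S i, a i, ?_, ?_⟩
  · have := single_le_sum (f := fun i => ∑ k ∈ S i, ‖a i k‖)
      (fun i _ => sum_nonneg fun k _ => norm_nonneg _) hiM
    linarith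
  · intro X
    have e1 : (⟨X, Y, 0⟩ : Heis) = ⟨X + ((0 : ℤ) : ℝ), Int.fract Y + (⌊Y⌋ : ℤ), 0⟩ := by
      ext <;> simp [Int.fract_add_floor]
    have e2 : ∑ k ∈ S i, a i k * ee (((k + -(m * ⌊Y⌋) : ℤ) : ℝ) * X) =
        ee (-(m * X * (⌊Y⌋ : ℤ))) * ∑ k ∈ S i, a i k * ee (k * X) := by
      rw [mul_sum]
      refine sum_congr rfl fun k _ => ?_
      have : (((k + -(m * ⌊Y⌋) : ℤ) : ℝ) * X) = -(m * X * (⌊Y⌋ : ℤ)) + k * X := by
        push_cast; ring
      rw [this, ee_add]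
      ring
    rw [e1, e2, ver_int hF, ← mul_sub, norm_mul, norm_ee, one_mul]
    have h1 : ‖F ⟨X, Int.fract Y, 0⟩ - F ⟨X, (i : ℝ) / M, 0⟩‖ ≤ η / 2 := by
      refine hu _ _ _ (le_trans ?_ hM1)
      have h3 : Int.fract Y - (i : ℝ) / M = (M * Int.fract Y - i) / M := by field_simp
      rw [h3, abs_div, abs_of_pos hM0]
      refine div_le_div_of_nonneg_right ?_ hM0.le
      rw [abs_le]
      constructor <;> linarith
    have h2 := hSa i X
    have h3 : F ⟨X, Int.fract Y, 0⟩ - ∑ k ∈ S i, a i k * ee (k * X) =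
      (F ⟨X, Int.fract Y, 0⟩ - F ⟨X, (i : ℝ) / M, 0⟩) +
        (F ⟨X, (i : ℝ) / M, 0⟩ - ∑ k ∈ S i, a i k * ee (k * X)) := by ring
    rw [h3]
    exact (norm_add_le _ _).trans (by linarith)

lemma ee_nat' (n : ℕ) (x : ℝ) : ee ((n : ℝ) * x) = ee x ^ n := by
  induction n with
  | zero =>
    have := ee_int 0
    simpa using this
  | succ n ih =>
    rw [pow_succ, ← ih, ← ee_add]
    congr 1
    push_cast
    ring

/-- The indicator of a residue class. -/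
lemma ind (κ : ℕ) (hκ : 1 ≤ κ) (h j : ℕ) (hj : j < κ) :
    (if h % κ = j then (1 : ℂ) else 0) =
      (κ : ℂ)⁻¹ * ∑ r ∈ range κ, ee ((r : ℝ) * (((h : ℝ) - j) / κ)) := by
  have hκ0 : (κ : ℝ) ≠ 0 := by positivity
  have hκ1 : (κ : ℂ) ≠ 0 := by exact_mod_cast (by omega : κ ≠ 0)
  have e : ∑ r ∈ range κ, ee ((r : ℝ) * (((h : ℝ) - j) / κ)) =
      ∑ r ∈ range κ, ee (((h : ℝ) - j) / κ) ^ r := sum_congr rfl fun r _ => ee_nat' _ _
  rw [e]
  split_ifs with hc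
  · obtain ⟨q, hq⟩ : ∃ q : ℕ, κ * q + j = h := ⟨h / κ, by rw [← hc]; exact Nat.div_add_mod h κ⟩
    have h1 : ((h : ℝ) - j) / κ = ((q : ℤ) : ℝ) := by
      rw [← hq]
      push_cast
      field_simp
      ring
    rw [h1, ee_int]
    simp [hκ1]
  · have hne : ee (((h : ℝ) - j) / κ) ≠ 1 := by
      intro h1
      rw [ee_eq_one_iff] at h1
      obtain ⟨z, hz⟩ := h1
      rw [div_eq_iff hκ0] at hz
      have h2 : (h : ℤ) = j + z * κ := by
        have : (h : ℝ) = j + z * κ := by linarith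
        exact_mod_cast this
      have h3 : (h : ℤ) % κ = j := by
        rw [h2, Int.add_mul_emod_self_right]
        exact Int.emod_eq_of_lt (by positivity) (by exact_mod_cast hj)
      exact hc (by exact_mod_cast h3)
    rw [geom_sum_eq hne]
    have h1 : ee (((h : ℝ) - j) / κ) ^ κ = 1 := by
      rw [← ee_nat', ee_eq_one_iff]
      refine ⟨(h : ℤ) - j, ?_⟩
      push_cast
      field_simp
    rw [h1]
    simp

/-- Phases on a residue class. -/
lemma class_sum (κ : ℕ) (hκ : 1 ≤ κ) (j : ℕ) (hj : j < κ) (A β γ : ℝ) (H n : ℕ) :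
    ‖∑ h ∈ Icc 1 H, muC (n + h) *
      ((if h % κ = j then (1 : ℂ) else 0) * ee (A * (h : ℝ) ^ 2 + β * h + γ))‖ ≤
      WQ {A} H n := by
  have hκ0 : (κ : ℝ) ≠ 0 := by positivity
  have hκ1 : (κ : ℂ) ≠ 0 := by exact_mod_cast (by omega : κ ≠ 0)
  have e : ∑ h ∈ Icc 1 H, muC (n + h) *
      ((if h % κ = j then (1 : ℂ) else 0) * ee (A * (h : ℝ) ^ 2 + β * h + γ)) =
      (κ : ℂ)⁻¹ * ∑ r ∈ range κ, ∑ h ∈ Icc 1 H, muC (n + h) *
        ee (A * (h : ℝ) ^ 2 + (β + r / κ) * h + (γ - r * j / κ)) := by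
    rw [sum_comm, mul_sum]
    refine sum_congr rfl fun h _ => ?_
    rw [ind κ hκ h j hj, mul_assoc, sum_mul, mul_left_comm, mul_sum]
    congr 1
    refine sum_congr rfl fun r _ => ?_
    rw [← ee_add]
    congr 2
    field_simp
    ring
  rw [e, norm_mul, norm_inv, Complex.norm_natCast]
  have h1 : ‖∑ r ∈ range κ, ∑ h ∈ Icc 1 H, muC (n + h) *
        ee (A * (h : ℝ) ^ 2 + (β + r / κ) * h + (γ - r * j / κ))‖ ≤ κ * WQ {A} H n := by
    refine (norm_sum_le _ _).trans ?_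
    refine (sum_le_sum fun r _ => le_WQ' (Set.mem_singleton A) _ _ H n).trans ?_
    simp
  calc (κ : ℝ)⁻¹ * _ ≤ (κ : ℝ)⁻¹ * (κ * WQ {A} H n) :=
        mul_le_mul_of_nonneg_left h1 (by positivity)
    _ = WQ {A} H n := by field_simp

lemma pow_mul_eq (g x : Heis) (h : ℕ) : g ^ h * x =
    ⟨h * g.x + x.x, h * g.y + x.y,
      h * g.z + g.x * g.y * ((h : ℝ) * ((h : ℝ) - 1) / 2) + x.z + h * g.x * x.y⟩ := by
  ext
  · rw [Heis.mul_x, Heis.pow_x]
  · rw [Heis.mul_y, Heis.pow_y]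
  · rw [Heis.mul_z, Heis.pow_z, Heis.pow_x]

end CRow

open CRow in
theorem rowC : C_stmt := by
  intro m F hF κ w hκ ε hε
  obtain ⟨ρ, hρ, hu⟩ := unif_y hF (half_pos hε)
  obtain ⟨C₀, hC₀, hnet⟩ := net hF (half_pos hε)
  choose c S a hSa hX using hnet
  refine ⟨ρ, hρ, κ * C₀, by positivity, ?_⟩
  intro g x n H hH
  have hκ0 : (κ : ℝ) ≠ 0 := by positivity
  set b₀ : ℝ := (w : ℝ) / κ with hb₀
  -- the slices
  set Y : ℕ → ℝ := fun j => j * b₀ + x.y with hY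
  set β : ℕ → ℤ → ℝ := fun j k => m * g.z - m * (g.x * g.y / 2) + m * (g.x * x.y) +
    m * (g.x * (j * b₀)) - m * (x.x * b₀) + (k + c (Y j) : ℤ) * g.x with hβ
  set γ : ℕ → ℤ → ℝ := fun j k => m * x.z + m * (x.x * (j * b₀)) + (k + c (Y j) : ℤ) * x.x
    with hγ
  set A : ℝ := (m : ℝ) * g.x * (g.y / 2 - b₀) with hA
  set G : ℕ → ℂ := fun h => ∑ k ∈ S (Y (h % κ)), a (Y (h % κ)) k *
    ee (A * (h : ℝ) ^ 2 + β (h % κ) k * h + γ (h % κ) k) with hG
  -- the main approximation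
  have hmain : ∀ h ∈ Icc 1 H, ‖F (g ^ h * x) - G h‖ ≤ ε := by
    intro h hh
    rw [mem_Icc] at hh
    obtain ⟨q, hq⟩ : ∃ q : ℕ, κ * q + h % κ = h := ⟨h / κ, Nat.div_add_mod h κ⟩
    set j := h % κ with hj
    have hq' : (h : ℝ) = κ * q + j := by exact_mod_cast hq.symm
    set X : ℝ := h * g.x + x.x with hXd
    set D : ℝ := h * g.z + g.x * g.y * ((h : ℝ) * ((h : ℝ) - 1) / 2) + x.z + h * g.x * x.y
      with hD
    have e1 : F (g ^ h * x) = ee (m * D) * F ⟨X, h * g.y + x.y, 0⟩ := by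
      rw [pow_mul_eq, ver_z hF]
    have e2 : h * b₀ + x.y = Y j + ((w * q : ℤ) : ℝ) := by
      rw [hY, hb₀, hq']
      push_cast
      field_simp
      ring
    have e3 : F ⟨X, h * b₀ + x.y, 0⟩ = ee (-(m * X * ((w * q : ℤ) : ℝ))) * F ⟨X, Y j, 0⟩ := by
      have := ver_int hF X (Y j) 0 (w * q)
      rw [← this, e2]
      congr 1
      ext <;> simp
    have e4 : G h = ee (m * D) * ee (-(m * X * ((w * q : ℤ) : ℝ))) *
        ∑ k ∈ S (Y j), a (Y j) k * ee (((k + c (Y j) : ℤ) : ℝ) * X) := by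
      rw [hG]
      simp only
      rw [mul_sum]
      refine sum_congr rfl fun k _ => ?_
      rw [← ee_add, mul_left_comm, ← ee_add]
      congr 2
      have e5 : ((w * q : ℤ) : ℝ) = h * b₀ - j * b₀ := by
        rw [hb₀, hq']
        push_cast
        field_simp
        ring
      rw [e5, hβ, hγ, hA, hD, hXd]
      push_cast
      ring
    have i1 : ‖F ⟨X, h * g.y + x.y, 0⟩ - F ⟨X, h * b₀ + x.y, 0⟩‖ ≤ ε / 2 := by
      refine hu _ _ _ (le_trans ?_ hH)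
      have e6 : h * g.y + x.y - (h * b₀ + x.y) = h * (g.y - b₀) := by ring
      rw [e6, abs_mul, Nat.abs_cast]
      exact mul_le_mul_of_nonneg_right (by exact_mod_cast hh.2) (abs_nonneg _)
    have i2 := hX (Y j) X
    have e7 : F (g ^ h * x) - G h =
        ee (m * D) * (F ⟨X, h * g.y + x.y, 0⟩ - F ⟨X, h * b₀ + x.y, 0⟩) +
        ee (m * D) * ee (-(m * X * ((w * q : ℤ) : ℝ))) * (F ⟨X, Y j, 0⟩ -
          ∑ k ∈ S (Y j), a (Y j) k * ee (((k + c (Y j) : ℤ) : ℝ) * X)) := by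
      rw [e1, e4, e3]
      ring
    rw [e7]
    refine (norm_add_le _ _).trans ?_
    rw [norm_mul, norm_mul, norm_mul, norm_ee, norm_ee, one_mul, one_mul, one_mul]
    linarith
  -- the sum of the main terms
  have hsum : ‖∑ h ∈ Icc 1 H, muC (n + h) * G h‖ ≤ κ * C₀ * WQ {A} H n := by
    have e1 : ∑ h ∈ Icc 1 H, muC (n + h) * G h = ∑ j ∈ range κ, ∑ k ∈ S (Y j), a (Y j) k *
        ∑ h ∈ Icc 1 H, muC (n + h) * ((if h % κ = j then (1 : ℂ) else 0) *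
          ee (A * (h : ℝ) ^ 2 + β j k * h + γ j k)) := by
      have e2 : ∀ j ∈ range κ, ∑ k ∈ S (Y j), a (Y j) k *
          ∑ h ∈ Icc 1 H, muC (n + h) * ((if h % κ = j then (1 : ℂ) else 0) *
            ee (A * (h : ℝ) ^ 2 + β j k * h + γ j k)) =
          ∑ h ∈ Icc 1 H, if h % κ = j then muC (n + h) * ∑ k ∈ S (Y j), a (Y j) k *
            ee (A * (h : ℝ) ^ 2 + β j k * h + γ j k) else 0 := by
        intro j _
        simp only [mul_sum]
        rw [sum_comm]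
        refine sum_congr rfl fun h _ => ?_
        split_ifs
        · refine sum_congr rfl fun k _ => ?_
          ring
        · simp
      rw [sum_congr rfl e2, sum_comm]
      refine sum_congr rfl fun h _ => ?_
      rw [sum_ite_eq, if_pos (mem_range.2 (Nat.mod_lt _ hκ))]
    rw [e1]
    refine (norm_sum_le _ _).trans ?_
    have i1 : ∀ j ∈ range κ, ‖∑ k ∈ S (Y j), a (Y j) k *
        ∑ h ∈ Icc 1 H, muC (n + h) * ((if h % κ = j then (1 : ℂ) else 0) *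
          ee (A * (h : ℝ) ^ 2 + β j k * h + γ j k))‖ ≤ C₀ * WQ {A} H n := by
      intro j hj
      refine (norm_sum_le _ _).trans ?_
      calc _ ≤ ∑ k ∈ S (Y j), ‖a (Y j) k‖ * WQ {A} H n := by
            refine sum_le_sum fun k _ => ?_
            rw [norm_mul]
            exact mul_le_mul_of_nonneg_left
              (class_sum κ hκ j (mem_range.1 hj) A (β j k) (γ j k) H n) (norm_nonneg _)
        _ = (∑ k ∈ S (Y j), ‖a (Y j) k‖) * WQ {A} H n := by rw [sum_mul]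
        _ ≤ C₀ * WQ {A} H n := mul_le_mul_of_nonneg_right (hSa _) (WQ_nonneg _ _ _)
    refine (sum_le_sum i1).trans ?_
    rw [sum_const, card_range, nsmul_eq_mul, mul_assoc]
  have e : ∑ h ∈ Icc 1 H, muC (n + h) * F (g ^ h * x) =
      ∑ h ∈ Icc 1 H, muC (n + h) * (F (g ^ h * x) - G h) +
        ∑ h ∈ Icc 1 H, muC (n + h) * G h := by
    rw [← sum_add_distrib]
    exact sum_congr rfl fun h _ => by ring
  rw [e]
  refine (norm_add_le _ _).trans (add_le_add ?_ hsum)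
  calc _ ≤ ∑ h ∈ Icc 1 H, ‖muC (n + h) * (F (g ^ h * x) - G h)‖ := norm_sum_le _ _
    _ ≤ ∑ _h ∈ Icc 1 H, ε := by
        refine sum_le_sum fun h hh => ?_
        rw [norm_mul]
        calc _ ≤ 1 * ‖F (g ^ h * x) - G h‖ :=
              mul_le_mul_of_nonneg_right (norm_muC _) (norm_nonneg _)
          _ ≤ ε := by rw [one_mul]; exact hmain h hh
    _ = ε * H := by simp [mul_comm]

end Pool.Agent.HB
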