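import Pool.Agent.Lib.HB.Basic

/-!
# Nilrotations of the Heisenberg group (MP_663568_nt): passing to the closure of `E`
-/

set_option autoImplicit false
open Finset MeasureTheory

namespace Pool.Agent.HB

open Pool.Agent.Lib.MP_663568_nt Pool.Agent.Lib.MP_663568_nt.Katai
  Pool.Agent.Lib.MP_663568_nt.Nul Pool.Agent.Lib.MP_663568_nt.Fib

lemma AE_closure_le {f : Heis → ℂ} (hf : Reg Gam f) (E : Set (ℝ × ℝ)) (x₀ : Heis) (N H : ℕ) :
    AE f (closure E) x₀ N H ≤ AE f E x₀ N H := by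
  obtain ⟨B, hB0, hB⟩ := reg_bound hf
  refine sum_le_sum fun n _ => mul_le_mul_of_nonneg_left ?_ (by positivity)
  refine Real.iSup_le (fun g => ?_) (Real.iSup_nonneg fun _ => norm_nonneg _)
  obtain ⟨⟨a, b, c⟩, hg⟩ := g
  have hc : Continuous fun v : ℝ × ℝ => (⟨v.1, v.2, c⟩ : Heis) :=
    Heis.continuous_mk continuous_fst continuous_snd continuous_const
  have hcont : Continuous fun v : ℝ × ℝ =>
      ‖∑ h ∈ Icc 1 H, f ((⟨v.1, v.2, c⟩ : Heis) ^ (h + n) * x₀) * muC (n + h)‖ := by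
    refine (continuous_finsetSum _ fun h _ => ?_).norm
    exact (hf.1.comp ((hc.pow (h + n)).mul continuous_const)).mul continuous_const
  have hbdd : BddAbove (Set.range fun g : {g : Heis // (g.x, g.y) ∈ E} =>
      ‖∑ h ∈ Icc 1 H, f ((g : Heis) ^ (h + n) * x₀) * muC (n + h)‖) := by
    refine ⟨H * B, ?_⟩
    rintro _ ⟨g, rfl⟩
    have h := norm_sum_mu_le (u := fun h => f ((g : Heis) ^ (h + n) * x₀)) (fun h => hB _) H n
    have e : ∑ h ∈ Icc 1 H, f ((g : Heis) ^ (h + n) * x₀) * muC (n + h) =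
        ∑ h ∈ Icc 1 H, muC (n + h) * f ((g : Heis) ^ (h + n) * x₀) :=
      sum_congr rfl fun h _ => mul_comm _ _
    beta_reduce
    rw [e]
    exact h
  have hsub : closure E ⊆ {v : ℝ × ℝ |
      ‖∑ h ∈ Icc 1 H, f ((⟨v.1, v.2, c⟩ : Heis) ^ (h + n) * x₀) * muC (n + h)‖ ≤
      ⨆ g : {g : Heis // (g.x, g.y) ∈ E},
        ‖∑ h ∈ Icc 1 H, f ((g : Heis) ^ (h + n) * x₀) * muC (n + h)‖} := by
    refine closure_minimal ?_ (isClosed_le hcont continuous_const)
    intro v hv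
    exact le_ciSup hbdd ⟨⟨v.1, v.2, c⟩, hv⟩
  exact hsub hg

lemma AH_closure_le {f : Heis → ℂ} (hf : Reg Gam f) (E : Set (ℝ × ℝ)) (N H : ℕ) :
    AH f (Over (closure E)) N H ≤ AH f (Over E) N H := by
  obtain ⟨B, hB0, hB⟩ := reg_bound hf
  refine sum_le_sum fun n _ => mul_le_mul_of_nonneg_left ?_ (by positivity)
  refine WH_le (WH_nonneg _ _ _ _) fun g hg x => ?_
  obtain ⟨a, b, c⟩ := g
  have hc : Continuous fun v : ℝ × ℝ => (⟨v.1, v.2, c⟩ : Heis) :=
    Heis.continuous_mk continuous_fst continuous_snd continuous_const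
  have hcont : Continuous fun v : ℝ × ℝ =>
      ‖∑ h ∈ Icc 1 H, muC (n + h) * f ((⟨v.1, v.2, c⟩ : Heis) ^ h * x)‖ := by
    refine (continuous_finsetSum _ fun h _ => ?_).norm
    exact continuous_const.mul (hf.1.comp ((hc.pow h).mul continuous_const))
  have hsub : closure E ⊆ {v : ℝ × ℝ |
      ‖∑ h ∈ Icc 1 H, muC (n + h) * f ((⟨v.1, v.2, c⟩ : Heis) ^ h * x)‖ ≤
        WH f (Over E) H n} := by
    refine closure_minimal ?_ (isClosed_le hcont continuous_const)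
    intro v hv
    exact le_WH hB (g := ⟨v.1, v.2, c⟩) hv x H n
  exact hsub hg

end Pool.Agent.HB
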