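import Pool.Agent.Lib.HB.Basic
import Pool.Agent.Lib.TUK.FinalE

/-!
# Row D: quadratic phases with top coefficient in a closed periodic set (helper1)
-/

set_option autoImplicit false
open Finset MeasureTheory

namespace Pool.Agent.HB

open Pool.Agent.Lib.MP_663568_nt Pool.Agent.Lib.MP_663568_nt.Katai
  Pool.Agent.Lib.MP_663568_nt.Nul Pool.Agent.Lib.MP_663568_nt.Fib

namespace Dx

open TUK TU

/-- the trivial group -/
abbrev G0 : Type := Unit

/-- the whole trivial group -/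
abbrev Γ0 : Subgroup G0 := ⊤

/-- the constant function -/
noncomputable abbrev f0 : G0 ⧸ Γ0 → ℂ := fun _ => 1

/-- the set of the coefficient vectors -/
def BT (T : Set ℝ) : Set (Fin 2 → ℝ) := {α | α 1 ∈ T}

lemma f0_le (x : G0 ⧸ Γ0) : ‖f0 x‖ ≤ 1 := by
  show ‖(1 : ℂ)‖ ≤ 1
  simp

lemma wd_bdd {t : ℕ} (B : Set (Fin t → ℝ)) (H n : ℕ) :
    BddAbove (Set.range fun i : {i : (G0 × G0) × (Fin t → ℝ) // i.2 ∈ B} =>
      wd Γ0 f0 H n i.1) := by
  refine ⟨H * 1, ?_⟩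
  rintro _ ⟨i, rfl⟩
  refine norm_sum_mu_le (u := fun h => f0 (QuotientGroup.mk (i.1.1.1 ^ h * i.1.1.2)) *
    ee (ph i.1.2 (h : ℝ))) (fun h => ?_) H n
  show ‖(1 : ℂ) * ee (ph i.1.2 (h : ℝ))‖ ≤ 1
  rw [one_mul, norm_ee]

lemma AQ_le (T : Set ℝ) (N H : ℕ) : AQ T N H ≤ AvgN Γ0 f0 (BT T) N H := by
  unfold AQ AvgN
  refine sum_le_sum fun n _ => mul_le_mul_of_nonneg_left ?_ (by positivity)
  refine WQ_le (Real.iSup_nonneg fun _ => norm_nonneg _) fun a ha β => ?_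
  have hmem : (![β, a] : Fin 2 → ℝ) ∈ BT T := ha
  refine le_trans (le_of_eq ?_) (le_ciSup (wd_bdd (BT T) H n) ⟨(((), ()), ![β, a]), hmem⟩)
  unfold wd
  congr 1
  refine sum_congr rfl fun h _ => ?_
  congr 1
  show ee (a * (h : ℝ) ^ 2 + β * (h : ℝ)) = 1 * ee (ph ![β, a] (h : ℝ))
  rw [one_mul]
  congr 1
  unfold TU.ph
  rw [Fin.sum_univ_two]
  simp
  ring

lemma Avg1_le (B : Set (Fin 1 → ℝ)) (N H : ℕ) : AvgN Γ0 f0 B N H ≤ AQ {0} N H := by
  unfold AQ AvgN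
  refine sum_le_sum fun n _ => mul_le_mul_of_nonneg_left ?_ (by positivity)
  refine Real.iSup_le (fun i => ?_) (WQ_nonneg _ _ _)
  refine le_trans (le_of_eq ?_) (le_WQ (Set.mem_singleton (0 : ℝ)) (i.1.2 0) H n)
  unfold wd
  congr 1
  refine sum_congr rfl fun h _ => ?_
  congr 1
  show 1 * ee (ph i.1.2 (h : ℝ)) = ee (0 * (h : ℝ) ^ 2 + i.1.2 0 * (h : ℝ))
  rw [one_mul]
  congr 1
  unfold TU.ph
  rw [Fin.sum_univ_one]
  simp

lemma Avg2_le (B : Set (Fin 2 → ℝ)) (A : Set ℝ) (hB : ∀ α ∈ B, α 1 ∈ A) (N H : ℕ) :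
    AvgN Γ0 f0 B N H ≤ AQ A N H := by
  unfold AQ AvgN
  refine sum_le_sum fun n _ => mul_le_mul_of_nonneg_left ?_ (by positivity)
  refine Real.iSup_le (fun i => ?_) (WQ_nonneg _ _ _)
  refine le_trans (le_of_eq ?_) (le_WQ (hB _ i.2) (i.1.2 0) H n)
  unfold wd
  congr 1
  refine sum_congr rfl fun h _ => ?_
  congr 1
  show 1 * ee (ph i.1.2 (h : ℝ)) = ee (i.1.2 1 * (h : ℝ) ^ 2 + i.1.2 0 * (h : ℝ))
  rw [one_mul]
  congr 1
  unfold TU.ph
  rw [Fin.sum_univ_two]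
  simp
  ring

end Dx

open Dx TUK TU in
/-- **Row D**, from the classification of the closed sets of polynomial phases. -/
theorem rowD_of (hEK : EK2_stmt) : D_stmt := by
  intro T hT hTp hU hM
  have hB : IsClosed (BT T) := hT.preimage (continuous_apply 1)
  have hinv : ∀ α ∈ BT T, ∀ β : Fin 2 → ℝ,
      (∀ i : Fin 2, 0 ≤ i.val → ∃ z : ℤ, β i = α i + (z : ℝ)) → β ∈ BT T := by
    intro α hα β hβ
    obtain ⟨z, hz⟩ := hβ 1 (Nat.zero_le _)
    show β 1 ∈ T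
    rw [hz]
    exact hTp _ hα z
  have hL : SmL Γ0 f0 (max 0 1) (BT T) := by
    rintro s hs1 hs2 ⟨r, hr⟩ ε hε
    have hs1' : 1 ≤ s := by simpa using hs1
    obtain rfl | rfl : s = 1 ∨ s = 2 := by omega
    · have hrT : ((r 1 : ℚ) : ℝ) ∈ T := by
        have hne : {y : Fin 1 → ℝ | glue 1 y (fun i => ((r i : ℚ) : ℝ)) ∈ BT T}.Nonempty := by
          by_contra hcon
          rw [Set.not_nonempty_iff_eq_empty] at hcon
          rw [hcon] at hr
          exact hr measure_empty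
        obtain ⟨y, hy⟩ := hne
        have h1 : glue 1 y (fun i => ((r i : ℚ) : ℝ)) 1 ∈ T := hy
        unfold glue at h1
        rwa [dif_neg (by simp)] at h1
      obtain ⟨H₀, h⟩ := hU ⟨_, hrT⟩ ε hε
      exact ⟨1, fun δ _ => ⟨H₀, fun H N hH hHN => (Avg1_le _ N H).trans (h H N hH hHN)⟩⟩
    · have hTv : volume T ≠ 0 := by
        intro h0
        apply hr
        have h1 : {y : Fin 2 → ℝ | glue 2 y (fun i => ((r i : ℚ) : ℝ)) ∈ BT T} =
            Function.eval (1 : Fin 2) ⁻¹' T := by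
          ext y
          show glue 2 y (fun i => ((r i : ℚ) : ℝ)) 1 ∈ T ↔ y 1 ∈ T
          unfold glue
          rw [dif_pos (by simp)]
        rw [h1]
        exact (Measure.quasiMeasurePreserving_eval (fun _ : Fin 2 => (volume : Measure ℝ))
          1).preimage_null h0
      obtain ⟨Q, hQ⟩ := hM hTv ε hε
      refine ⟨Q, fun δ hδ => ?_⟩
      obtain ⟨H₀, h⟩ := hQ δ hδ
      refine ⟨H₀, fun H N hH hHN => (Avg2_le _ (Mn Q δ) ?_ N H).trans (h H N hH hHN)⟩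
      intro α hα q hq hqQ b
      exact hα (by simp) 1 rfl q hq hqQ b
  have hG : (⊤ : Subgroup G0) = ⊥ := Subsingleton.elim _ _
  have key := SmN_of_SmL hEK 0 2 (by norm_num) (fun _ => (⊤ : Subgroup G0)) (fun _ _ _ => le_rfl)
    (fun _ _ => le_top) rfl hG Γ0 isClosed_univ
    (fun _ => ⟨Set.univ, isCompact_univ, fun _ _ => Subgroup.mem_top _,
      fun x _ => ⟨x, Set.mem_univ _, 1, Subgroup.mem_top _, (mul_one x).symm⟩⟩)
    f0 continuous_const f0_le (BT T) hB hinv hL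
  intro ε hε
  obtain ⟨ρ, hρ, H₀, h⟩ := key ε hε
  exact ⟨H₀, fun H N hH hHN => (AQ_le T N H).trans
    ((AvgN_mono Γ0 f0 f0_le (U2x.nb_self hρ.le) N H).trans (h H N hH hHN))⟩

end Pool.Agent.HB
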