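import Mathlib

/-!
# The Heisenberg group (MP_663568_nt)

`Heis` is `ℝ³` with `(x, y, z) (x', y', z') = (x + x', y + y', z + z' + x y')`, and `Gam` is the
subgroup of the integral points.
-/

set_option autoImplicit false
open Finset

namespace Pool.Agent.HB

/-- The Heisenberg group. -/
@[ext] structure Heis where
  x : ℝ
  y : ℝ
  z : ℝ

namespace Heis

instance : Mul Heis := ⟨fun g h => ⟨g.x + h.x, g.y + h.y, g.z + h.z + g.x * h.y⟩⟩
instance : One Heis := ⟨⟨0, 0, 0⟩⟩
instance : Inv Heis := ⟨fun g => ⟨-g.x, -g.y, -g.z + g.x * g.y⟩⟩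

@[simp] lemma mul_x (g h : Heis) : (g * h).x = g.x + h.x := rfl
@[simp] lemma mul_y (g h : Heis) : (g * h).y = g.y + h.y := rfl
@[simp] lemma mul_z (g h : Heis) : (g * h).z = g.z + h.z + g.x * h.y := rfl
@[simp] lemma one_x : (1 : Heis).x = 0 := rfl
@[simp] lemma one_y : (1 : Heis).y = 0 := rfl
@[simp] lemma one_z : (1 : Heis).z = 0 := rfl
@[simp] lemma inv_x (g : Heis) : g⁻¹.x = -g.x := rfl
@[simp] lemma inv_y (g : Heis) : g⁻¹.y = -g.y := rfl
@[simp] lemma inv_z (g : Heis) : g⁻¹.z = -g.z + g.x * g.y := rfl

instance : Group Heis :=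
  Group.ofLeftAxioms (fun a b c => by ext <;> simp <;> ring) (fun a => by ext <;> simp)
    (fun a => by ext <;> simp)

/-- The usual topology. -/
instance : TopologicalSpace Heis :=
  TopologicalSpace.induced (fun g : Heis => (g.x, g.y, g.z)) inferInstance

lemma continuous_x : Continuous Heis.x :=
  (continuous_fst.comp continuous_induced_dom : Continuous fun g : Heis => (g.x, g.y, g.z).1)

lemma continuous_y : Continuous Heis.y :=
  ((continuous_fst.comp continuous_snd).comp continuous_induced_dom :
    Continuous fun g : Heis => (g.x, g.y, g.z).2.1)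

lemma continuous_z : Continuous Heis.z :=
  ((continuous_snd.comp continuous_snd).comp continuous_induced_dom :
    Continuous fun g : Heis => (g.x, g.y, g.z).2.2)

lemma continuous_mk {α : Type*} [TopologicalSpace α] {f g h : α → ℝ} (hf : Continuous f)
    (hg : Continuous g) (hh : Continuous h) : Continuous fun a => (⟨f a, g a, h a⟩ : Heis) :=
  continuous_induced_rng.2 (hf.prodMk (hg.prodMk hh))

instance : IsTopologicalGroup Heis where
  continuous_mul := by
    have h1 : Continuous fun p : Heis × Heis => p.1.x := continuous_x.comp continuous_fst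
    have h2 : Continuous fun p : Heis × Heis => p.1.y := continuous_y.comp continuous_fst
    have h3 : Continuous fun p : Heis × Heis => p.1.z := continuous_z.comp continuous_fst
    have h4 : Continuous fun p : Heis × Heis => p.2.x := continuous_x.comp continuous_snd
    have h5 : Continuous fun p : Heis × Heis => p.2.y := continuous_y.comp continuous_snd
    have h6 : Continuous fun p : Heis × Heis => p.2.z := continuous_z.comp continuous_snd
    exact continuous_mk (h1.add h4) (h2.add h5) ((h3.add h6).add (h1.mul h5))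
  continuous_inv := continuous_mk continuous_x.neg continuous_y.neg
    (continuous_z.neg.add (continuous_x.mul continuous_y))

lemma pow_x (g : Heis) (n : ℕ) : (g ^ n).x = n * g.x := by
  induction n with
  | zero => simp
  | succ n ih => rw [pow_succ, mul_x, ih]; push_cast; ring

lemma pow_y (g : Heis) (n : ℕ) : (g ^ n).y = n * g.y := by
  induction n with
  | zero => simp
  | succ n ih => rw [pow_succ, mul_y, ih]; push_cast; ring

lemma pow_z (g : Heis) (n : ℕ) :
    (g ^ n).z = n * g.z + g.x * g.y * ((n : ℝ) * ((n : ℝ) - 1) / 2) := by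
  induction n with
  | zero => simp
  | succ n ih => rw [pow_succ, mul_z, ih, pow_x]; push_cast; ring

end Heis

/-- The integral points of the Heisenberg group. -/
def Gam : Subgroup Heis where
  carrier := {g | ∃ a b c : ℤ, g = ⟨a, b, c⟩}
  one_mem' := ⟨0, 0, 0, by ext <;> simp⟩
  mul_mem' := by
    rintro _ _ ⟨a, b, c, rfl⟩ ⟨a', b', c', rfl⟩
    exact ⟨a + a', b + b', c + c' + a * b', by ext <;> simp⟩
  inv_mem' := by
    rintro _ ⟨a, b, c, rfl⟩
    exact ⟨-a, -b, -c + a * b, by ext <;> simp⟩

lemma mem_Gam (g : Heis) : g ∈ Gam ↔ ∃ a b c : ℤ, g = ⟨a, b, c⟩ := Iff.rfl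

end Pool.Agent.HB
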