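import Mathlib
import Pool.Agent.Lib.HB.Heis
import Pool.Agent.Lib.TU.Defs
import Pool.Agent.Lib.MP_663568_nt_h86.FDefs

/-!
# Nilrotations of the Heisenberg group with bounded horizontal part (MP_663568_nt): definitions and
row statements

For a compact set `E ⊆ ℝ²` the average of Q1 for the Heisenberg group and the `g` with
`(g.x, g.y) ∈ E` (central part arbitrary) is small if and only if (`E` meets no rational line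
through `0`, or linear phases are small) and (`E` is null on all the other rational lines, or
quadratic phases with minor arc top coefficient are small).
-/

set_option autoImplicit false
open Finset MeasureTheory

namespace Pool.Agent.HB

open Pool.Agent.Lib.MP_663568_nt Pool.Agent.Lib.MP_663568_nt.Katai
  Pool.Agent.Lib.MP_663568_nt.Nul Pool.Agent.Lib.MP_663568_nt.Fib

/-- The functions on `G ⧸ Γ` (as functions on `G`) of vertical frequency `m`. -/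
def Ver (m : ℤ) (F : Heis → ℂ) : Prop :=
  Reg Gam F ∧ ∀ (g : Heis) (t : ℝ), F (g * ⟨0, 0, t⟩) = ee (m * t) * F g

/-- Zero mean on the fibres. -/
def ZM (f : Heis → ℂ) : Prop := ∀ g : Heis, ∫ t in (0 : ℝ)..1, f (g * ⟨0, 0, t⟩) = 0

/-- One window: the supremum over `g ∈ S` and all `x`. -/
noncomputable def WH (F : Heis → ℂ) (S : Set Heis) (H n : ℕ) : ℝ :=
  ⨆ v : {v : Heis × Heis // v.1 ∈ S}, ‖∑ h ∈ Icc 1 H, muC (n + h) * F (v.1.1 ^ h * v.1.2)‖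

/-- The average over the windows. -/
noncomputable def AH (F : Heis → ℂ) (S : Set Heis) (N H : ℕ) : ℝ :=
  ∑ n ∈ Icc 1 N, (1 / (n : ℝ)) * WH F S H n

/-- One window: the supremum over the phases `a h² + β h`, `a ∈ A`, `β` real. -/
noncomputable def WQ (A : Set ℝ) (H n : ℕ) : ℝ :=
  ⨆ v : {v : ℝ × ℝ // v.1 ∈ A},
    ‖∑ h ∈ Icc 1 H, muC (n + h) * ee (v.1.1 * (h : ℝ) ^ 2 + v.1.2 * (h : ℝ))‖

/-- The average over the windows. -/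
noncomputable def AQ (A : Set ℝ) (N H : ℕ) : ℝ :=
  ∑ n ∈ Icc 1 N, (1 / (n : ℝ)) * WQ A H n

/-- The average of Q1 for `g` over `E`, with base point `x₀`. -/
noncomputable def AE (f : Heis → ℂ) (E : Set (ℝ × ℝ)) (x₀ : Heis) (N H : ℕ) : ℝ :=
  ∑ n ∈ Icc 1 N, (1 / (n : ℝ)) * ⨆ g : {g : Heis // (g.x, g.y) ∈ E},
    ‖∑ h ∈ Icc 1 H, f ((g : Heis) ^ (h + n) * x₀) * muC (n + h)‖

/-- The elements over `E`. -/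
def Over (E : Set (ℝ × ℝ)) : Set Heis := {g | (g.x, g.y) ∈ E}

/-- `S N H = o (H log N)` as `H → ∞`, uniformly in `N ≥ H`. -/
def Sm (S : ℕ → ℕ → ℝ) : Prop :=
  ∀ ε : ℝ, 0 < ε → ∃ H₀ : ℕ, ∀ H N : ℕ, H₀ ≤ H → H ≤ N → S N H ≤ ε * H * Real.log N

/-- The numbers outside of the major arcs. -/
def Mn (Q : ℕ) (δ : ℝ) : Set ℝ :=
  {x | ∀ q : ℕ, 1 ≤ q → q ≤ Q → ∀ b : ℤ, δ ≤ |(q : ℝ) * x - b|}

/-- Linear phases. -/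
def U1 : Prop := Sm (AQ {0})

/-- Quadratic phases with minor arc top coefficient. -/
def M2 : Prop := ∀ ε : ℝ, 0 < ε → ∃ Q : ℕ, ∀ δ : ℝ, 0 < δ → ∃ H₀ : ℕ, ∀ H N : ℕ,
  H₀ ≤ H → H ≤ N → AQ (Mn Q δ) N H ≤ ε * H * Real.log N

/-- `E` meets no rational line through `0`. -/
def LinFree (E : Set (ℝ × ℝ)) : Prop :=
  ∀ a b : ℚ, (a ≠ 0 ∨ b ≠ 0) → ∀ t : ℝ, (t * (a : ℝ), t * (b : ℝ)) ∉ E

/-- `E` is a null set on all the rational lines which do not contain `0`. -/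
def QuadNull (E : Set (ℝ × ℝ)) : Prop :=
  ∀ p q a b : ℚ, p * b - q * a ≠ 0 →
    volume {t : ℝ | ((p : ℝ) + t * (a : ℝ), (q : ℝ) + t * (b : ℝ)) ∈ E} = 0

/-- The condition of the theorem. -/
def Cond (E : Set (ℝ × ℝ)) : Prop := (LinFree E ∨ U1) ∧ (QuadNull E ∨ M2)

/-- no relation of height at most `K` with error less than `d` -/
def FarG (K d : ℝ) (g : Heis) : Prop :=
  ∀ a b z : ℤ, (a ≠ 0 ∨ b ≠ 0) → |(a : ℝ)| ≤ K → |(b : ℝ)| ≤ K → d ≤ |a * g.x + b * g.y - z|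

/-! ### The rows -/

/-- Row A: outside of the major arcs (`char_R` of `MP_663568_q.R07`). -/
def A_stmt : Prop := ∀ (m : ℤ) (F : Heis → ℂ), m ≠ 0 → Ver m F → ∀ ε : ℝ, 0 < ε →
  ∃ C : ℕ, 1 ≤ C ∧ ∀ R d δ : ℝ, 1 ≤ R → 0 < δ → δ ≤ d → d ≤ 1 → ∀ H N : ℕ,
    (C : ℝ) * (R / δ) ^ C ≤ H → H ≤ N →
    AH F {g | |g.x| ≤ R ∧ |g.y| ≤ R ∧ FarG C d g ∧ FarG (C * (R / d) ^ C) δ g} N H ≤
      ε * H * Real.log N

/-- Row B: the vertical Fourier series. -/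
def B_stmt : Prop := ∀ f : Heis → ℂ, Reg Gam f → ZM f → ∀ ε : ℝ, 0 < ε →
  ∃ (S : Finset ℤ) (F : ℤ → Heis → ℂ), (0 : ℤ) ∉ S ∧ (∀ m ∈ S, Ver m (F m)) ∧
    ∀ g, ‖f g - ∑ m ∈ S, F m g‖ ≤ ε

/-- Row C: near a line `y = w / κ` the sums are bounded by quadratic phases. -/
def C_stmt : Prop := ∀ (m : ℤ) (F : Heis → ℂ), Ver m F → ∀ (κ : ℕ) (w : ℤ), 1 ≤ κ →
  ∀ ε : ℝ, 0 < ε → ∃ ρ : ℝ, 0 < ρ ∧ ∃ C : ℝ, 0 < C ∧ ∀ (g x : Heis) (n H : ℕ),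
    (H : ℝ) * |g.y - (w : ℝ) / κ| ≤ ρ →
    ‖∑ h ∈ Icc 1 H, muC (n + h) * F (g ^ h * x)‖ ≤
      ε * H + C * WQ {(m : ℝ) * g.x * (g.y / 2 - (w : ℝ) / κ)} H n

/-- Row D: quadratic phases with top coefficient in a closed periodic set `T`. -/
def D_stmt : Prop := ∀ T : Set ℝ, IsClosed T → (∀ y ∈ T, ∀ z : ℤ, y + (z : ℝ) ∈ T) →
  ((∃ r : ℚ, (r : ℝ) ∈ T) → U1) → (volume T ≠ 0 → M2) → Sm (AQ T)

/-- Row D': short windows do not see a small neighbourhood. -/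
def D'_stmt : Prop := ∀ (l : ℕ) (ε : ℝ), 0 < ε → ∃ ρ : ℝ, 0 < ρ ∧ ∀ (T : Set ℝ) (N : ℕ),
  AQ {x | ∃ c ∈ T, |x - c| ≤ ρ} N l ≤ AQ T N l + ε * (1 + Real.log N)

/-- Row E: the automorphisms. -/
def E_stmt : Prop := ∀ p q r s : ℤ, p * s - q * r = 1 → ∃ σ : Heis ≃* Heis, Continuous σ ∧
  Continuous σ.symm ∧ (∀ g, (σ g).x = p * g.x + q * g.y) ∧ (∀ g, (σ g).y = r * g.x + s * g.y) ∧
  (∀ (g : Heis) (t : ℝ), σ (g * ⟨0, 0, t⟩) = σ g * ⟨0, 0, t⟩) ∧ (∀ g, g ∈ Gam ↔ σ g ∈ Gam)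

/-- Row F0: the functions `F (u y) conj (F y)` of `y` on the horizontal torus. -/
def F0_stmt : Prop := ∀ (m : ℤ) (F : Heis → ℂ), Ver m F → ∀ η : ℝ, 0 < η →
  ∃ (M : ℕ) (C : ℝ), 0 < C ∧ ∀ u : Heis, ∃ c : ℤ → ℤ → ℂ, (∀ i j, ‖c i j‖ ≤ C) ∧ ∀ y : Heis,
    ‖F (u * y) * (starRingEnd ℂ) (F y) -
      ∑ i ∈ Icc (-(M : ℤ)) M, ∑ j ∈ Icc (-(M : ℤ)) M,
        c i j * ee (((i - m * ⌊u.y⌋ : ℤ) : ℝ) * y.x + ((j + m * ⌊u.x⌋ : ℤ) : ℝ) * y.y)‖ ≤ η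

/-- Row F1: the correlations of the dilates. -/
def F1_stmt : Prop := ∀ (m : ℤ) (F : Heis → ℂ), m ≠ 0 → Ver m F → ∀ R : ℝ, 1 ≤ R →
  ∀ p q : ℕ, 1 ≤ p → 1 ≤ q → p ≠ q → ∀ η : ℝ, 0 < η → ∃ (C L₀ : ℕ), 1 ≤ C ∧ ∀ L : ℕ, L₀ ≤ L →
  ∀ g x y : Heis, |g.x| ≤ R → |g.y| ≤ R →
    η * L ≤ ‖∑ l ∈ Icc 1 L, F (g ^ (p * l) * x) * (starRingEnd ℂ) (F (g ^ (q * l) * y))‖ →
    ∃ a b z : ℤ, (a ≠ 0 ∨ b ≠ 0) ∧ |a| ≤ (C : ℤ) ∧ |b| ≤ (C : ℤ) ∧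
      |a * g.x + b * g.y - z| ≤ (C : ℝ) / L

/-- Row F: one long sum. -/
def F_stmt : Prop := ∀ (m : ℤ) (F : Heis → ℂ), m ≠ 0 → Ver m F → ∀ R : ℝ, 1 ≤ R →
  ∀ ε : ℝ, 0 < ε → ∃ (C X₀ : ℕ), 1 ≤ C ∧ ∀ X : ℕ, X₀ ≤ X →
  ∀ g x : Heis, |g.x| ≤ R → |g.y| ≤ R →
    ε * X < ‖∑ n ∈ Icc 1 X, muC n * F (g ^ n * x)‖ →
    ∃ a b z : ℤ, (a ≠ 0 ∨ b ≠ 0) ∧ |a| ≤ (C : ℤ) ∧ |b| ≤ (C : ℤ) ∧
      |a * g.x + b * g.y - z| ≤ (C : ℝ) / X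

/-- Row G: one long sum is small. -/
def G_stmt : Prop := ∀ (m : ℤ) (F : Heis → ℂ), m ≠ 0 → Ver m F → ∀ R : ℝ, 1 ≤ R →
  ∀ ε : ℝ, 0 < ε → ∃ X₀ : ℕ, ∀ X : ℕ, X₀ ≤ X → ∀ g x : Heis, |g.x| ≤ R → |g.y| ≤ R →
    ‖∑ n ∈ Icc 1 X, muC n * F (g ^ n * x)‖ ≤ ε * X

/-- Row H: from windows of length `l` to long windows. -/
def H_stmt : Prop := ∀ (m : ℤ) (F : Heis → ℂ), m ≠ 0 → Ver m F → ∀ R : ℝ, 1 ≤ R →
  ∀ ε : ℝ, 0 < ε → ∀ l : ℕ, 1 ≤ l → ∃ H₀ : ℕ, ∀ S : Set Heis,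
    (∀ g ∈ S, |g.x| ≤ R ∧ |g.y| ≤ R) → ∀ κ : ℝ, 0 ≤ κ →
    (∀ M : ℕ, l ≤ M → AH F S M l ≤ κ * l * Real.log M) →
    ∀ H N : ℕ, H₀ ≤ H → H ≤ N → AH F S N H ≤ (8 * κ + ε) * H * Real.log N

/-- Row I: near a rational line. -/
def I_stmt : Prop := ∀ (m : ℤ) (F : Heis → ℂ), m ≠ 0 → Ver m F → ∀ E : Set (ℝ × ℝ),
  IsCompact E → Cond E → ∀ a b z : ℤ, (a ≠ 0 ∨ b ≠ 0) → ∀ ε : ℝ, 0 < ε → ∃ d : ℝ, 0 < d ∧ d ≤ 1 ∧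
  ∃ H₀ : ℕ, ∀ H N : ℕ, H₀ ≤ H → H ≤ N →
    AH F {g | (g.x, g.y) ∈ E ∧ |a * g.x + b * g.y - z| ≤ d} N H ≤ ε * H * Real.log N

/-- Row J: one vertical frequency. -/
def J_stmt : Prop := ∀ (m : ℤ) (F : Heis → ℂ), m ≠ 0 → Ver m F → ∀ E : Set (ℝ × ℝ),
  IsCompact E → Cond E → Sm (AH F (Over E))

/-- Row K: all functions of zero mean on the fibres. -/
def K_stmt : Prop := ∀ f : Heis → ℂ, Reg Gam f → ZM f → ∀ E : Set (ℝ × ℝ),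
  IsCompact E → Cond E → Sm (AH f (Over E))

/-- Row T: functions of frequency one which detect a line. -/
def T_stmt : Prop := ∀ κ : ℕ, 1 ≤ κ → ∃ f : Heis → ℂ, Ver 1 f ∧ (∀ g, ‖f g‖ ≤ 1) ∧
  (∀ (x z : ℝ) (q : ℤ), f ⟨x, q, z⟩ = ee (z - q * x)) ∧
  ∀ (x z : ℝ) (w : ℤ), ¬ (κ : ℤ) ∣ w → f ⟨x, (w : ℝ) / κ, z⟩ = 0

/-- The estimate of Q1 over `E`, for all functions of zero mean on the fibres and base points. -/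
def Q1E (E : Set (ℝ × ℝ)) : Prop :=
  ∀ f : Heis → ℂ, Reg Gam f → ZM f → ∀ x₀ : Heis, Sm (AE f E x₀)

/-- Row N: the estimate passes to the image of `E` under `SL₂(ℤ)`. -/
def N_stmt : Prop := ∀ E : Set (ℝ × ℝ), Q1E E → ∀ p q r s : ℤ, p * s - q * r = 1 →
  Q1E {v | ∃ u ∈ E, v = (p * u.1 + q * u.2, r * u.1 + s * u.2)}

/-- Row L: the converse for the lines through `0`. -/
def L_stmt : Prop := ∀ E : Set (ℝ × ℝ), Q1E E → ¬ LinFree E → U1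

/-- Row M: the converse for the other lines. -/
def M_stmt : Prop := ∀ E : Set (ℝ × ℝ), IsCompact E → Q1E E → ¬ QuadNull E → M2

/-- Row Q: the estimate of Q1 follows from the estimate with free base point. -/
def Q_stmt : Prop := ∀ (f : Heis → ℂ) (E : Set (ℝ × ℝ)), Reg Gam f → ∀ (x₀ : Heis) (N H : ℕ),
  AE f E x₀ N H ≤ AH f (Over E) N H

end Pool.Agent.HB
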