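import Pool.Agent.Lib.HB.Defs
import Pool.Agent.Lib.MP_663568_nt.Log

/-!
# Row D': short windows do not see a small neighbourhood
-/

set_option autoImplicit false
open Finset MeasureTheory

namespace Pool.Agent.HB

open Pool.Agent.Lib.MP_663568_nt Pool.Agent.Lib.MP_663568_nt.Katai
  Pool.Agent.Lib.MP_663568_nt.Nul Pool.Agent.Lib.MP_663568_nt.Fib

theorem rowDp : D'_stmt := by
  intro l ε hε
  have hD : (0 : ℝ) < 2 * Real.pi * (l : ℝ) ^ 2 * l + 1 := by positivity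
  refine ⟨ε / (2 * Real.pi * (l : ℝ) ^ 2 * l + 1), by positivity, ?_⟩
  set ρ : ℝ := ε / (2 * Real.pi * (l : ℝ) ^ 2 * l + 1) with hρd
  have hρ : 0 < ρ := by positivity
  intro T N
  have hterm : ∀ n : ℕ, ∀ a c β : ℝ, |a - c| ≤ ρ →
      ‖∑ h ∈ Icc 1 l, muC (n + h) * ee (a * (h : ℝ) ^ 2 + β * (h : ℝ))‖ ≤
        ‖∑ h ∈ Icc 1 l, muC (n + h) * ee (c * (h : ℝ) ^ 2 + β * (h : ℝ))‖ + ε := by
    intro n a c β hac
    have h1 : ‖∑ h ∈ Icc 1 l, muC (n + h) * ee (a * (h : ℝ) ^ 2 + β * (h : ℝ)) -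
        ∑ h ∈ Icc 1 l, muC (n + h) * ee (c * (h : ℝ) ^ 2 + β * (h : ℝ))‖ ≤ ε := by
      rw [← sum_sub_distrib]
      refine (norm_sum_le _ _).trans ?_
      have h2 : ∀ h ∈ Icc 1 l, ‖muC (n + h) * ee (a * (h : ℝ) ^ 2 + β * (h : ℝ)) -
          muC (n + h) * ee (c * (h : ℝ) ^ 2 + β * (h : ℝ))‖ ≤
            2 * Real.pi * (ρ * (l : ℝ) ^ 2) := by
        intro h hh
        rw [mem_Icc] at hh
        have hhl : (h : ℝ) ≤ l := by exact_mod_cast hh.2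
        rw [← mul_sub, norm_mul]
        have h5 : ‖ee (a * (h : ℝ) ^ 2 + β * (h : ℝ)) - ee (c * (h : ℝ) ^ 2 + β * (h : ℝ))‖ ≤
            2 * Real.pi * (ρ * (l : ℝ) ^ 2) := by
          refine (Katai.norm_ee_sub_ee_le _ _).trans ?_
          have e : a * (h : ℝ) ^ 2 + β * (h : ℝ) - (c * (h : ℝ) ^ 2 + β * (h : ℝ)) =
              (a - c) * (h : ℝ) ^ 2 := by ring
          rw [e, abs_mul, abs_of_nonneg (by positivity : (0 : ℝ) ≤ (h : ℝ) ^ 2)]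
          gcongr
        calc ‖muC (n + h)‖ *
            ‖ee (a * (h : ℝ) ^ 2 + β * (h : ℝ)) - ee (c * (h : ℝ) ^ 2 + β * (h : ℝ))‖
            ≤ 1 * (2 * Real.pi * (ρ * (l : ℝ) ^ 2)) :=
              mul_le_mul (norm_muC _) h5 (norm_nonneg _) zero_le_one
          _ = _ := one_mul _
      refine (sum_le_sum h2).trans ?_
      rw [sum_const, Nat.card_Icc, Nat.add_sub_cancel, nsmul_eq_mul]
      have h6 : (l : ℝ) * (2 * Real.pi * (ρ * (l : ℝ) ^ 2)) =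
          (2 * Real.pi * (l : ℝ) ^ 2 * l) * ρ := by ring
      rw [h6, hρd, mul_div_assoc', div_le_iff₀ hD]
      nlinarith [hε.le]
    have h7 := norm_sub_norm_le (∑ h ∈ Icc 1 l, muC (n + h) * ee (a * (h : ℝ) ^ 2 + β * (h : ℝ)))
      (∑ h ∈ Icc 1 l, muC (n + h) * ee (c * (h : ℝ) ^ 2 + β * (h : ℝ)))
    linarith
  have hbd : ∀ n : ℕ, BddAbove (Set.range fun v : {v : ℝ × ℝ // v.1 ∈ T} =>
      ‖∑ h ∈ Icc 1 l, muC (n + h) * ee (v.1.1 * (h : ℝ) ^ 2 + v.1.2 * (h : ℝ))‖) := by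
    intro n
    refine ⟨l, ?_⟩
    rintro _ ⟨v, rfl⟩
    refine (norm_sum_le _ _).trans ?_
    refine (sum_le_sum (g := fun _ => (1 : ℝ)) fun h _ => ?_).trans (by simp)
    rw [norm_mul, norm_ee, mul_one]
    exact norm_muC _
  have hsup : ∀ n : ℕ, WQ {x | ∃ c ∈ T, |x - c| ≤ ρ} l n ≤ WQ T l n + ε := by
    intro n
    have h0 : 0 ≤ WQ T l n := Real.iSup_nonneg fun _ => norm_nonneg _
    unfold WQ at h0 ⊢
    refine Real.iSup_le ?_ (by linarith)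
    rintro ⟨⟨a, β⟩, c, hc, hac⟩
    have h1 := hterm n a c β hac
    have h2 := le_ciSup (hbd n) ⟨(c, β), hc⟩
    simp only at h2 ⊢
    linarith
  unfold AQ
  calc ∑ n ∈ Icc 1 N, (1 / (n : ℝ)) * WQ {x | ∃ c ∈ T, |x - c| ≤ ρ} l n
      ≤ ∑ n ∈ Icc 1 N, (1 / (n : ℝ)) * (WQ T l n + ε) :=
        sum_le_sum fun n _ => mul_le_mul_of_nonneg_left (hsup n) (by positivity)
    _ = ∑ n ∈ Icc 1 N, (1 / (n : ℝ)) * WQ T l n + (∑ n ∈ Icc 1 N, (1 / (n : ℝ))) * ε := by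
        rw [sum_mul, ← sum_add_distrib]
        exact sum_congr rfl fun n _ => by ring
    _ ≤ _ := by
        have := sum_inv_le_log N
        nlinarith [hε.le]

end Pool.Agent.HB
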