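import Pool.Agent.Lib.HB.Basic

/-!
# Row E: the automorphisms of the Heisenberg group given by `SL₂(ℤ)`
-/

set_option autoImplicit false
open Finset MeasureTheory

namespace Pool.Agent.HB

namespace Aut

/-- The correction term. -/
noncomputable def Qf (p q r s : ℤ) (x y : ℝ) : ℝ :=
  (p * r : ℤ) / 2 * (x ^ 2 + x) + (q * r : ℤ) * x * y + (q * s : ℤ) / 2 * (y ^ 2 + y)

lemma Qf_int (p q r s a b : ℤ) : ∃ c : ℤ, Qf p q r s a b = c := by
  obtain ⟨u, hu⟩ : ∃ u : ℤ, a ^ 2 + a = 2 * u := by
    obtain ⟨u, hu⟩ := (Int.even_mul_succ_self a).two_dvd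
    exact ⟨u, by rw [← hu]; ring⟩
  obtain ⟨v, hv⟩ : ∃ v : ℤ, b ^ 2 + b = 2 * v := by
    obtain ⟨v, hv⟩ := (Int.even_mul_succ_self b).two_dvd
    exact ⟨v, by rw [← hv]; ring⟩
  refine ⟨p * r * u + q * r * a * b + q * s * v, ?_⟩
  have hu' : (a : ℝ) ^ 2 + a = 2 * u := by exact_mod_cast hu
  have hv' : (b : ℝ) ^ 2 + b = 2 * v := by exact_mod_cast hv
  unfold Qf
  rw [hu', hv']
  push_cast
  ring

/-- The automorphism. -/
noncomputable def toFun (p q r s : ℤ) (g : Heis) : Heis :=
  ⟨p * g.x + q * g.y, r * g.x + s * g.y, g.z + Qf p q r s g.x g.y⟩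

noncomputable def invFun (p q r s : ℤ) (g : Heis) : Heis :=
  ⟨s * g.x - q * g.y, -r * g.x + p * g.y, g.z - Qf p q r s (s * g.x - q * g.y) (-r * g.x + p * g.y)⟩

end Aut

open Aut in
theorem rowE : E_stmt := by
  intro p q r s hdet
  have hd : (p : ℝ) * s - q * r = 1 := by exact_mod_cast hdet
  refine ⟨{ toFun := toFun p q r s
            invFun := invFun p q r s
            left_inv := ?_
            right_inv := ?_
            map_mul' := ?_ }, ?_, ?_, fun _ => rfl, fun _ => rfl, ?_, ?_⟩
  · intro g
    have h1 : s * (p * g.x + q * g.y) - q * (r * g.x + s * g.y) = g.x := by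
      linear_combination g.x * hd
    have h2 : -(r : ℝ) * (p * g.x + q * g.y) + p * (r * g.x + s * g.y) = g.y := by
      linear_combination g.y * hd
    ext
    · exact h1
    · exact h2
    · simp only [invFun, toFun]
      rw [h1, h2]
      ring
  · intro g
    ext
    · simp only [invFun, toFun]
      linear_combination g.x * hd
    · simp only [invFun, toFun]
      linear_combination g.y * hd
    · simp only [invFun, toFun]
      ring
  · intro g h
    ext
    · simp only [toFun, Heis.mul_x, Heis.mul_y]; ring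
    · simp only [toFun, Heis.mul_x, Heis.mul_y]; ring
    · simp only [toFun, Heis.mul_x, Heis.mul_y, Heis.mul_z, Qf]
      push_cast
      linear_combination (-g.x * h.y) * hd
  · have h1 := Heis.continuous_x
    have h2 := Heis.continuous_y
    have h3 := Heis.continuous_z
    refine Heis.continuous_mk (by fun_prop) (by fun_prop) ?_
    unfold Qf
    fun_prop
  · have h1 := Heis.continuous_x
    have h2 := Heis.continuous_y
    have h3 := Heis.continuous_z
    refine Heis.continuous_mk (by fun_prop) (by fun_prop) ?_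
    unfold Qf
    fun_prop
  · intro g t
    change toFun p q r s (g * ⟨0, 0, t⟩) = toFun p q r s g * ⟨0, 0, t⟩
    ext <;> simp [toFun] <;> ring
  · intro g
    change g ∈ Gam ↔ toFun p q r s g ∈ Gam
    constructor
    · rintro ⟨a, b, c, rfl⟩
      obtain ⟨e, he⟩ := Qf_int p q r s a b
      refine ⟨p * a + q * b, r * a + s * b, c + e, ?_⟩
      ext
      · simp [toFun]
      · simp [toFun]
      · simp only [toFun]; rw [he]; push_cast; ring
    · rintro ⟨a, b, c, h⟩
      have hx : p * g.x + q * g.y = a := congrArg Heis.x h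
      have hy : r * g.x + s * g.y = b := congrArg Heis.y h
      have hz : g.z + Qf p q r s g.x g.y = c := congrArg Heis.z h
      have h1 : g.x = ((s * a - q * b : ℤ) : ℝ) := by
        push_cast
        rw [← hx, ← hy]
        linear_combination (-g.x) * hd
      have h2 : g.y = ((-r * a + p * b : ℤ) : ℝ) := by
        push_cast
        rw [← hx, ← hy]
        linear_combination (-g.y) * hd
      obtain ⟨e, he⟩ := Qf_int p q r s (s * a - q * b) (-r * a + p * b)
      refine ⟨s * a - q * b, -r * a + p * b, c - e, ?_⟩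
      ext
      · exact h1
      · exact h2
      · have h3 : g.z = c - e := by
          rw [← hz, ← he, ← h1, ← h2]; ring
        rw [h3]; push_cast; ring

end Pool.Agent.HB
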