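import Pool.Agent.Lib.HB.Basic
import Pool.Agent.Lib.TU.HKat

/-!
# Row F (MP_663568_nt): one long sum.  helper27
-/

set_option autoImplicit false
open Finset MeasureTheory

namespace Pool.Agent.HB

open Pool.Agent.Lib.MP_663568_nt Pool.Agent.Lib.MP_663568_nt.Katai
  Pool.Agent.Lib.MP_663568_nt.Nul Pool.Agent.Lib.MP_663568_nt.Fib

theorem rowF (h1 : F1_stmt) : F_stmt := by
  classical
  intro m F hm hV R hR ε hε
  obtain ⟨B, hB0, hB⟩ := reg_bound hV.1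
  obtain ⟨P, hP, η, hη, hη2, X₁, hX₁, hK⟩ := Pool.Agent.TU.Hx.katai (ε / B) (by positivity)
  have hpair : ∀ v : ℕ × ℕ, v ∈ (P ×ˢ P).filter (fun v => v.1 ≠ v.2) → ∃ (C L₀ : ℕ), 1 ≤ C ∧
      ∀ L : ℕ, L₀ ≤ L → ∀ g x y : Heis, |g.x| ≤ R → |g.y| ≤ R →
      η * B ^ 2 * L ≤
        ‖∑ l ∈ Icc 1 L, F (g ^ (v.1 * l) * x) * (starRingEnd ℂ) (F (g ^ (v.2 * l) * y))‖ →
      ∃ a b z : ℤ, (a ≠ 0 ∨ b ≠ 0) ∧ |a| ≤ (C : ℤ) ∧ |b| ≤ (C : ℤ) ∧
        |a * g.x + b * g.y - z| ≤ (C : ℝ) / L := by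
    intro v hv
    rw [mem_filter, mem_product] at hv
    exact h1 m F hm hV R hR v.1 v.2 (hP v.1 hv.1.1).one_le (hP v.2 hv.1.2).one_le hv.2 (η * B ^ 2)
      (by positivity)
  choose! C L₀ hC1 hC using hpair
  obtain ⟨C', hC'⟩ : ∃ C' : ℕ, C' = ((P ×ˢ P).filter (fun v => v.1 ≠ v.2)).sup C := ⟨_, rfl⟩
  obtain ⟨L', hL'⟩ : ∃ L' : ℕ, L' = ((P ×ˢ P).filter (fun v => v.1 ≠ v.2)).sup L₀ := ⟨_, rfl⟩
  refine ⟨max 1 (max C' ⌈(C' : ℝ) / η⌉₊), max X₁ ⌈(L' : ℝ) / η⌉₊, le_max_left _ _, ?_⟩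
  intro X hX g x hgx hgy hbig
  have hXX : X₁ ≤ X := (le_max_left _ _).trans hX
  have hX1 : 1 ≤ X := hX₁.trans hXX
  have hX0 : (0 : ℝ) < X := by exact_mod_cast hX1
  have hLX : (L' : ℝ) ≤ η * X := by
    have h2 : (L' : ℝ) / η ≤ X := by
      refine (Nat.le_ceil _).trans ?_
      exact_mod_cast (le_max_right _ _).trans hX
    rw [div_le_iff₀ hη] at h2
    linarith
  obtain ⟨p, hp, q, hq, hpq, j, L, -, hL, hc⟩ := hK X hXX (fun n => F (g ^ n * x) / B) (by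
      intro n
      rw [norm_div, Complex.norm_real, Real.norm_eq_abs, abs_of_pos hB0, div_le_one hB0]
      exact hB _) (by
      have e : ∑ n ∈ Icc 1 X, muC n * (F (g ^ n * x) / B) =
          (∑ n ∈ Icc 1 X, muC n * F (g ^ n * x)) / B := by
        rw [sum_div]
        exact sum_congr rfl fun n _ => by ring
      rw [e, norm_div, Complex.norm_real, Real.norm_eq_abs, abs_of_pos hB0, div_mul_eq_mul_div]
      exact div_lt_div_of_pos_right hbig hB0)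
  have hv : (p, q) ∈ (P ×ˢ P).filter (fun v => v.1 ≠ v.2) := by
    rw [mem_filter, mem_product]
    exact ⟨⟨hp, hq⟩, hpq⟩
  have hCv : C (p, q) ≤ C' := by rw [hC']; exact Finset.le_sup (f := C) hv
  have hLv : L₀ (p, q) ≤ L' := by rw [hL']; exact Finset.le_sup (f := L₀) hv
  have hLL : L₀ (p, q) ≤ L := by
    have h3 : (L' : ℝ) ≤ L := hLX.trans hL
    exact hLv.trans (by exact_mod_cast h3)
  have e2 : ∑ l ∈ Icc 1 L, (fun n => F (g ^ n * x) / (B : ℂ)) (p * (j + l)) *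
      (starRingEnd ℂ) ((fun n => F (g ^ n * x) / (B : ℂ)) (q * (j + l))) =
      (∑ l ∈ Icc 1 L, F (g ^ (p * l) * (g ^ (p * j) * x)) *
        (starRingEnd ℂ) (F (g ^ (q * l) * (g ^ (q * j) * x)))) / ((B : ℂ) ^ 2) := by
    rw [sum_div]
    refine sum_congr rfl fun l _ => ?_
    simp only [map_div₀, Complex.conj_ofReal]
    rw [← mul_assoc (g ^ (p * l)), ← mul_assoc (g ^ (q * l)), ← pow_add, ← pow_add,
      show p * l + p * j = p * (j + l) by ring, show q * l + q * j = q * (j + l) by ring]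
    ring
  rw [e2, norm_div, norm_pow, Complex.norm_real, Real.norm_eq_abs, abs_of_pos hB0,
    le_div_iff₀ (by positivity)] at hc
  obtain ⟨a, b, z, h0, ha, hb, hz⟩ := hC (p, q) hv L hLL g (g ^ (p * j) * x) (g ^ (q * j) * x) hgx hgy
    (le_of_eq_of_le (by ring) hc)
  have hCC : C (p, q) ≤ max 1 (max C' ⌈(C' : ℝ) / η⌉₊) :=
    hCv.trans ((le_max_left _ _).trans (le_max_right _ _))
  refine ⟨a, b, z, h0, ha.trans (by exact_mod_cast hCC), hb.trans (by exact_mod_cast hCC), hz.trans ?_⟩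
  have hL0 : 0 < η * X := by positivity
  have h5 : (C (p, q) : ℝ) / L ≤ C' / (η * X) := by
    have h6 : (C (p, q) : ℝ) ≤ C' := by exact_mod_cast hCv
    gcongr
  have h7 : (C' : ℝ) / η ≤ ((max 1 (max C' ⌈(C' : ℝ) / η⌉₊) : ℕ) : ℝ) := by
    refine (Nat.le_ceil _).trans ?_
    exact_mod_cast (le_max_right C' ⌈(C' : ℝ) / η⌉₊).trans (le_max_right 1 _)
  calc (C (p, q) : ℝ) / L ≤ C' / (η * X) := h5
    _ = (C' : ℝ) / η / X := by rw [div_div]
    _ ≤ _ := div_le_div_of_nonneg_right h7 hX0.le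

end Pool.Agent.HB
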