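import Pool.Agent.Lib.HB.Basic
import Pool.Agent.Lib.MP_663568_nt.Fourier

/-!
# Row F0 (MP_663568_nt): the functions `F (u y) conj (F y)` on the horizontal torus.  helper27
-/

set_option autoImplicit false
open Finset MeasureTheory UnitAddTorus Topology

namespace Pool.Agent.HB

open Pool.Agent.Lib.MP_663568_nt Pool.Agent.Lib.MP_663568_nt.Katai
  Pool.Agent.Lib.MP_663568_nt.Nul Pool.Agent.Lib.MP_663568_nt.Fib

/-- Trigonometric approximation of periodic continuous functions. -/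
lemma per_approx {d : Type} [Fintype d] (F : (d → ℝ) → ℂ) (hF : Continuous F)
    (hper : ∀ (c : d → ℝ) (z : d → ℤ), F (c + fun i => (z i : ℝ)) = F c)
    (ε : ℝ) (hε : 0 < ε) :
    ∃ (S : Finset (d → ℤ)) (a : (d → ℤ) → ℂ),
      ∀ c, ‖F c - ∑ κ ∈ S, a κ * ee (∑ i, (κ i : ℝ) * c i)‖ ≤ ε := by
  have hq : IsOpenQuotientMap (Pi.map (fun _ : d => ((↑) : ℝ → UnitAddCircle))) :=
    IsOpenQuotientMap.piMap (fun _ => QuotientAddGroup.isOpenQuotientMap_mk)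
  have hcomp : ∀ c c' : d → ℝ, (Pi.map (fun _ : d => ((↑) : ℝ → UnitAddCircle))) c
      = (Pi.map (fun _ : d => ((↑) : ℝ → UnitAddCircle))) c' → F c = F c' := by
    intro c c' h
    have h1 : ∀ i, ∃ z : ℤ, c i = c' i + z := by
      intro i
      have h2 : ((c i : ℝ) : UnitAddCircle) = (c' i : ℝ) := congrFun h i
      rw [eq_comm, QuotientAddGroup.eq, AddSubgroup.mem_zmultiples_iff] at h2
      obtain ⟨z, hz⟩ := h2
      exact ⟨z, by rw [zsmul_eq_mul, mul_one] at hz; rw [hz]; ring⟩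
    choose z hz using h1
    rw [← hper c' z]
    congr 1
    funext i
    exact hz i
  set π : C(d → ℝ, UnitAddTorus d) :=
    ⟨Pi.map (fun _ : d => ((↑) : ℝ → UnitAddCircle)), hq.continuous⟩ with hπ
  have hπq : Topology.IsQuotientMap (π : (d → ℝ) → UnitAddTorus d) := hq.isQuotientMap
  have hfac : Function.FactorsThrough (⟨F, hF⟩ : C(d → ℝ, ℂ)) π := fun c c' h => hcomp c c' h
  set u : C(UnitAddTorus d, ℂ) := hπq.lift ⟨F, hF⟩ hfac with hu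
  have huc : ∀ c : d → ℝ, u (fun i => (c i : UnitAddCircle)) = F c := by
    intro c
    have := hπq.lift_comp ⟨F, hF⟩ hfac
    exact congrArg (fun g : C(d → ℝ, ℂ) => g c) this
  obtain ⟨S, a, h⟩ := trig_approx u ε hε
  refine ⟨S, a, ?_⟩
  intro c
  have h1 := h (fun i => (c i : UnitAddCircle))
  rw [huc] at h1
  convert h1 using 4 with κ hκ
  congr 1
  simp only [mFourier, ContinuousMap.coe_mk, fourier_coe_apply, ee]
  rw [← Complex.exp_sum]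
  congr 1
  push_cast
  rw [mul_sum]
  apply sum_congr rfl
  intro i _
  ring

section
variable {m : ℤ} {F : Heis → ℂ}

lemma ver_z (hV : Ver m F) (x y z : ℝ) : F ⟨x, y, z⟩ = ee (m * z) * F ⟨x, y, 0⟩ := by
  rw [← hV.2 ⟨x, y, 0⟩ z]
  congr 1
  ext <;> simp

lemma ver_x (hV : Ver m F) (x y : ℝ) (a : ℤ) : F ⟨x + a, y, 0⟩ = F ⟨x, y, 0⟩ := by
  rw [← hV.1.2 ⟨x, y, 0⟩ ⟨a, 0, 0⟩ ⟨a, 0, 0, by ext <;> simp⟩]
  congr 1
  ext <;> simp

lemma ver_y (hV : Ver m F) (x y : ℝ) (b : ℤ) :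
    F ⟨x, y + b, 0⟩ = ee (-(m * b * x)) * F ⟨x, y, 0⟩ := by
  have h : F ⟨x, y + b, x * b⟩ = F ⟨x, y, 0⟩ := by
    rw [← hV.1.2 ⟨x, y, 0⟩ ⟨0, b, 0⟩ ⟨0, b, 0, by ext <;> simp⟩]
    congr 1
    ext <;> simp
  rw [ver_z hV] at h
  rw [← h, ← mul_assoc, ← ee_add, show -(m * b * x) + m * (x * b) = ((0 : ℤ) : ℝ) by push_cast; ring,
    ee_int, one_mul]

/-- The bracket. -/
noncomputable def Psi (m : ℤ) (F : Heis → ℂ) (p : ℝ × ℝ) (c : Fin 2 → ℝ) : ℂ :=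
  ee (m * p.1 * c 1) * F ⟨c 0 + p.1, c 1 + p.2, 0⟩ * (starRingEnd ℂ) (F ⟨c 0, c 1, 0⟩)

lemma continuous_Psi (hV : Ver m F) : Continuous fun v : (ℝ × ℝ) × (Fin 2 → ℝ) => Psi m F v.1 v.2 := by
  unfold Psi
  have c0 : Continuous fun v : (ℝ × ℝ) × (Fin 2 → ℝ) => v.2 0 := (continuous_apply 0).comp continuous_snd
  have c1 : Continuous fun v : (ℝ × ℝ) × (Fin 2 → ℝ) => v.2 1 := (continuous_apply 1).comp continuous_snd
  have p1 : Continuous fun v : (ℝ × ℝ) × (Fin 2 → ℝ) => v.1.1 := continuous_fst.comp continuous_fst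
  have p2 : Continuous fun v : (ℝ × ℝ) × (Fin 2 → ℝ) => v.1.2 := continuous_snd.comp continuous_fst
  refine ((continuous_ee.comp ((continuous_const.mul p1).mul c1)).mul
    (hV.1.1.comp (Heis.continuous_mk (c0.add p1) (c1.add p2) continuous_const))).mul
    (Complex.continuous_conj.comp (hV.1.1.comp (Heis.continuous_mk c0 c1 continuous_const)))

lemma continuous_Psi' (hV : Ver m F) (q : ℝ × ℝ) : Continuous (Psi m F q) := by
  have h1 : Continuous fun c : Fin 2 → ℝ => (q, c) := Continuous.prodMk_right q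
  have h2 := (continuous_Psi hV).comp h1
  have h3 : ((fun v : (ℝ × ℝ) × (Fin 2 → ℝ) => Psi m F v.1 v.2) ∘ fun c : Fin 2 → ℝ => (q, c)) =
      Psi m F q := rfl
  rwa [h3] at h2

lemma Psi_per (hV : Ver m F) (p : ℝ × ℝ) (c : Fin 2 → ℝ) (z : Fin 2 → ℤ) :
    Psi m F p (c + fun i => (z i : ℝ)) = Psi m F p c := by
  unfold Psi
  simp only [Pi.add_apply]
  have e1 : F ⟨c 0 + z 0 + p.1, c 1 + z 1 + p.2, 0⟩ =
      ee (-(m * z 1 * (c 0 + p.1))) * F ⟨c 0 + p.1, c 1 + p.2, 0⟩ := by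
    rw [show c 0 + (z 0 : ℝ) + p.1 = c 0 + p.1 + (z 0 : ℝ) by ring,
      show c 1 + (z 1 : ℝ) + p.2 = c 1 + p.2 + (z 1 : ℝ) by ring, ver_x hV, ver_y hV]
  have e2 : F ⟨c 0 + z 0, c 1 + z 1, 0⟩ = ee (-(m * z 1 * c 0)) * F ⟨c 0, c 1, 0⟩ := by
    rw [ver_x hV, ver_y hV]
  rw [e1, e2, map_mul, conj_ee]
  have e3 : ee (m * p.1 * (c 1 + z 1)) * ee (-(m * z 1 * (c 0 + p.1))) * ee (- -(m * z 1 * c 0)) =
      ee (m * p.1 * c 1) := by
    rw [← ee_add, ← ee_add]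
    congr 1
    ring
  rw [← e3]
  ring

/-- The function `F (u y) conj (F y)` in terms of the bracket. -/
lemma corr_eq (hV : Ver m F) (u y : Heis) :
    F (u * y) * (starRingEnd ℂ) (F y) =
      ee (m * u.z - m * ⌊u.y⌋ * Int.fract u.x) *
        ee (m * ⌊u.x⌋ * y.y - m * ⌊u.y⌋ * y.x) *
        Psi m F (Int.fract u.x, Int.fract u.y) ![y.x, y.y] := by
  have e1 : F (u * y) = ee (m * (u.z + y.z + u.x * y.y)) * F ⟨u.x + y.x, u.y + y.y, 0⟩ :=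
    ver_z hV (u.x + y.x) (u.y + y.y) (u.z + y.z + u.x * y.y)
  have e2 : F y = ee (m * y.z) * F ⟨y.x, y.y, 0⟩ := ver_z hV y.x y.y y.z
  have e3 : F ⟨u.x + y.x, u.y + y.y, 0⟩ = ee (-(m * ⌊u.y⌋ * (y.x + Int.fract u.x))) *
      F ⟨y.x + Int.fract u.x, y.y + Int.fract u.y, 0⟩ := by
    have f1 : u.x + y.x = y.x + Int.fract u.x + (⌊u.x⌋ : ℝ) := by
      have := Int.floor_add_fract u.x
      linarith
    have f2 : u.y + y.y = y.y + Int.fract u.y + (⌊u.y⌋ : ℝ) := by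
      have := Int.floor_add_fract u.y
      linarith
    rw [f1, f2, ver_x hV, ver_y hV]
  rw [e1, e2, e3, map_mul, conj_ee]
  unfold Psi
  simp only [Matrix.cons_val_zero, Matrix.cons_val_one]
  have e4 : ee (m * (u.z + y.z + u.x * y.y)) * ee (-(m * ⌊u.y⌋ * (y.x + Int.fract u.x))) *
      ee (-(m * y.z)) = ee (m * u.z - m * ⌊u.y⌋ * Int.fract u.x) *
        ee (m * ⌊u.x⌋ * y.y - m * ⌊u.y⌋ * y.x) * ee (m * Int.fract u.x * y.y) := by
    rw [← ee_add, ← ee_add, ← ee_add, ← ee_add]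
    congr 1
    have := Int.floor_add_fract u.x
    have h2 : u.x = (⌊u.x⌋ : ℝ) + Int.fract u.x := this.symm
    linear_combination (m : ℝ) * y.y * h2
  linear_combination (F ⟨y.x + Int.fract u.x, y.y + Int.fract u.y, 0⟩ *
    (starRingEnd ℂ) (F ⟨y.x, y.y, 0⟩)) * e4

/-- A finite net. -/
lemma Psi_net (hV : Ver m F) {η : ℝ} (hη : 0 < η) : ∃ t : Finset (ℝ × ℝ),
    ∀ p : ℝ × ℝ, p ∈ Set.Icc (0 : ℝ) 1 ×ˢ Set.Icc (0 : ℝ) 1 → ∃ q ∈ t, ∀ c : Fin 2 → ℝ,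
      ‖Psi m F p c - Psi m F q c‖ ≤ η := by
  have hK : IsCompact (Set.Icc (0 : ℝ) 1 ×ˢ Set.Icc (0 : ℝ) 1) := isCompact_Icc.prod isCompact_Icc
  have hQ : IsCompact (Set.Icc (0 : Fin 2 → ℝ) 1) := isCompact_Icc
  have hU : ∀ q : ℝ × ℝ, {p | ∀ c ∈ Set.Icc (0 : Fin 2 → ℝ) 1, ‖Psi m F p c - Psi m F q c‖ < η} ∈ 𝓝 q := by
    intro q
    refine hQ.eventually_forall_of_forall_eventually
      (P := fun p c => ‖Psi m F p c - Psi m F q c‖ < η) ?_
    intro c _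
    have hc : Continuous fun v : (ℝ × ℝ) × (Fin 2 → ℝ) => ‖Psi m F v.1 v.2 - Psi m F q v.2‖ :=
      ((continuous_Psi hV).sub ((continuous_Psi hV).comp (continuous_const.prodMk continuous_snd))).norm
    have h0 : (fun v : (ℝ × ℝ) × (Fin 2 → ℝ) => ‖Psi m F v.1 v.2 - Psi m F q v.2‖) (q, c) < η := by
      simpa using hη
    exact hc.continuousAt.eventually_lt continuousAt_const h0
  obtain ⟨t, -, ht⟩ := hK.elim_nhds_subcover
    (fun q => {p | ∀ c ∈ Set.Icc (0 : Fin 2 → ℝ) 1, ‖Psi m F p c - Psi m F q c‖ < η}) (fun q _ => hU q)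
  refine ⟨t, fun p hp => ?_⟩
  have h1 := ht hp
  simp only [Set.mem_iUnion] at h1
  obtain ⟨q, hq, h2⟩ := h1
  refine ⟨q, hq, fun c => ?_⟩
  have h3 := h2 (c + fun i => ((-⌊c i⌋ : ℤ) : ℝ)) (by
    constructor
    · intro i
      simp only [Pi.add_apply, Pi.zero_apply]
      push_cast
      linarith [Int.floor_le (c i)]
    · intro i
      simp only [Pi.add_apply, Pi.one_apply]
      push_cast
      linarith [Int.lt_floor_add_one (c i)])
  rw [Psi_per hV, Psi_per hV] at h3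
  exact h3.le

lemma sum_box (S : Finset (Fin 2 → ℤ)) (M : ℕ) (hM : ∀ κ ∈ S, ∀ i, |κ i| ≤ (M : ℤ))
    (f : (Fin 2 → ℤ) → ℂ) :
    ∑ κ ∈ S, f κ = ∑ i ∈ Icc (-(M : ℤ)) M, ∑ j ∈ Icc (-(M : ℤ)) M,
      if (![i, j] : Fin 2 → ℤ) ∈ S then f ![i, j] else 0 := by
  classical
  rw [← sum_product', ← sum_filter]
  symm
  refine sum_bij (fun v _ => (![v.1, v.2] : Fin 2 → ℤ)) ?_ ?_ ?_ ?_
  · intro v hv
    exact (mem_filter.1 hv).2
  · intro v _ w _ h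
    have h0 := congrFun h 0
    have h1 := congrFun h 1
    simp only [Matrix.cons_val_zero, Matrix.cons_val_one] at h0 h1
    exact Prod.ext h0 h1
  · intro κ hκ
    have e : (![κ 0, κ 1] : Fin 2 → ℤ) = κ := by
      ext i
      fin_cases i <;> rfl
    refine ⟨(κ 0, κ 1), ?_, e⟩
    rw [mem_filter, mem_product, mem_Icc, mem_Icc]
    simp only
    rw [e]
    exact ⟨⟨abs_le.1 (hM κ hκ 0), abs_le.1 (hM κ hκ 1)⟩, hκ⟩
  · intro v _
    rfl

theorem rowF0 : F0_stmt := by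
  classical
  intro m F hV η hη
  obtain ⟨t, ht⟩ := Psi_net hV (show 0 < η / 2 by positivity)
  have happ : ∀ q : ℝ × ℝ, ∃ (S : Finset (Fin 2 → ℤ)) (a : (Fin 2 → ℤ) → ℂ),
      ∀ c, ‖Psi m F q c - ∑ κ ∈ S, a κ * ee (∑ i, (κ i : ℝ) * c i)‖ ≤ η / 2 := by
    intro q
    exact per_approx (Psi m F q) (continuous_Psi' hV q) (Psi_per hV q) (η / 2) (by positivity)
  choose S a hSa using happ
  obtain ⟨M, hM⟩ : ∃ M : ℕ, M = t.sup fun q => (S q).sup fun κ => max (κ 0).natAbs (κ 1).natAbs :=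
    ⟨_, rfl⟩
  obtain ⟨C, hC⟩ : ∃ C : ℝ, C = 1 + ∑ q ∈ t, ∑ κ ∈ S q, ‖a q κ‖ := ⟨_, rfl⟩
  have hCs : 0 ≤ ∑ q ∈ t, ∑ κ ∈ S q, ‖a q κ‖ := sum_nonneg fun _ _ => sum_nonneg fun _ _ => norm_nonneg _
  have hC0 : 0 < C := by rw [hC]; linarith
  have hMb : ∀ q ∈ t, ∀ κ ∈ S q, ∀ i, |κ i| ≤ (M : ℤ) := by
    intro q hq κ hκ i
    have h1 : max (κ 0).natAbs (κ 1).natAbs ≤ M := by
      rw [hM]
      exact (Finset.le_sup (f := fun κ : Fin 2 → ℤ => max (κ 0).natAbs (κ 1).natAbs) hκ).trans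
        (Finset.le_sup (f := fun q => (S q).sup fun κ => max (κ 0).natAbs (κ 1).natAbs) hq)
    have h2 : (κ i).natAbs ≤ M := by
      fin_cases i
      · exact (le_max_left _ _).trans h1
      · exact (le_max_right _ _).trans h1
    rw [Int.abs_eq_natAbs]
    exact_mod_cast h2
  have hCb : ∀ q ∈ t, ∀ κ ∈ S q, ‖a q κ‖ ≤ C := by
    intro q hq κ hκ
    have h1 : ‖a q κ‖ ≤ ∑ κ ∈ S q, ‖a q κ‖ :=
      Finset.single_le_sum (f := fun κ => ‖a q κ‖) (fun _ _ => norm_nonneg _) hκ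
    have h2 : ∑ κ ∈ S q, ‖a q κ‖ ≤ ∑ q ∈ t, ∑ κ ∈ S q, ‖a q κ‖ :=
      Finset.single_le_sum (f := fun q => ∑ κ ∈ S q, ‖a q κ‖)
        (fun _ _ => sum_nonneg fun _ _ => norm_nonneg _) hq
    rw [hC]
    linarith
  refine ⟨M, C, hC0, fun u => ?_⟩
  obtain ⟨q, hq, hpq⟩ := ht (Int.fract u.x, Int.fract u.y)
    ⟨⟨Int.fract_nonneg _, (Int.fract_lt_one _).le⟩, ⟨Int.fract_nonneg _, (Int.fract_lt_one _).le⟩⟩
  refine ⟨fun i j => ee (m * u.z - m * ⌊u.y⌋ * Int.fract u.x) *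
    if (![i, j] : Fin 2 → ℤ) ∈ S q then a q ![i, j] else 0, ?_, ?_⟩
  · intro i j
    rw [norm_mul, norm_ee, one_mul]
    split_ifs with h
    · exact hCb q hq _ h
    · rw [norm_zero]
      exact hC0.le
  · intro y
    rw [corr_eq hV u y]
    have e1 : ∑ i ∈ Icc (-(M : ℤ)) M, ∑ j ∈ Icc (-(M : ℤ)) M,
        (ee (m * u.z - m * ⌊u.y⌋ * Int.fract u.x) *
          if (![i, j] : Fin 2 → ℤ) ∈ S q then a q ![i, j] else 0) *
          ee (((i - m * ⌊u.y⌋ : ℤ) : ℝ) * y.x + ((j + m * ⌊u.x⌋ : ℤ) : ℝ) * y.y) =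
        ee (m * u.z - m * ⌊u.y⌋ * Int.fract u.x) * ee (m * ⌊u.x⌋ * y.y - m * ⌊u.y⌋ * y.x) *
          ∑ κ ∈ S q, a q κ * ee (∑ i, (κ i : ℝ) * (![y.x, y.y] : Fin 2 → ℝ) i) := by
      rw [sum_box (S q) M (hMb q hq), mul_sum]
      refine sum_congr rfl fun i _ => ?_
      rw [mul_sum]
      refine sum_congr rfl fun j _ => ?_
      split_ifs with h
      · have e2 : ee (((i - m * ⌊u.y⌋ : ℤ) : ℝ) * y.x + ((j + m * ⌊u.x⌋ : ℤ) : ℝ) * y.y) =
            ee (m * ⌊u.x⌋ * y.y - m * ⌊u.y⌋ * y.x) *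
              ee (∑ k, (((![i, j] : Fin 2 → ℤ) k : ℤ) : ℝ) * (![y.x, y.y] : Fin 2 → ℝ) k) := by
          rw [← ee_add]
          congr 1
          simp only [Fin.sum_univ_two, Matrix.cons_val_zero, Matrix.cons_val_one]
          push_cast
          ring
        rw [e2]
        ring
      · ring
    rw [e1, ← mul_sub, norm_mul, norm_mul, norm_ee, norm_ee, one_mul, one_mul]
    have h1 := hpq ![y.x, y.y]
    have h2 := hSa q ![y.x, y.y]
    calc _ = ‖(Psi m F (Int.fract u.x, Int.fract u.y) ![y.x, y.y] - Psi m F q ![y.x, y.y]) +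
          (Psi m F q ![y.x, y.y] -
            ∑ κ ∈ S q, a q κ * ee (∑ i, (κ i : ℝ) * (![y.x, y.y] : Fin 2 → ℝ) i))‖ := by
            congr 1
            ring
      _ ≤ η / 2 + η / 2 := (norm_add_le _ _).trans (add_le_add h1 h2)
      _ = η := by ring

end

end Pool.Agent.HB
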