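import Pool.Agent.Lib.HB.Basic
import Pool.Agent.Lib.MP_663568_q.Q12
import Pool.Agent.Lib.MP_663568_nul.Base

/-!
# Nilrotations of the Heisenberg group (MP_663568_nt): row F1, the correlations of the dilates
-/

set_option autoImplicit false
open Finset MeasureTheory

namespace Pool.Agent.HB

open Pool.Agent.Lib.MP_663568_nt Pool.Agent.Lib.MP_663568_nt.Katai
  Pool.Agent.Lib.MP_663568_nt.Nul Pool.Agent.Lib.MP_663568_nt.Fib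

namespace F1x

lemma geom_le (θ β δ : ℝ) (hδ : 0 < δ) (h : δ ≤ nd θ) (L : ℕ) :
    ‖∑ l ∈ Icc 1 L, ee (θ * l + β)‖ ≤ 1 / (2 * δ) := by
  have h1 := geom_bound θ β L
  have h2 := nd_le_norm_one_sub_ee θ
  have h3 : 4 * δ * ‖∑ l ∈ Icc 1 L, ee (θ * l + β)‖ ≤ 2 :=
    (mul_le_mul_of_nonneg_right (by linarith) (norm_nonneg _)).trans h1
  rw [le_div_iff₀ (by positivity)]
  linarith

lemma bilinear {ι : Type*} (S : Finset ι) (c c' : ι → ℂ) (φ ψ φ' ψ' : ι → ℝ) (C₀ δ : ℝ)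
    (hc : ∀ s, ‖c s‖ ≤ C₀) (hc' : ∀ s, ‖c' s‖ ≤ C₀) (hδ : 0 < δ)
    (h : ∀ s ∈ S, ∀ s' ∈ S, δ ≤ nd (φ s - φ' s')) (L : ℕ) :
    ‖∑ l ∈ Icc 1 L, (∑ s ∈ S, c s * ee (φ s * l + ψ s)) *
      (starRingEnd ℂ) (∑ s ∈ S, c' s * ee (φ' s * l + ψ' s))‖ ≤
      (S.card : ℝ) ^ 2 * C₀ ^ 2 * (1 / (2 * δ)) := by
  have e1 : ∑ l ∈ Icc 1 L, (∑ s ∈ S, c s * ee (φ s * l + ψ s)) *
      (starRingEnd ℂ) (∑ s ∈ S, c' s * ee (φ' s * l + ψ' s)) =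
      ∑ s ∈ S, ∑ s' ∈ S, c s * (starRingEnd ℂ) (c' s') *
        ∑ l ∈ Icc 1 L, ee ((φ s - φ' s') * l + (ψ s - ψ' s')) := by
    have e2 : ∀ l : ℕ, (∑ s ∈ S, c s * ee (φ s * l + ψ s)) *
        (starRingEnd ℂ) (∑ s ∈ S, c' s * ee (φ' s * l + ψ' s)) =
        ∑ s ∈ S, ∑ s' ∈ S, c s * (starRingEnd ℂ) (c' s') *
          ee ((φ s - φ' s') * l + (ψ s - ψ' s')) := by
      intro l
      rw [map_sum, sum_mul_sum]
      refine sum_congr rfl fun s _ => sum_congr rfl fun s' _ => ?_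
      rw [map_mul, show (φ s - φ' s') * (l : ℝ) + (ψ s - ψ' s') =
        (φ s * l + ψ s) - (φ' s' * l + ψ' s') by ring, ee_sub]
      ring
    rw [sum_congr rfl fun l _ => e2 l, sum_comm]
    refine sum_congr rfl fun s _ => ?_
    rw [sum_comm]
    refine sum_congr rfl fun s' _ => ?_
    rw [mul_sum]
  rw [e1]
  have hC : 0 ≤ C₀ ∨ S = ∅ := by
    rcases S.eq_empty_or_nonempty with h | ⟨s, _⟩
    · exact Or.inr h
    · exact Or.inl ((norm_nonneg _).trans (hc s))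
  rcases hC with hC | hC
  · calc _ ≤ ∑ s ∈ S, ∑ s' ∈ S, ‖c s * (starRingEnd ℂ) (c' s') *
          ∑ l ∈ Icc 1 L, ee ((φ s - φ' s') * l + (ψ s - ψ' s'))‖ :=
        (norm_sum_le _ _).trans (sum_le_sum fun s _ => norm_sum_le _ _)
      _ ≤ ∑ _s ∈ S, ∑ _s' ∈ S, C₀ * C₀ * (1 / (2 * δ)) := by
        refine sum_le_sum fun s hs => sum_le_sum fun s' hs' => ?_
        rw [norm_mul, norm_mul, RCLike.norm_conj]
        exact mul_le_mul (mul_le_mul (hc s) (hc' s') (norm_nonneg _) hC)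
          (geom_le _ _ δ hδ (h s hs s' hs') L) (norm_nonneg _) (mul_nonneg hC hC)
      _ = _ := by
        rw [sum_const, sum_const, nsmul_eq_mul, nsmul_eq_mul]
        ring
  · subst hC
    simp

lemma approx_sum (A B A' B' : ℕ → ℂ) (K η : ℝ) (hK : 0 ≤ K) (hη : 0 ≤ η) (hA : ∀ l, ‖A l‖ ≤ K)
    (hB : ∀ l, ‖B l‖ ≤ K) (hA' : ∀ l, ‖A l - A' l‖ ≤ η) (hB' : ∀ l, ‖B l - B' l‖ ≤ η) (L : ℕ) :
    ‖∑ l ∈ Icc 1 L, A l * (starRingEnd ℂ) (B l)‖ ≤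
      ‖∑ l ∈ Icc 1 L, A' l * (starRingEnd ℂ) (B' l)‖ + L * (η * (2 * K + η)) := by
  have h1 : ∀ l, ‖A l * (starRingEnd ℂ) (B l) - A' l * (starRingEnd ℂ) (B' l)‖ ≤
      η * (2 * K + η) := by
    intro l
    have e : A l * (starRingEnd ℂ) (B l) - A' l * (starRingEnd ℂ) (B' l) =
        A l * (starRingEnd ℂ) (B l - B' l) + (A l - A' l) * (starRingEnd ℂ) (B' l) := by
      rw [map_sub]; ring
    have hBn : ‖B' l‖ ≤ K + η := by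
      have : B' l = B l - (B l - B' l) := by ring
      rw [this]
      exact (norm_sub_le _ _).trans (add_le_add (hB l) (hB' l))
    rw [e]
    calc _ ≤ ‖A l * (starRingEnd ℂ) (B l - B' l)‖ + ‖(A l - A' l) * (starRingEnd ℂ) (B' l)‖ :=
          norm_add_le _ _
      _ ≤ K * η + η * (K + η) := by
          rw [norm_mul, norm_mul, RCLike.norm_conj, RCLike.norm_conj]
          exact add_le_add (mul_le_mul (hA l) (hB' l) (norm_nonneg _) hK)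
            (mul_le_mul (hA' l) hBn (norm_nonneg _) hη)
      _ = _ := by ring
  have e2 : ∑ l ∈ Icc 1 L, A l * (starRingEnd ℂ) (B l) =
      ∑ l ∈ Icc 1 L, A' l * (starRingEnd ℂ) (B' l) +
      ∑ l ∈ Icc 1 L, (A l * (starRingEnd ℂ) (B l) - A' l * (starRingEnd ℂ) (B' l)) := by
    rw [← sum_add_distrib]
    exact sum_congr rfl fun l _ => by ring
  rw [e2]
  refine (norm_add_le _ _).trans (add_le_add le_rfl ?_)
  refine (norm_sum_le _ _).trans ?_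
  calc _ ≤ ∑ _l ∈ Icc 1 L, η * (2 * K + η) := sum_le_sum fun l _ => h1 l
    _ = _ := by simp

/-- The integer frequencies. -/
lemma freq (e i i' : ℤ) (p q M : ℕ) (t : ℝ) (hi : |i| ≤ (M : ℤ)) (hi' : |i'| ≤ (M : ℤ)) :
    |(((p : ℤ) * (i - e * ⌊(p : ℝ) * t⌋) - (q : ℤ) * (i' - e * ⌊(q : ℝ) * t⌋) : ℤ) : ℝ) +
      (e : ℝ) * ((p : ℝ) ^ 2 - (q : ℝ) ^ 2) * t| ≤ ((p : ℝ) + q) * (M + |(e : ℝ)|) := by
  have h1 : |Int.fract ((p : ℝ) * t)| ≤ 1 := by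
    rw [Int.abs_fract]; exact (Int.fract_lt_one _).le
  have h2 : |Int.fract ((q : ℝ) * t)| ≤ 1 := by
    rw [Int.abs_fract]; exact (Int.fract_lt_one _).le
  have hi1 : |(i : ℝ)| ≤ M := by exact_mod_cast hi
  have hi2 : |(i' : ℝ)| ≤ M := by exact_mod_cast hi'
  have e1 : (((p : ℤ) * (i - e * ⌊(p : ℝ) * t⌋) - (q : ℤ) * (i' - e * ⌊(q : ℝ) * t⌋) : ℤ) : ℝ) +
      (e : ℝ) * ((p : ℝ) ^ 2 - (q : ℝ) ^ 2) * t =
      ((p : ℝ) * i + (p : ℝ) * (e * Int.fract ((p : ℝ) * t))) -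
      ((q : ℝ) * i' + (q : ℝ) * (e * Int.fract ((q : ℝ) * t))) := by
    rw [Int.fract, Int.fract]
    push_cast
    ring
  rw [e1]
  have hp : (0 : ℝ) ≤ p := Nat.cast_nonneg _
  have hq : (0 : ℝ) ≤ q := Nat.cast_nonneg _
  have key : ∀ (s : ℝ) (j : ℤ) (f : ℝ), 0 ≤ s → |(j : ℝ)| ≤ M → |f| ≤ 1 →
      |s * j + s * (e * f)| ≤ s * (M + |(e : ℝ)|) := by
    intro s j f hs hj hf
    rw [← mul_add, abs_mul, abs_of_nonneg hs]
    refine mul_le_mul_of_nonneg_left ((abs_add_le _ _).trans (add_le_add hj ?_)) hs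
    rw [abs_mul]
    calc |(e : ℝ)| * |f| ≤ |(e : ℝ)| * 1 := mul_le_mul_of_nonneg_left hf (abs_nonneg _)
      _ = _ := mul_one _
  calc _ ≤ |(p : ℝ) * i + (p : ℝ) * (e * Int.fract ((p : ℝ) * t))| +
        |(q : ℝ) * i' + (q : ℝ) * (e * Int.fract ((q : ℝ) * t))| := abs_sub _ _
    _ ≤ (p : ℝ) * (M + |(e : ℝ)|) + (q : ℝ) * (M + |(e : ℝ)|) :=
        add_le_add (key _ _ _ hp hi1 h1) (key _ _ _ hq hi2 h2)
    _ = _ := by ring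

lemma le_sq_sub (p q : ℕ) (hpq : p ≠ q) : ((p : ℝ) + q) ≤ |(p : ℝ) ^ 2 - (q : ℝ) ^ 2| := by
  have e : (p : ℝ) ^ 2 - (q : ℝ) ^ 2 = ((p : ℝ) + q) * ((p : ℝ) - q) := by ring
  have h : (1 : ℝ) ≤ |(p : ℝ) - q| := by
    have h0 : (1 : ℤ) ≤ |(p : ℤ) - q| := Int.one_le_abs (sub_ne_zero.2 (by exact_mod_cast hpq))
    exact_mod_cast h0
  rw [e, abs_mul, abs_of_nonneg (by positivity : (0 : ℝ) ≤ (p : ℝ) + q)]
  calc ((p : ℝ) + q) = ((p : ℝ) + q) * 1 := (mul_one _).symm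
    _ ≤ _ := mul_le_mul_of_nonneg_left h (by positivity)

/-- Nonzero and bounded frequencies. -/
lemma freq_pair (m : ℤ) (hm : m ≠ 0) (p q M : ℕ) (hp : 1 ≤ p) (hpq : p ≠ q) (a b T K : ℝ)
    (d r Rv : ℕ) (hr : 1 ≤ r)
    (hrR : r ≤ Rv) (hK : K = M + |(m : ℝ)| + 1) (hd : K ≤ d * max |a| |b|)
    (hd' : (d : ℝ) * max |a| |b| ≤ T) (i j i' j' : ℤ) (hi : |i| ≤ (M : ℤ)) (hi' : |i'| ≤ (M : ℤ))
    (hj : |j| ≤ (M : ℤ)) (hj' : |j'| ≤ (M : ℤ)) :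
    (((p : ℤ) * (i - m * ⌊(p : ℝ) * ((d : ℝ) * r * b)⌋) -
        (q : ℤ) * (i' - m * ⌊(q : ℝ) * ((d : ℝ) * r * b)⌋)) ≠ 0 ∨
      ((p : ℤ) * (j + m * ⌊(p : ℝ) * ((d : ℝ) * r * a)⌋) -
        (q : ℤ) * (j' + m * ⌊(q : ℝ) * ((d : ℝ) * r * a)⌋)) ≠ 0) ∧
    |((((p : ℤ) * (i - m * ⌊(p : ℝ) * ((d : ℝ) * r * b)⌋) -
        (q : ℤ) * (i' - m * ⌊(q : ℝ) * ((d : ℝ) * r * b)⌋)) : ℤ) : ℝ)| ≤
      |(m : ℝ)| * |(p : ℝ) ^ 2 - (q : ℝ) ^ 2| * (Rv * T) + ((p : ℝ) + q) * (M + |(m : ℝ)|) ∧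
    |((((p : ℤ) * (j + m * ⌊(p : ℝ) * ((d : ℝ) * r * a)⌋) -
        (q : ℤ) * (j' + m * ⌊(q : ℝ) * ((d : ℝ) * r * a)⌋)) : ℤ) : ℝ)| ≤
      |(m : ℝ)| * |(p : ℝ) ^ 2 - (q : ℝ) ^ 2| * (Rv * T) + ((p : ℝ) + q) * (M + |(m : ℝ)|) := by
  have hm1 : (1 : ℝ) ≤ |(m : ℝ)| := by
    have h0 : (1 : ℤ) ≤ |m| := Int.one_le_abs hm
    exact_mod_cast h0
  have hmp : |((-m : ℤ) : ℝ)| = |(m : ℝ)| := by push_cast; exact abs_neg _
  have hpq1 := le_sq_sub p q hpq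
  have hp0 : (1 : ℝ) ≤ p := by exact_mod_cast hp
  have hq0 : (0 : ℝ) ≤ q := Nat.cast_nonneg _
  have hr1 : (1 : ℝ) ≤ r := by exact_mod_cast hr
  have hrR' : (r : ℝ) ≤ Rv := by exact_mod_cast hrR
  have hd0 : (0 : ℝ) ≤ d := Nat.cast_nonneg _
  have hM0 : (0 : ℝ) ≤ M := Nat.cast_nonneg _
  have hμ0 : 0 ≤ max |a| |b| := (abs_nonneg a).trans (le_max_left _ _)
  have hT0 : 0 ≤ T := (mul_nonneg hd0 hμ0).trans hd'
  have f1 := freq m i i' p q M ((d : ℝ) * r * b) hi hi'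
  have f2 := freq (-m) j j' p q M ((d : ℝ) * r * a) hj hj'
  rw [hmp] at f2
  simp only [neg_mul, sub_neg_eq_add, Int.cast_neg] at f2
  set k1 : ℤ := (p : ℤ) * (i - m * ⌊(p : ℝ) * ((d : ℝ) * r * b)⌋) -
        (q : ℤ) * (i' - m * ⌊(q : ℝ) * ((d : ℝ) * r * b)⌋) with hk1
  set k2 : ℤ := (p : ℤ) * (j + m * ⌊(p : ℝ) * ((d : ℝ) * r * a)⌋) -
        (q : ℤ) * (j' + m * ⌊(q : ℝ) * ((d : ℝ) * r * a)⌋) with hk2
  set Dq := |(p : ℝ) ^ 2 - (q : ℝ) ^ 2| with hDq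
  have hDq0 : 0 ≤ Dq := abs_nonneg _
  have big : ∀ v : ℝ, |(m : ℝ) * ((p : ℝ) ^ 2 - (q : ℝ) ^ 2) * ((d : ℝ) * r * v)| =
      |(m : ℝ)| * Dq * (d * r * |v|) := by
    intro v
    rw [abs_mul, abs_mul, abs_mul, abs_mul, abs_of_nonneg hd0,
      abs_of_nonneg (by linarith : (0 : ℝ) ≤ r)]
  have up : ∀ v : ℝ, |v| ≤ max |a| |b| → |(m : ℝ)| * Dq * (d * r * |v|) ≤
      |(m : ℝ)| * Dq * (Rv * T) := by
    intro v hv
    refine mul_le_mul_of_nonneg_left ?_ (mul_nonneg (abs_nonneg _) hDq0)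
    calc (d : ℝ) * r * |v| = r * (d * |v|) := by ring
      _ ≤ Rv * T := mul_le_mul hrR' ((mul_le_mul_of_nonneg_left hv hd0).trans hd')
          (mul_nonneg hd0 (abs_nonneg _)) (by positivity)
  have low : ∀ v : ℝ, |v| = max |a| |b| → ((p : ℝ) + q) * (M + |(m : ℝ)|) <
      |(m : ℝ)| * Dq * (d * r * |v|) := by
    intro v hv
    have h1 : K ≤ d * r * |v| := by
      rw [hv]
      calc K ≤ d * max |a| |b| := hd
        _ = d * 1 * max |a| |b| := by ring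
        _ ≤ d * r * max |a| |b| :=
          mul_le_mul_of_nonneg_right (mul_le_mul_of_nonneg_left hr1 hd0) hμ0
    have h2 : ((p : ℝ) + q) ≤ |(m : ℝ)| * Dq := by
      calc ((p : ℝ) + q) ≤ Dq := hpq1
        _ = 1 * Dq := (one_mul _).symm
        _ ≤ _ := mul_le_mul_of_nonneg_right hm1 hDq0
    have h3 : ((p : ℝ) + q) * (M + |(m : ℝ)|) < ((p : ℝ) + q) * K :=
      mul_lt_mul_of_pos_left (by rw [hK]; linarith) (by linarith)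
    have hK0 : 0 ≤ K := by rw [hK]; positivity
    exact lt_of_lt_of_le h3 (mul_le_mul h2 h1 hK0 (mul_nonneg (abs_nonneg _) hDq0))
  refine ⟨?_, ?_, ?_⟩
  · by_contra hcon
    push Not at hcon
    rw [hcon.1] at f1
    rw [hcon.2] at f2
    rcases le_total |a| |b| with hab | hab
    · have h1 := low b (max_eq_right hab).symm
      rw [Int.cast_zero, zero_add, big] at f1
      linarith
    · have h1 := low a (max_eq_left hab).symm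
      have e3 : (0 : ℝ) + -((m : ℝ) * ((p : ℝ) ^ 2 - (q : ℝ) ^ 2) * ((d : ℝ) * r * a)) =
        -((m : ℝ) * ((p : ℝ) ^ 2 - (q : ℝ) ^ 2) * ((d : ℝ) * r * a)) := by ring
      rw [Int.cast_zero, e3, abs_neg, big] at f2
      linarith
  · have h1 := up b (le_max_right _ _)
    rw [← big] at h1
    have e4 : (k1 : ℝ) = ((k1 : ℝ) + (m : ℝ) * ((p : ℝ) ^ 2 - (q : ℝ) ^ 2) * ((d : ℝ) * r * b)) -
      (m : ℝ) * ((p : ℝ) ^ 2 - (q : ℝ) ^ 2) * ((d : ℝ) * r * b) := by ring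
    rw [e4]
    refine (abs_sub _ _).trans ?_
    linarith
  · have h1 := up a (le_max_left _ _)
    rw [← big] at h1
    have e4 : (k2 : ℝ) = ((k2 : ℝ) + -((m : ℝ) * ((p : ℝ) ^ 2 - (q : ℝ) ^ 2) *
      ((d : ℝ) * r * a))) + (m : ℝ) * ((p : ℝ) ^ 2 - (q : ℝ) ^ 2) * ((d : ℝ) * r * a) := by ring
    rw [e4]
    refine (abs_add_le _ _).trans ?_
    linarith

/-- One correlation. -/
lemma corr (m : ℤ) (hm : m ≠ 0) (F : Heis → ℂ) (B : ℝ) (hB1 : 1 ≤ B) (hB : ∀ g, ‖F g‖ ≤ B)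
    (p q M : ℕ) (hp : 1 ≤ p) (hpq : p ≠ q) (C₀ η₀ : ℝ) (hη0 : 0 < η₀) (hη1 : η₀ ≤ 1)
    (h0 : ∀ u : Heis, ∃ c : ℤ → ℤ → ℂ, (∀ i j, ‖c i j‖ ≤ C₀) ∧ ∀ y : Heis,
      ‖F (u * y) * (starRingEnd ℂ) (F y) -
        ∑ i ∈ Icc (-(M : ℤ)) M, ∑ j ∈ Icc (-(M : ℤ)) M,
          c i j * ee (((i - m * ⌊u.y⌋ : ℤ) : ℝ) * y.x + ((j + m * ⌊u.x⌋ : ℤ) : ℝ) * y.y)‖ ≤ η₀)
    (g x y : Heis) (d r Rv L C : ℕ) (hr : 1 ≤ r) (hrR : r ≤ Rv) (T : ℝ)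
    (hd : (M : ℝ) + |(m : ℝ)| + 1 ≤ d * max |g.x| |g.y|) (hd' : (d : ℝ) * max |g.x| |g.y| ≤ T)
    (hC : |(m : ℝ)| * |(p : ℝ) ^ 2 - (q : ℝ) ^ 2| * (Rv * T) + ((p : ℝ) + q) * (M + |(m : ℝ)|) ≤ C)
    (hC1 : 1 ≤ C) (hL : 1 ≤ L)
    (hno : ∀ a b z : ℤ, (a ≠ 0 ∨ b ≠ 0) → |a| ≤ (C : ℤ) → |b| ≤ (C : ℤ) →
      (C : ℝ) / L < |a * g.x + b * g.y - z|) :
    ‖∑ l ∈ Icc 1 L, (F (g ^ (p * (l + d * r)) * x) * (starRingEnd ℂ) (F (g ^ (p * l) * x))) *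
      (starRingEnd ℂ)
        (F (g ^ (q * (l + d * r)) * y) * (starRingEnd ℂ) (F (g ^ (q * l) * y)))‖ ≤
      ((2 * M + 1 : ℝ) ^ 2) ^ 2 * C₀ ^ 2 * (1 / (2 * ((C : ℝ) / L))) +
        L * (η₀ * (3 * B ^ 2)) := by
  obtain ⟨c, hc, hcF⟩ := h0 (g ^ (p * (d * r)))
  obtain ⟨c', hc', hcF'⟩ := h0 (g ^ (q * (d * r)))
  have hL0 : (0 : ℝ) < L := by exact_mod_cast hL
  have hC0 : (0 : ℝ) < C := by exact_mod_cast hC1
  set S : Finset (ℤ × ℤ) := Icc (-(M : ℤ)) M ×ˢ Icc (-(M : ℤ)) M with hS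
  have hcard : (S.card : ℝ) = (2 * M + 1 : ℝ) ^ 2 := by
    rw [hS, card_product, Int.card_Icc]
    have : ((M : ℤ) + 1 - -(M : ℤ)).toNat = 2 * M + 1 := by omega
    rw [this]
    push_cast
    ring
  -- the frequencies
  have hpow : ∀ (s l : ℕ), (g ^ (s * (d * r))).x = (s : ℝ) * ((d : ℝ) * r * g.x) ∧
      (g ^ (s * (d * r))).y = (s : ℝ) * ((d : ℝ) * r * g.y) := by
    intro s l
    rw [Heis.pow_x, Heis.pow_y]
    push_cast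
    constructor <;> ring
  have hUx := (hpow p 0).1
  have hUy := (hpow p 0).2
  have hVx := (hpow q 0).1
  have hVy := (hpow q 0).2
  rw [hUx, hUy] at hcF
  rw [hVx, hVy] at hcF'
  set α : ℤ × ℤ → ℤ := fun s => s.1 - m * ⌊(p : ℝ) * ((d : ℝ) * r * g.y)⌋ with hα
  set β : ℤ × ℤ → ℤ := fun s => s.2 + m * ⌊(p : ℝ) * ((d : ℝ) * r * g.x)⌋ with hβ
  set α' : ℤ × ℤ → ℤ := fun s => s.1 - m * ⌊(q : ℝ) * ((d : ℝ) * r * g.y)⌋ with hα'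
  set β' : ℤ × ℤ → ℤ := fun s => s.2 + m * ⌊(q : ℝ) * ((d : ℝ) * r * g.x)⌋ with hβ'
  have hbil := bilinear S (fun s => c s.1 s.2) (fun s => c' s.1 s.2)
    (fun s => (p : ℝ) * ((α s : ℝ) * g.x + (β s : ℝ) * g.y))
    (fun s => (α s : ℝ) * x.x + (β s : ℝ) * x.y)
    (fun s => (q : ℝ) * ((α' s : ℝ) * g.x + (β' s : ℝ) * g.y))
    (fun s => (α' s : ℝ) * y.x + (β' s : ℝ) * y.y) C₀ ((C : ℝ) / L)
    (fun s => hc _ _) (fun s => hc' _ _) (by positivity) ?_ L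
  swap
  · intro s hs s' hs'
    rw [hS, mem_product, mem_Icc, mem_Icc] at hs hs'
    obtain ⟨⟨hs1, hs2⟩, hs3, hs4⟩ := hs
    obtain ⟨⟨ht1, ht2⟩, ht3, ht4⟩ := hs'
    obtain ⟨hne, hb1, hb2⟩ := freq_pair m hm p q M hp hpq g.x g.y T _ d r Rv hr hrR rfl hd hd'
      s.1 s.2 s'.1 s'.2 (abs_le.2 ⟨hs1, hs2⟩) (abs_le.2 ⟨ht1, ht2⟩) (abs_le.2 ⟨hs3, hs4⟩)
      (abs_le.2 ⟨ht3, ht4⟩)
    have hb1' := hb1.trans hC
    have hb2' := hb2.trans hC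
    have g1 : |(p : ℤ) * α s - (q : ℤ) * α' s'| ≤ (C : ℤ) := by
      have : ((|(p : ℤ) * α s - (q : ℤ) * α' s'| : ℤ) : ℝ) ≤ ((C : ℤ) : ℝ) := by
        rw [Int.cast_abs]
        exact hb1'
      exact_mod_cast this
    have g2 : |(p : ℤ) * β s - (q : ℤ) * β' s'| ≤ (C : ℤ) := by
      have : ((|(p : ℤ) * β s - (q : ℤ) * β' s'| : ℤ) : ℝ) ≤ ((C : ℤ) : ℝ) := by
        rw [Int.cast_abs]
        exact hb2'
      exact_mod_cast this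
    obtain ⟨z, hz⟩ := nd_exists ((p : ℝ) * ((α s : ℝ) * g.x + (β s : ℝ) * g.y) -
      (q : ℝ) * ((α' s' : ℝ) * g.x + (β' s' : ℝ) * g.y))
    rw [hz]
    have g3 := (hno _ _ z hne g1 g2).le
    refine g3.trans (le_of_eq ?_)
    congr 1
    simp only [hα, hβ, hα', hβ']
    push_cast
    ring
  have happ := approx_sum (fun l => F (g ^ (p * (l + d * r)) * x) *
      (starRingEnd ℂ) (F (g ^ (p * l) * x)))
    (fun l => F (g ^ (q * (l + d * r)) * y) * (starRingEnd ℂ) (F (g ^ (q * l) * y)))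
    (fun l => ∑ s ∈ S, c s.1 s.2 * ee ((p : ℝ) * ((α s : ℝ) * g.x + (β s : ℝ) * g.y) * l +
      ((α s : ℝ) * x.x + (β s : ℝ) * x.y)))
    (fun l => ∑ s ∈ S, c' s.1 s.2 * ee ((q : ℝ) * ((α' s : ℝ) * g.x + (β' s : ℝ) * g.y) * l +
      ((α' s : ℝ) * y.x + (β' s : ℝ) * y.y))) (B ^ 2) η₀ (by positivity) hη0.le ?_ ?_ ?_ ?_ L
  · refine happ.trans (add_le_add ?_ ?_)
    · refine hbil.trans (le_of_eq ?_)
      rw [hcard]
    · refine mul_le_mul_of_nonneg_left (mul_le_mul_of_nonneg_left ?_ hη0.le) hL0.le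
      have : (1 : ℝ) ≤ B ^ 2 := one_le_pow₀ hB1
      linarith
  · intro l
    rw [norm_mul, RCLike.norm_conj, sq]
    exact mul_le_mul (hB _) (hB _) (norm_nonneg _) (by linarith)
  · intro l
    rw [norm_mul, RCLike.norm_conj, sq]
    exact mul_le_mul (hB _) (hB _) (norm_nonneg _) (by linarith)
  · intro l
    have h1 := hcF (g ^ (p * l) * x)
    have e1 : g ^ (p * (l + d * r)) * x = g ^ (p * (d * r)) * (g ^ (p * l) * x) := by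
      rw [← mul_assoc, ← pow_add]
      congr 2
      ring
    rw [e1]
    refine le_trans (le_of_eq ?_) h1
    congr 2
    rw [hS, sum_product]
    refine sum_congr rfl fun i _ => sum_congr rfl fun j _ => ?_
    rw [Heis.mul_x, Heis.mul_y, Heis.pow_x, Heis.pow_y]
    congr 2
    simp only [hα, hβ]
    push_cast
    ring
  · intro l
    have h1 := hcF' (g ^ (q * l) * y)
    have e1 : g ^ (q * (l + d * r)) * y = g ^ (q * (d * r)) * (g ^ (q * l) * y) := by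
      rw [← mul_assoc, ← pow_add]
      congr 2
      ring
    rw [e1]
    refine le_trans (le_of_eq ?_) h1
    congr 2
    rw [hS, sum_product]
    refine sum_congr rfl fun i _ => sum_congr rfl fun j _ => ?_
    rw [Heis.mul_x, Heis.mul_y, Heis.pow_x, Heis.pow_y]
    congr 2
    simp only [hα', hβ']
    push_cast
    ring

end F1x

open F1x in
/-- **Row F1.** -/
theorem rowF1 (h0 : F0_stmt) : F1_stmt := by
  intro m F hm hF R hR p q hp hq hpq η hη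
  obtain ⟨B₁, hB₁0, hB₁⟩ := reg_bound hF.1
  set B : ℝ := max B₁ 1 with hBdef
  have hB1 : 1 ≤ B := le_max_right _ _
  have hB : ∀ g, ‖F g‖ ≤ B := fun g => (hB₁ g).trans (le_max_left _ _)
  have hB2 : (1 : ℝ) ≤ B ^ 2 := one_le_pow₀ hB1
  have hBpos : 0 < B ^ 2 := by linarith
  set ε : ℝ := min 1 (η / (2 * B ^ 2)) with hεdef
  have hε0 : 0 < ε := lt_min one_pos (by positivity)
  have hε1 : ε ≤ 1 := min_le_left _ _
  have hε2 : ε * B ^ 2 ≤ η / 2 := by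
    have h1 : ε ≤ η / (2 * B ^ 2) := min_le_right _ _
    calc ε * B ^ 2 ≤ η / (2 * B ^ 2) * B ^ 2 := mul_le_mul_of_nonneg_right h1 hBpos.le
      _ = η / 2 := by field_simp
  have hε20 : 0 < ε ^ 2 := by positivity
  have hε21 : ε ^ 2 ≤ 1 := pow_le_one₀ hε0.le hε1
  obtain ⟨M, C₀, hC₀, hexp⟩ := h0 m F hF (ε ^ 2 / 1024) (by positivity)
  set Rv : ℕ := ⌈32 / ε ^ 2⌉₊ with hRv
  have hRv1 : 32 ≤ ε ^ 2 * Rv := by
    have h1 : 32 / ε ^ 2 ≤ Rv := Nat.le_ceil _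
    rw [div_le_iff₀ hε20] at h1
    linarith
  set K : ℝ := (M : ℝ) + |(m : ℝ)| + 1 with hK
  have hK1 : 1 ≤ K := by
    rw [hK]
    have h1 : (0 : ℝ) ≤ M := Nat.cast_nonneg _
    linarith [abs_nonneg (m : ℝ)]
  set C₁ : ℝ := |(m : ℝ)| * |(p : ℝ) ^ 2 - (q : ℝ) ^ 2| * (Rv * (K + R)) +
    ((p : ℝ) + q) * (M + |(m : ℝ)|) with hC₁
  set C : ℕ := ⌈C₁⌉₊ + ⌈256 * Rv * K / ε ^ 2⌉₊ +
    ⌈64 * (((2 * M + 1 : ℝ) ^ 2) ^ 2 * C₀ ^ 2) / ε ^ 2⌉₊ + 1 with hC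
  have hCa : C₁ ≤ C := by
    have h1 : C₁ ≤ ⌈C₁⌉₊ := Nat.le_ceil _
    refine h1.trans ?_
    exact_mod_cast (by omega : ⌈C₁⌉₊ ≤ C)
  have hCb : 256 * Rv * K ≤ ε ^ 2 * C := by
    have h1 : 256 * Rv * K / ε ^ 2 ≤ ⌈256 * Rv * K / ε ^ 2⌉₊ := Nat.le_ceil _
    have h2 : (⌈256 * Rv * K / ε ^ 2⌉₊ : ℝ) ≤ C := by
      exact_mod_cast (by omega : ⌈256 * Rv * K / ε ^ 2⌉₊ ≤ C)
    have h3 := h1.trans h2
    rw [div_le_iff₀ hε20] at h3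
    linarith
  have hCc : 64 * (((2 * M + 1 : ℝ) ^ 2) ^ 2 * C₀ ^ 2) ≤ ε ^ 2 * C := by
    have h1 : 64 * (((2 * M + 1 : ℝ) ^ 2) ^ 2 * C₀ ^ 2) / ε ^ 2 ≤
      ⌈64 * (((2 * M + 1 : ℝ) ^ 2) ^ 2 * C₀ ^ 2) / ε ^ 2⌉₊ := Nat.le_ceil _
    have h2 : (⌈64 * (((2 * M + 1 : ℝ) ^ 2) ^ 2 * C₀ ^ 2) / ε ^ 2⌉₊ : ℝ) ≤ C := by
      exact_mod_cast
        (by omega : ⌈64 * (((2 * M + 1 : ℝ) ^ 2) ^ 2 * C₀ ^ 2) / ε ^ 2⌉₊ ≤ C)
    have h3 := h1.trans h2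
    rw [div_le_iff₀ hε20] at h3
    linarith
  have hC1 : 1 ≤ C := by omega
  have hCpos : (0 : ℝ) < C := by exact_mod_cast hC1
  set L₀ : ℕ := ⌈256 * Rv / ε ^ 2⌉₊ + 1 with hL₀
  refine ⟨C, L₀, hC1, fun L hL g x y hgx hgy hbig => ?_⟩
  by_contra hcon
  have hL1 : 1 ≤ L := by omega
  have hLpos : (0 : ℝ) < L := by exact_mod_cast hL1
  have hLa : 256 * (Rv : ℝ) ≤ ε ^ 2 * L := by
    have h1 : 256 * Rv / ε ^ 2 ≤ ⌈256 * Rv / ε ^ 2⌉₊ := Nat.le_ceil _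
    have h2 : (⌈256 * Rv / ε ^ 2⌉₊ : ℝ) ≤ L := by
      exact_mod_cast (by omega : ⌈256 * Rv / ε ^ 2⌉₊ ≤ L)
    have h3 := h1.trans h2
    rw [div_le_iff₀ hε20] at h3
    linarith
  have hno : ∀ a b z : ℤ, (a ≠ 0 ∨ b ≠ 0) → |a| ≤ (C : ℤ) → |b| ≤ (C : ℤ) →
      (C : ℝ) / L < |a * g.x + b * g.y - z| := by
    intro a b z h1 h2 h3
    by_contra h4
    exact hcon ⟨a, b, z, h1, h2, h3, not_lt.1 h4⟩
  -- the horizontal part is not too small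
  set μ : ℝ := max |g.x| |g.y| with hμ
  have hμC : (C : ℝ) / L < μ := by
    have h1 := hno 1 0 0 (Or.inl one_ne_zero) (by rw [abs_one]; exact_mod_cast hC1)
      (by rw [abs_zero]; positivity)
    have e : |((1 : ℤ) : ℝ) * g.x + ((0 : ℤ) : ℝ) * g.y - ((0 : ℤ) : ℝ)| = |g.x| := by
      congr 1
      push_cast
      ring
    rw [e] at h1
    exact h1.trans_le (le_max_left _ _)
  have hμ0 : 0 < μ := (by positivity : (0 : ℝ) < (C : ℝ) / L).trans hμC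
  have hμR : μ ≤ R := max_le hgx hgy
  set d : ℕ := ⌈K / μ⌉₊ with hd
  have hd1 : K ≤ d * μ := by
    have h1 : K / μ ≤ d := Nat.le_ceil _
    rwa [div_le_iff₀ hμ0] at h1
  have hd2 : (d : ℝ) < K / μ + 1 := Nat.ceil_lt_add_one (by positivity)
  have hd3 : (d : ℝ) * μ ≤ K + R := by
    have h1 : (d : ℝ) * μ ≤ (K / μ + 1) * μ := mul_le_mul_of_nonneg_right hd2.le hμ0.le
    have h2 : (K / μ + 1) * μ = K + μ := by field_simp
    linarith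
  have hd4 : (d : ℝ) ≤ K * (L / C) + 1 := by
    have h1 : K / μ ≤ K * (L / C) := by
      rw [div_le_iff₀ hμ0]
      have h2 : (1 : ℝ) ≤ L / C * μ := by
        have h3 : (C : ℝ) < μ * L := by rwa [div_lt_iff₀ hLpos] at hμC
        rw [div_mul_eq_mul_div, le_div_iff₀ hCpos]
        linarith
      calc K = K * 1 := (mul_one _).symm
        _ ≤ K * (L / C * μ) := mul_le_mul_of_nonneg_left h2 (by linarith)
        _ = _ := by ring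
    linarith
  -- van der Corput
  have hvdc := Pool.Agent.Lib.MP_663568_nt.Q.vdcA
    (fun l => ((B ^ 2 : ℝ) : ℂ)⁻¹ * (F (g ^ (p * l) * x) * (starRingEnd ℂ) (F (g ^ (q * l) * y))))
    ?_ ε hε0 hε1 d Rv L ∅ hRv1 ?_ hLpos ?_ ?_
  · rw [← mul_sum, norm_mul, norm_inv, Complex.norm_real, Real.norm_of_nonneg hBpos.le] at hvdc
    have h1 : ‖∑ l ∈ Icc 1 L, F (g ^ (p * l) * x) * (starRingEnd ℂ) (F (g ^ (q * l) * y))‖ ≤
        ε * L * B ^ 2 := by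
      rw [inv_mul_le_iff₀ hBpos] at hvdc
      linarith
    have h2 : ε * L * B ^ 2 ≤ η / 2 * L := by
      calc ε * L * B ^ 2 = ε * B ^ 2 * L := by ring
        _ ≤ η / 2 * L := mul_le_mul_of_nonneg_right hε2 hLpos.le
    have h3 : 0 < η * L := mul_pos hη hLpos
    linarith
  · intro n
    rw [norm_mul, norm_inv, Complex.norm_real, Real.norm_of_nonneg hBpos.le, norm_mul,
      RCLike.norm_conj, inv_mul_le_iff₀ hBpos, mul_one, sq]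
    exact mul_le_mul (hB _) (hB _) (norm_nonneg _) (by linarith)
  · have hRv0 : (0 : ℝ) ≤ Rv := Nat.cast_nonneg _
    have h1 : 128 * ((d : ℝ) * Rv) ≤ 128 * ((K * (L / C) + 1) * Rv) :=
      mul_le_mul_of_nonneg_left (mul_le_mul_of_nonneg_right hd4 hRv0) (by norm_num)
    have h2 : 128 * ((K * (L / C) + 1) * Rv) = 128 * Rv * K * (L / C) + 128 * Rv := by ring
    have h3 : 256 * Rv * K * (L / C) ≤ ε ^ 2 * L := by
      calc 256 * Rv * K * (L / C) ≤ ε ^ 2 * C * (L / C) :=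
            mul_le_mul_of_nonneg_right hCb (by positivity)
        _ = ε ^ 2 * L := by field_simp
    linarith
  · simp only [card_empty, Nat.cast_zero, mul_zero]
    positivity
  · intro r hr _
    rw [mem_Icc] at hr
    have hcorr := corr m hm F B hB1 hB p q M hp hpq C₀ (ε ^ 2 / 1024) (by positivity)
      (by linarith) hexp g x y d r Rv L C hr.1 hr.2 (K + R) hd1 hd3 hCa hC1 hL1 hno
    have e1 : ∑ l ∈ Icc 1 L,
        (fun l => ((B ^ 2 : ℝ) : ℂ)⁻¹ *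
          (F (g ^ (p * l) * x) * (starRingEnd ℂ) (F (g ^ (q * l) * y)))) (l + d * r) *
        (starRingEnd ℂ) ((fun l => ((B ^ 2 : ℝ) : ℂ)⁻¹ *
          (F (g ^ (p * l) * x) * (starRingEnd ℂ) (F (g ^ (q * l) * y)))) l) =
        ((B ^ 2 : ℝ) : ℂ)⁻¹ * ((B ^ 2 : ℝ) : ℂ)⁻¹ *
        ∑ l ∈ Icc 1 L, (F (g ^ (p * (l + d * r)) * x) * (starRingEnd ℂ) (F (g ^ (p * l) * x))) *
          (starRingEnd ℂ)
            (F (g ^ (q * (l + d * r)) * y) * (starRingEnd ℂ) (F (g ^ (q * l) * y))) := by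
      rw [mul_sum]
      refine sum_congr rfl fun l _ => ?_
      simp only [map_mul, map_inv₀, Complex.conj_ofReal, Complex.conj_conj]
      ring
    rw [e1, norm_mul, norm_mul, norm_inv, Complex.norm_real, Real.norm_of_nonneg hBpos.le,
      mul_assoc, inv_mul_le_iff₀ hBpos, inv_mul_le_iff₀ hBpos]
    refine hcorr.trans ?_
    have h1 : ((2 * M + 1 : ℝ) ^ 2) ^ 2 * C₀ ^ 2 * (1 / (2 * ((C : ℝ) / L))) ≤
        ε ^ 2 / 128 * L := by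
      have e2 : ((2 * M + 1 : ℝ) ^ 2) ^ 2 * C₀ ^ 2 * (1 / (2 * ((C : ℝ) / L))) =
          64 * (((2 * M + 1 : ℝ) ^ 2) ^ 2 * C₀ ^ 2) * (L / (128 * C)) := by
        field_simp
        ring
      rw [e2]
      calc _ ≤ ε ^ 2 * C * (L / (128 * C)) := mul_le_mul_of_nonneg_right hCc (by positivity)
        _ = _ := by field_simp
    have h2 : (L : ℝ) * (ε ^ 2 / 1024 * (3 * B ^ 2)) ≤ ε ^ 2 / 128 * L * B ^ 2 := by
      have h3 : 0 ≤ ε ^ 2 * L * B ^ 2 := by positivity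
      have e3 : (L : ℝ) * (ε ^ 2 / 1024 * (3 * B ^ 2)) = 3 / 1024 * (ε ^ 2 * L * B ^ 2) := by ring
      have e4 : ε ^ 2 / 128 * L * B ^ 2 = 8 / 1024 * (ε ^ 2 * L * B ^ 2) := by ring
      rw [e3, e4]
      linarith
    have h4 : 0 ≤ ε ^ 2 * (L : ℝ) := by positivity
    have h5 : ε ^ 2 * (L : ℝ) ≤ ε ^ 2 * L * B ^ 2 := by
      calc ε ^ 2 * (L : ℝ) = ε ^ 2 * L * 1 := (mul_one _).symm
        _ ≤ _ := mul_le_mul_of_nonneg_left hB2 h4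
    have h6 : ε ^ 2 * L * B ^ 2 ≤ ε ^ 2 * L * B ^ 2 * B ^ 2 := by
      calc ε ^ 2 * (L : ℝ) * B ^ 2 = ε ^ 2 * L * B ^ 2 * 1 := (mul_one _).symm
        _ ≤ _ := mul_le_mul_of_nonneg_left hB2 (by positivity)
    have e5 : B ^ 2 * (B ^ 2 * (ε ^ 2 / 64 * L)) = 1 / 64 * (ε ^ 2 * L * B ^ 2 * B ^ 2) := by ring
    rw [e5]
    have e6 : ε ^ 2 / 128 * (L : ℝ) = 1 / 128 * (ε ^ 2 * L) := by ring
    have e7 : ε ^ 2 / 128 * (L : ℝ) * B ^ 2 = 1 / 128 * (ε ^ 2 * L * B ^ 2) := by ring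
    rw [e6] at h1
    rw [e7] at h2
    linarith

end Pool.Agent.HB
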