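import Pool.Agent.Lib.HB.Tr

/-!
# Row G: one long sum is small
-/

set_option autoImplicit false
open Finset MeasureTheory Polynomial

namespace Pool.Agent.HB

open Pool.Agent.Lib.MP_663568_nt Pool.Agent.Lib.MP_663568_nt.Katai
  Pool.Agent.Lib.MP_663568_nt.Nul Pool.Agent.Lib.MP_663568_nt.Fib

namespace Gx

/-- The sum over a shifted interval. -/
lemma sum_shift (u : ℕ → ℂ) (n L : ℕ) :
    ∑ x ∈ Icc 1 (n + L), u x = ∑ x ∈ Icc 1 n, u x + ∑ h ∈ Icc 1 L, u (n + h) := by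
  induction L with
  | zero => simp
  | succ L ih =>
    rw [← add_assoc, Finset.sum_Icc_succ_top (by omega), Finset.sum_Icc_succ_top (by omega), ih]
    ring_nf

lemma blocks (u : ℕ → ℂ) (L J : ℕ) :
    ‖∑ x ∈ Icc 1 (J * L), u x‖ ≤ ∑ j ∈ range J, ‖∑ h ∈ Icc 1 L, u (j * L + h)‖ := by
  induction J with
  | zero => simp
  | succ J ih =>
    rw [add_mul, one_mul, sum_shift, Finset.sum_range_succ]
    exact (norm_add_le _ _).trans (add_le_add ih le_rfl)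

lemma norm_sum_le' (u : ℕ → ℂ) (B : ℝ) (hu : ∀ n, ‖u n‖ ≤ B) (n L : ℕ) :
    ‖∑ h ∈ Icc 1 L, u (n + h)‖ ≤ L * B := by
  refine (norm_sum_le _ _).trans ((sum_le_sum fun h _ => hu (n + h)).trans ?_)
  simp

/-- The quadratic phases on an interval inside `[1, Z]`. -/
lemma WQ_long (hH : TU.H_stmt) (ε : ℝ) (hε : 0 < ε) : ∃ X₀ : ℕ, ∀ X : ℕ, X₀ ≤ X →
    ∀ n L : ℕ, n + L ≤ X → ∀ A : Set ℝ, WQ A L n ≤ ε * X := by
  obtain ⟨X₀, hX₀⟩ := hH 2 (ε / 4) (by positivity)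
  refine ⟨⌈(X₀ : ℝ) / (ε / 4)⌉₊, fun X hX n L hnL A => WQ_le (by positivity) fun a _ β => ?_⟩
  have hX₀X : (X₀ : ℝ) ≤ ε / 4 * X := by
    have h1 : (X₀ : ℝ) / (ε / 4) ≤ X := (Nat.le_ceil _).trans (by exact_mod_cast hX)
    rw [div_le_iff₀ (by positivity)] at h1
    linarith
  obtain ⟨P, hP⟩ : ∃ P : ℝ[X], P = C a * (Polynomial.X - C (n : ℝ)) ^ 2 +
    C β * (Polynomial.X - C (n : ℝ)) := ⟨_, rfl⟩
  have hdeg : P.natDegree ≤ 2 := by
    rw [hP]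
    compute_degree
  have hev : ∀ x : ℝ, P.eval x = a * (x - n) ^ 2 + β * (x - n) := by
    intro x
    rw [hP]
    simp
  have hY : ∀ Y : ℕ, Y ≤ X → ‖∑ x ∈ Icc 1 Y, muC x * ee (P.eval (x : ℝ))‖ ≤ ε / 4 * X := by
    intro Y hYX
    by_cases h : X₀ ≤ Y
    · refine (hX₀ Y h P hdeg).trans ?_
      have : (Y : ℝ) ≤ X := by exact_mod_cast hYX
      gcongr
    · have h1 := norm_sum_le' (fun x => muC x * ee (P.eval (x : ℝ))) 1 (fun x => by
        rw [norm_mul, norm_ee, mul_one]; exact norm_muC x) 0 Y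
      simp only [zero_add, mul_one] at h1
      refine h1.trans (le_trans ?_ hX₀X)
      exact_mod_cast (not_le.1 h).le
  have e : ∑ h ∈ Icc 1 L, muC (n + h) * ee (a * (h : ℝ) ^ 2 + β * (h : ℝ)) =
      ∑ x ∈ Icc 1 (n + L), muC x * ee (P.eval (x : ℝ)) -
        ∑ x ∈ Icc 1 n, muC x * ee (P.eval (x : ℝ)) := by
    rw [sum_shift, add_sub_cancel_left]
    refine sum_congr rfl fun h _ => ?_
    rw [hev]
    push_cast
    rw [add_sub_cancel_left]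
  rw [e]
  refine (norm_sub_le _ _).trans ?_
  have h1 := hY (n + L) hnL
  have h2 := hY n (by omega)
  have h3 : 0 ≤ ε * X := by positivity
  linarith

/-- One line. -/
lemma one_line (hC : C_stmt) (hE : E_stmt) (hH : TU.H_stmt) (m : ℤ) (F : Heis → ℂ)
    (hF : Ver m F) (a b z : ℤ) (hab : a ≠ 0 ∨ b ≠ 0) (C : ℕ) (hC1 : 1 ≤ C) (ε : ℝ) (hε : 0 < ε) :
    ∃ X₀ : ℕ, ∀ X : ℕ, X₀ ≤ X → ∀ g x : Heis, |a * g.x + b * g.y - z| ≤ (C : ℝ) / X →
      ‖∑ n ∈ Icc 1 X, muC n * F (g ^ n * x)‖ ≤ ε * X := by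
  obtain ⟨κ, hκ, p, q, r, s, hdet, ha, hb⟩ := line_data a b hab
  obtain ⟨σ, hσ1, hσ2, hσx, hσy, hσc, hσG⟩ := hE p q r s hdet
  obtain ⟨B, hB0, hB⟩ := reg_bound hF.1
  have hF' := ver_symm hF σ hσ2 hσc hσG
  obtain ⟨ρ, hρ, C₁, hC₁, hmain⟩ := hC m _ hF' κ z hκ (ε / 4) (by positivity)
  have hCr : (1 : ℝ) ≤ C := by exact_mod_cast hC1
  have hC0 : (0 : ℝ) < C := by linarith
  obtain ⟨ρ', hρ'⟩ : ∃ ρ' : ℝ, ρ' = min (min ρ C) (ε * C / (4 * B)) := ⟨_, rfl⟩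
  have hρ'0 : 0 < ρ' := by
    rw [hρ']
    exact lt_min (lt_min hρ hC0) (by positivity)
  have hρ'1 : ρ' ≤ ρ := by rw [hρ']; exact (min_le_left _ _).trans (min_le_left _ _)
  have hρ'2 : ρ' ≤ C := by rw [hρ']; exact (min_le_left _ _).trans (min_le_right _ _)
  have hρ'3 : ρ' / C * B ≤ ε / 4 := by
    have h1 : ρ' ≤ ε * C / (4 * B) := by rw [hρ']; exact min_le_right _ _
    rw [le_div_iff₀ (by positivity)] at h1
    rw [div_mul_eq_mul_div, div_le_iff₀ hC0]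
    linarith
  obtain ⟨ε₂, hε₂⟩ : ∃ ε₂ : ℝ, ε₂ = ε * ρ' / (8 * C * C₁) := ⟨_, rfl⟩
  have hε₂0 : 0 < ε₂ := by rw [hε₂]; positivity
  obtain ⟨X₁, hX₁⟩ := WQ_long hH ε₂ hε₂0
  refine ⟨X₁ + ⌈2 * C / ρ'⌉₊ + 1, fun X hX g x hg => ?_⟩
  have hX1 : (1 : ℝ) ≤ X := by exact_mod_cast (by omega : 1 ≤ X)
  have hX0 : (0 : ℝ) < X := by linarith
  have hXρ : 2 * C / ρ' ≤ X :=
    (Nat.le_ceil _).trans (by exact_mod_cast (by omega : ⌈2 * (C : ℝ) / ρ'⌉₊ ≤ X))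
  obtain ⟨L, hL⟩ : ∃ L : ℕ, L = ⌊ρ' * X / C⌋₊ := ⟨_, rfl⟩
  have hLle : (L : ℝ) ≤ ρ' * X / C := by rw [hL]; exact Nat.floor_le (by positivity)
  have h2 : (2 : ℝ) ≤ ρ' * X / C := by
    rw [le_div_iff₀ hC0]
    rw [div_le_iff₀ hρ'0] at hXρ
    linarith
  have hLge : ρ' * X / (2 * C) ≤ L := by
    have h1 : ρ' * X / C < L + 1 := by rw [hL]; exact Nat.lt_floor_add_one _
    have e1 : ρ' * X / (2 * C) = (ρ' * X / C) / 2 := by field_simp
    rw [e1]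
    linarith
  have hL1 : 1 ≤ L := by
    rw [hL]
    exact Nat.le_floor (by push_cast; linarith)
  have hL0 : (0 : ℝ) < L := by exact_mod_cast hL1
  obtain ⟨J, hJ⟩ : ∃ J : ℕ, J = X / L := ⟨_, rfl⟩
  have hJL : J * L ≤ X := by rw [hJ]; exact Nat.div_mul_le_self _ _
  obtain ⟨T, hT⟩ : ∃ T : ℕ, X = J * L + T := ⟨X - J * L, by omega⟩
  have hTL : T < L := by
    have h1 : X < J * L + L := by rw [hJ]; exact Nat.lt_div_mul_add (by omega)
    omega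
  set u : ℕ → ℂ := fun n => muC n * F (g ^ n * x) with hu
  have hub : ∀ n, ‖u n‖ ≤ B := by
    intro n
    rw [hu]
    beta_reduce
    rw [norm_mul]
    calc _ ≤ 1 * ‖F (g ^ n * x)‖ := mul_le_mul_of_nonneg_right (norm_muC _) (norm_nonneg _)
      _ ≤ B := by rw [one_mul]; exact hB _
  -- one block
  have hgy : |(σ g).y - (z : ℝ) / κ| ≤ (C : ℝ) / X := by
    have hκr : (1 : ℝ) ≤ κ := by exact_mod_cast hκ
    have hκ0 : (0 : ℝ) < κ := by linarith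
    have e1 : (κ : ℝ) * ((σ g).y - (z : ℝ) / κ) = a * g.x + b * g.y - z := by
      rw [hσy, mul_sub, mul_div_cancel₀ _ hκ0.ne', ha, hb]
      push_cast
      ring
    have e2 : (κ : ℝ) * |(σ g).y - (z : ℝ) / κ| = |a * g.x + b * g.y - z| := by
      rw [← e1, abs_mul, abs_of_pos hκ0]
    calc |(σ g).y - (z : ℝ) / κ| ≤ κ * |(σ g).y - (z : ℝ) / κ| :=
          le_mul_of_one_le_left (abs_nonneg _) hκr
      _ ≤ _ := by rw [e2]; exact hg
  have hblock : ∀ j ∈ range J, ‖∑ h ∈ Icc 1 L, u (j * L + h)‖ ≤ ε / 4 * L + C₁ * (ε₂ * X) := by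
    intro j hj
    rw [mem_range] at hj
    have e1 : ∑ h ∈ Icc 1 L, u (j * L + h) =
        ∑ h ∈ Icc 1 L, muC (j * L + h) * F (σ.symm ((σ g) ^ h * σ (g ^ (j * L) * x))) := by
      refine sum_congr rfl fun h _ => ?_
      rw [hu]
      beta_reduce
      rw [add_comm (j * L) h, pow_add, mul_assoc, ← apply_transport F σ]
    rw [e1]
    have h3 : (L : ℝ) * |(σ g).y - (z : ℝ) / κ| ≤ ρ := by
      calc (L : ℝ) * |(σ g).y - (z : ℝ) / κ| ≤ ρ' * X / C * (C / X) :=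
            mul_le_mul hLle hgy (abs_nonneg _) (by positivity)
        _ = ρ' := by field_simp
        _ ≤ ρ := hρ'1
    have h4 := hmain (σ g) (σ (g ^ (j * L) * x)) (j * L) L h3
    refine h4.trans (add_le_add le_rfl (mul_le_mul_of_nonneg_left ?_ hC₁.le))
    refine hX₁ X (by omega) (j * L) L ?_ _
    have h5 : (j + 1) * L ≤ J * L := Nat.mul_le_mul_right _ hj
    have h6 : (j + 1) * L = j * L + L := by ring
    omega
  have hfin : ‖∑ n ∈ Icc 1 X, u n‖ ≤ J * (ε / 4 * L + C₁ * (ε₂ * X)) + T * B := by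
    rw [hT, sum_shift]
    refine (norm_add_le _ _).trans (add_le_add ?_ (norm_sum_le' u B hub _ _))
    refine (blocks u L J).trans ((sum_le_sum hblock).trans ?_)
    rw [← hT, sum_const, card_range, nsmul_eq_mul]
  refine hfin.trans ?_
  have hJr : (J : ℝ) * L ≤ X := by exact_mod_cast hJL
  have hJ2 : (J : ℝ) * ρ' ≤ 2 * C := by
    have h5 : (J : ℝ) * (ρ' * X / (2 * C)) ≤ X :=
      (mul_le_mul_of_nonneg_left hLge (Nat.cast_nonneg J)).trans hJr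
    have e5 : (J : ℝ) * (ρ' * X / (2 * C)) = (J * ρ' / (2 * C)) * X := by ring
    rw [e5] at h5
    have h6 : (J : ℝ) * ρ' / (2 * C) ≤ 1 := by
      by_contra hcon
      push Not at hcon
      nlinarith
    rwa [div_le_one (by positivity)] at h6
  have hterm2 : (J : ℝ) * (C₁ * (ε₂ * X)) ≤ ε / 4 * X := by
    have e6 : (J : ℝ) * (C₁ * (ε₂ * X)) = (J * ρ') * (ε / (8 * C) * X) := by
      rw [hε₂]
      field_simp
    rw [e6]
    calc (J : ℝ) * ρ' * (ε / (8 * C) * X) ≤ 2 * C * (ε / (8 * C) * X) :=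
          mul_le_mul_of_nonneg_right hJ2 (by positivity)
      _ = ε / 4 * X := by field_simp; ring
  have hterm3 : (T : ℝ) * B ≤ ε / 4 * X := by
    have h7 : (T : ℝ) ≤ L := by exact_mod_cast hTL.le
    calc (T : ℝ) * B ≤ ρ' * X / C * B := mul_le_mul_of_nonneg_right (h7.trans hLle) hB0.le
      _ = ρ' / C * B * X := by ring
      _ ≤ _ := mul_le_mul_of_nonneg_right hρ'3 hX0.le
  have hterm1 : (J : ℝ) * (ε / 4 * L) ≤ ε / 4 * X := by
    calc (J : ℝ) * (ε / 4 * L) = ε / 4 * (J * L) := by ring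
      _ ≤ _ := mul_le_mul_of_nonneg_left hJr (by positivity)
  have h8 : 0 ≤ ε * X := by positivity
  rw [mul_add]
  linarith

end Gx

open Gx in
theorem rowG (hF : F_stmt) (hC : C_stmt) (hE : E_stmt) (hH : TU.H_stmt) : G_stmt := by
  intro m F hm hV R hR ε hε
  obtain ⟨C, X₁, hC1, hrel⟩ := hF m F hm hV R hR ε hε
  have hCr : (1 : ℝ) ≤ C := by exact_mod_cast hC1
  have hline : ∀ v : ℤ × ℤ × ℤ, ∃ X₀ : ℕ, (v.1 ≠ 0 ∨ v.2.1 ≠ 0) → ∀ X : ℕ, X₀ ≤ X →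
      ∀ g x : Heis, |v.1 * g.x + v.2.1 * g.y - v.2.2| ≤ (C : ℝ) / X →
      ‖∑ n ∈ Icc 1 X, muC n * F (g ^ n * x)‖ ≤ ε * X := by
    rintro ⟨a, b, z⟩
    by_cases hab : a ≠ 0 ∨ b ≠ 0
    · obtain ⟨X₀, hX₀⟩ := one_line hC hE hH m F hV a b z hab C hC1 ε hε
      exact ⟨X₀, fun _ => hX₀⟩
    · exact ⟨0, fun h => absurd h hab⟩
  choose X₀ hX₀ using hline
  obtain ⟨Z, hZ⟩ : ∃ Z : ℤ, Z = ⌈2 * C * R + C⌉ := ⟨_, rfl⟩
  set I : Finset (ℤ × ℤ × ℤ) := Icc (-(C : ℤ)) C ×ˢ (Icc (-(C : ℤ)) C ×ˢ Icc (-Z) Z) with hI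
  refine ⟨X₁ + 1 + ∑ v ∈ I, X₀ v, fun X hX g x hgx hgy => ?_⟩
  by_contra hcon
  push Not at hcon
  have hX1 : (1 : ℝ) ≤ X := by exact_mod_cast (by omega : 1 ≤ X)
  obtain ⟨a, b, z, hab, ha, hb, hz⟩ := hrel X (by omega) g x hgx hgy hcon
  have hzZ : |z| ≤ Z := by
    have h1 : |(z : ℝ)| ≤ 2 * C * R + C := by
      have har : |(a : ℝ)| ≤ C := by exact_mod_cast ha
      have hbr : |(b : ℝ)| ≤ C := by exact_mod_cast hb
      have h2 : |a * g.x| ≤ C * R := by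
        rw [abs_mul]; exact mul_le_mul har hgx (abs_nonneg _) (by linarith)
      have h3 : |b * g.y| ≤ C * R := by
        rw [abs_mul]; exact mul_le_mul hbr hgy (abs_nonneg _) (by linarith)
      have h4 : (C : ℝ) / X ≤ C := div_le_self (by linarith) hX1
      have e1 : (z : ℝ) = a * g.x + b * g.y - (a * g.x + b * g.y - z) := by ring
      rw [e1]
      calc _ ≤ |a * g.x + b * g.y| + |a * g.x + b * g.y - z| := abs_sub _ _
        _ ≤ (|a * g.x| + |b * g.y|) + |a * g.x + b * g.y - z| :=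
            add_le_add (abs_add_le _ _) le_rfl
        _ ≤ _ := by linarith
    have h5 : ((|z| : ℤ) : ℝ) ≤ 2 * C * R + C := by push_cast; exact h1
    rw [hZ]
    have h6 : ((|z| : ℤ) : ℝ) ≤ ((⌈2 * (C : ℝ) * R + C⌉ : ℤ) : ℝ) := h5.trans (Int.le_ceil _)
    exact_mod_cast h6
  have hmem : ((a, b, z) : ℤ × ℤ × ℤ) ∈ I := by
    rw [hI, mem_product, mem_product, mem_Icc, mem_Icc, mem_Icc]
    exact ⟨abs_le.1 ha, abs_le.1 hb, abs_le.1 hzZ⟩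
  have hle : X₀ (a, b, z) ≤ ∑ v ∈ I, X₀ v := single_le_sum (fun _ _ => Nat.zero_le _) hmem
  exact absurd (hX₀ (a, b, z) hab X (by omega) g x hz) (not_le.2 hcon)

end Pool.Agent.HB
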