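import Pool.Agent.Lib.HB.K

/-!
# Row H (MP_663568_nt): from short windows to long windows.  helper27
-/

set_option autoImplicit false
open Finset MeasureTheory

namespace Pool.Agent.HB

open Pool.Agent.Lib.MP_663568_nt Pool.Agent.Lib.MP_663568_nt.Katai
  Pool.Agent.Lib.MP_663568_nt.Nul Pool.Agent.Lib.MP_663568_nt.Fib

lemma shift_sumB (u : ℕ → ℂ) {B : ℝ} (hu : ∀ m, ‖u m‖ ≤ B) (M k : ℕ) (hk : 1 ≤ k) :
    ‖∑ a ∈ range M, u (a + k) - ∑ m ∈ Icc 1 M, u m‖ ≤ 2 * k * B := by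
  have hB0 : 0 ≤ B := (norm_nonneg _).trans (hu 0)
  have e2 : ∑ m ∈ Icc 1 M, u m = ∑ a ∈ range M, u (a + 1) := by
    rw [Finset.range_eq_Ico, Finset.sum_Ico_add' u 0 M 1]
    rfl
  rw [e2]
  obtain ⟨j, rfl⟩ : ∃ j, k = j + 1 := ⟨k - 1, by omega⟩
  clear hk
  induction j with
  | zero =>
    simp only [zero_add, sub_self, norm_zero]
    positivity
  | succ j ih =>
    have e3 : ∑ a ∈ range M, u (a + (j + 1 + 1)) - ∑ a ∈ range M, u (a + (j + 1)) =
        u (M + (j + 1)) - u (0 + (j + 1)) := by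
      rw [← sum_sub_distrib, ← Finset.sum_range_sub (fun a => u (a + (j + 1))) M]
      refine sum_congr rfl fun a _ => ?_
      rw [show a + (j + 1 + 1) = a + 1 + (j + 1) by ring]
    have e4 : ∑ a ∈ range M, u (a + (j + 1 + 1)) - ∑ a ∈ range M, u (a + 1) =
        (∑ a ∈ range M, u (a + (j + 1 + 1)) - ∑ a ∈ range M, u (a + (j + 1))) +
        (∑ a ∈ range M, u (a + (j + 1)) - ∑ a ∈ range M, u (a + 1)) := by ring
    rw [e4, e3]
    refine (norm_add_le _ _).trans ?_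
    have h1 : ‖u (M + (j + 1)) - u (0 + (j + 1))‖ ≤ B + B :=
      (norm_sub_le _ _).trans (add_le_add (hu _) (hu _))
    push_cast at ih ⊢
    linarith

lemma sum_shift' (f : ℕ → ℂ) (n L : ℕ) :
    ∑ h ∈ Icc 1 L, f (n + h) = ∑ k ∈ Icc 1 (n + L), f k - ∑ k ∈ Icc 1 n, f k := by
  induction L with
  | zero => simp
  | succ L ih =>
    rw [Finset.sum_Icc_succ_top (by omega), ih, ← add_assoc n L 1, Finset.sum_Icc_succ_top (by omega)]
    ring

lemma term_le {F : Heis → ℂ} {B : ℝ} (hB : ∀ g, ‖F g‖ ≤ B) (k : ℕ) (g : Heis) :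
    ‖muC k * F g‖ ≤ B := by
  rw [norm_mul]
  calc _ ≤ 1 * ‖F g‖ := mul_le_mul_of_nonneg_right (norm_muC _) (norm_nonneg _)
    _ ≤ B := by rw [one_mul]; exact hB g

/-- A long window is an average of short ones. -/
lemma WH_avg {F : Heis → ℂ} {B : ℝ} (hB : ∀ g, ‖F g‖ ≤ B) (S : Set Heis) (L l n : ℕ) (hl : 1 ≤ l) :
    WH F S L n ≤ (1 / (l : ℝ)) * ∑ j ∈ range L, WH F S l (n + j) + 2 * l * B := by
  have hB0 : 0 ≤ B := (norm_nonneg _).trans (hB 1)
  have hl' : (1 : ℝ) ≤ l := by exact_mod_cast hl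
  have hs : 0 ≤ ∑ j ∈ range L, WH F S l (n + j) := sum_nonneg fun _ _ => WH_nonneg _ _ _ _
  refine WH_le (by positivity) fun g hg x => ?_
  obtain ⟨u, hu⟩ : ∃ u : ℕ → ℂ, ∀ m, u m = muC (n + m) * F (g ^ m * x) := ⟨_, fun _ => rfl⟩
  have hu1 : ∀ m, ‖u m‖ ≤ B := fun m => by rw [hu]; exact term_le hB _ _
  have h1 : ‖∑ i ∈ Icc 1 l, ∑ a ∈ range L, u (a + i) - l * ∑ m ∈ Icc 1 L, u m‖ ≤
      2 * l * B * l := by
    have e : (l : ℂ) * ∑ m ∈ Icc 1 L, u m = ∑ i ∈ Icc 1 l, ∑ m ∈ Icc 1 L, u m := by simp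
    rw [e, ← sum_sub_distrib]
    refine (norm_sum_le _ _).trans ?_
    calc ∑ i ∈ Icc 1 l, ‖∑ a ∈ range L, u (a + i) - ∑ m ∈ Icc 1 L, u m‖ ≤
        ∑ i ∈ Icc 1 l, (2 * l * B : ℝ) := by
          refine sum_le_sum fun i hi => ?_
          rw [mem_Icc] at hi
          refine (shift_sumB u hu1 L i hi.1).trans ?_
          have : (i : ℝ) ≤ l := by exact_mod_cast hi.2
          gcongr
      _ = 2 * l * B * l := by simp; ring
  rw [sum_comm] at h1
  have h2 : ‖∑ a ∈ range L, ∑ i ∈ Icc 1 l, u (a + i)‖ ≤ ∑ j ∈ range L, WH F S l (n + j) := by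
    refine (norm_sum_le _ _).trans (sum_le_sum fun a _ => ?_)
    have e : ∑ i ∈ Icc 1 l, u (a + i) =
        ∑ i ∈ Icc 1 l, muC (n + a + i) * F (g ^ i * (g ^ a * x)) := by
      refine sum_congr rfl fun i _ => ?_
      rw [hu, add_assoc, ← mul_assoc, ← pow_add, add_comm i a]
    rw [e]
    exact le_WH hB hg _ l (n + a)
  have h3 : ‖∑ m ∈ Icc 1 L, muC (n + m) * F (g ^ m * x)‖ = ‖∑ m ∈ Icc 1 L, u m‖ := by
    congr 1
    exact sum_congr rfl fun m _ => (hu m).symm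
  rw [h3]
  have h4 : (l : ℝ) * ‖∑ m ∈ Icc 1 L, u m‖ ≤ ∑ j ∈ range L, WH F S l (n + j) + 2 * l * B * l := by
    have h5 : (l : ℝ) * ‖∑ m ∈ Icc 1 L, u m‖ = ‖(l : ℂ) * ∑ m ∈ Icc 1 L, u m‖ := by
      rw [norm_mul, Complex.norm_natCast]
    rw [h5]
    have h6 := norm_sub_norm_le ((l : ℂ) * ∑ m ∈ Icc 1 L, u m)
      (∑ a ∈ range L, ∑ i ∈ Icc 1 l, u (a + i))
    rw [norm_sub_rev] at h6
    linarith
  have h7 : (l : ℝ) * ‖∑ m ∈ Icc 1 L, u m‖ ≤
      l * ((1 / (l : ℝ)) * ∑ j ∈ range L, WH F S l (n + j) + 2 * l * B) := by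
    refine h4.trans (le_of_eq ?_)
    field_simp
  exact le_of_mul_le_mul_left h7 (by linarith)

lemma WH_start (hG : G_stmt) {m : ℤ} {F : Heis → ℂ} (hm : m ≠ 0) (hV : Ver m F) {B : ℝ}
    (hB : ∀ g, ‖F g‖ ≤ B) {R : ℝ} (hR : 1 ≤ R) {ε : ℝ} (hε : 0 < ε) :
    ∃ L₀ : ℕ, ∀ L : ℕ, L₀ ≤ L → ∀ n ≤ L, ∀ S : Set Heis, (∀ g ∈ S, |g.x| ≤ R ∧ |g.y| ≤ R) →
      WH F S L n ≤ 3 * ε * L := by
  have hB0 : 0 ≤ B := (norm_nonneg _).trans (hB 1)
  obtain ⟨X₀, hX₀⟩ := hG m F hm hV R hR ε hε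
  refine ⟨max X₀ ⌈(X₀ : ℝ) * B / ε⌉₊, fun L hL n hn S hS => ?_⟩
  have hL1 : X₀ ≤ L := (le_max_left _ _).trans hL
  have hL2 : (X₀ : ℝ) * B ≤ ε * L := by
    have h1 : (X₀ : ℝ) * B / ε ≤ L := by
      refine (Nat.le_ceil _).trans ?_
      exact_mod_cast (le_max_right _ _).trans hL
    rw [div_le_iff₀ hε] at h1
    linarith
  have hn' : (n : ℝ) ≤ L := by exact_mod_cast hn
  have hL0 : (0 : ℝ) ≤ L := by positivity
  refine WH_le (by positivity) fun g hg x => ?_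
  obtain ⟨y, hy⟩ : ∃ y : Heis, y = (g ^ n)⁻¹ * x := ⟨_, rfl⟩
  have hP : ∀ X : ℕ, X₀ ≤ X → ‖∑ k ∈ Icc 1 X, muC k * F (g ^ k * y)‖ ≤ ε * X := fun X hX =>
    hX₀ X hX g y (hS g hg).1 (hS g hg).2
  have e1 : ∑ h ∈ Icc 1 L, muC (n + h) * F (g ^ h * x) =
      ∑ k ∈ Icc 1 (n + L), muC k * F (g ^ k * y) - ∑ k ∈ Icc 1 n, muC k * F (g ^ k * y) := by
    rw [← sum_shift' (fun k => muC k * F (g ^ k * y)) n L]
    refine sum_congr rfl fun h _ => ?_
    rw [hy, pow_add, (Commute.pow_pow_self g n h).eq, mul_assoc, mul_inv_cancel_left]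
  rw [e1]
  refine (norm_sub_le _ _).trans ?_
  have h1 := hP (n + L) (by omega)
  push_cast at h1
  have h2 : ‖∑ k ∈ Icc 1 n, muC k * F (g ^ k * y)‖ ≤ ε * L := by
    by_cases hn0 : X₀ ≤ n
    · exact (hP n hn0).trans (mul_le_mul_of_nonneg_left hn' hε.le)
    · have h3 : ‖∑ k ∈ Icc 1 n, muC k * F (g ^ k * y)‖ ≤ n * B := by
        refine (norm_sum_le _ _).trans ((sum_le_sum fun k _ => term_le hB k _).trans ?_)
        simp
      have : (n : ℝ) ≤ X₀ := by exact_mod_cast (not_le.1 hn0).le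
      nlinarith
  have h3 : ε * ((n : ℝ) + L) ≤ ε * (L + L) := mul_le_mul_of_nonneg_left (by linarith) hε.le
  linarith

/-- Long windows are averages of short ones. -/
lemma AH_long (hG : G_stmt) {m : ℤ} {F : Heis → ℂ} (hm : m ≠ 0) (hV : Ver m F) {B : ℝ}
    (hB : ∀ g, ‖F g‖ ≤ B) {R : ℝ} (hR : 1 ≤ R) {ε : ℝ} (hε : 0 < ε) :
    ∃ L₀ : ℕ, ∀ L : ℕ, L₀ ≤ L → ∀ l : ℕ, 1 ≤ l → ∀ N : ℕ, L ≤ N → ∀ S : Set Heis,
      (∀ g ∈ S, |g.x| ≤ R ∧ |g.y| ≤ R) →
      AH F S N L ≤ (3 * ε * L + 2 * l * B) * (1 + Real.log N) + 2 * L / l * AH F S (2 * N) l := by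
  classical
  have hB0 : 0 ≤ B := (norm_nonneg _).trans (hB 1)
  obtain ⟨L₀, hL₀⟩ := WH_start hG hm hV hB hR hε
  refine ⟨L₀, fun L hL l hl N hLN S hS => ?_⟩
  have hl' : (1 : ℝ) ≤ l := by exact_mod_cast hl
  obtain ⟨g, hg⟩ : ∃ g : ℕ → ℝ, ∀ m, g m = (1 / (m : ℝ)) * WH F S l m := ⟨_, fun _ => rfl⟩
  have hg0 : ∀ m, 0 ≤ g m := fun m => by
    rw [hg]; exact mul_nonneg (by positivity) (WH_nonneg F S l m)
  have h1 : ∀ n ∈ Icc 1 N, (1 / (n : ℝ)) * WH F S L n ≤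
      (1 / (n : ℝ)) * (3 * ε * L + 2 * l * B) + (1 / (l : ℝ)) * ∑ j ∈ range L, 2 * g (n + j) := by
    intro n hn
    rw [mem_Icc] at hn
    have hn' : (1 : ℝ) ≤ n := by exact_mod_cast hn.1
    by_cases hnL : n ≤ L
    · have h2 := hL₀ L hL n hnL S hS
      have h3 : 0 ≤ (1 / (l : ℝ)) * ∑ j ∈ range L, 2 * g (n + j) :=
        mul_nonneg (by positivity) (sum_nonneg fun j _ => mul_nonneg (by norm_num) (hg0 _))
      have h5 : 0 ≤ 2 * l * B := by positivity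
      have h4 : (1 / (n : ℝ)) * WH F S L n ≤ (1 / (n : ℝ)) * (3 * ε * L + 2 * l * B) :=
        mul_le_mul_of_nonneg_left (by linarith) (by positivity)
      linarith
    · push Not at hnL
      have h2 := mul_le_mul_of_nonneg_left (WH_avg hB S L l n hl)
        (by positivity : (0 : ℝ) ≤ 1 / (n : ℝ))
      refine h2.trans ?_
      have h3 : (1 / (n : ℝ)) * ∑ j ∈ range L, WH F S l (n + j) ≤ ∑ j ∈ range L, 2 * g (n + j) := by
        rw [mul_sum]
        refine sum_le_sum fun j hj => ?_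
        rw [mem_range] at hj
        rw [hg, ← mul_assoc]
        refine mul_le_mul_of_nonneg_right ?_ (WH_nonneg _ _ _ _)
        have h4 : (j : ℝ) ≤ n := by exact_mod_cast (hj.trans hnL).le
        have h5 : (0 : ℝ) ≤ j := by positivity
        push_cast
        rw [mul_one_div, div_le_div_iff₀ (by linarith) (by linarith)]
        linarith
      have h6 : (1 / (n : ℝ)) * ((1 / (l : ℝ)) * ∑ j ∈ range L, WH F S l (n + j) + 2 * l * B) =
          (1 / (n : ℝ)) * (2 * l * B) + (1 / (l : ℝ)) * ((1 / (n : ℝ)) *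
            ∑ j ∈ range L, WH F S l (n + j)) := by ring
      rw [h6]
      have h7 : (1 / (n : ℝ)) * (2 * l * B) ≤ (1 / (n : ℝ)) * (3 * ε * L + 2 * l * B) := by
        refine mul_le_mul_of_nonneg_left ?_ (by positivity)
        have : (0 : ℝ) ≤ 3 * ε * L := by positivity
        linarith
      have h8 := mul_le_mul_of_nonneg_left h3 (by positivity : (0 : ℝ) ≤ 1 / (l : ℝ))
      linarith
  have h2 : ∀ j ∈ range L, ∑ n ∈ Icc 1 N, 2 * g (n + j) ≤ 2 * AH F S (2 * N) l := by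
    intro j hj
    rw [mem_range] at hj
    rw [← mul_sum]
    refine mul_le_mul_of_nonneg_left ?_ (by norm_num)
    have h3 : ∑ n ∈ Icc 1 N, g (n + j) = ∑ m ∈ (Icc 1 N).image (fun n => n + j), g m := by
      rw [sum_image]
      intro a _ b _ hab
      exact Nat.add_right_cancel hab
    have h4 : AH F S (2 * N) l = ∑ m ∈ Icc 1 (2 * N), g m := by
      unfold AH
      exact sum_congr rfl fun m _ => (hg m).symm
    rw [h3, h4]
    refine sum_le_sum_of_subset_of_nonneg ?_ fun m _ _ => hg0 m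
    intro m hm
    rw [mem_image] at hm
    obtain ⟨n, hn, rfl⟩ := hm
    rw [mem_Icc] at hn ⊢
    omega
  have h9 : AH F S N L ≤ ∑ n ∈ Icc 1 N, ((1 / (n : ℝ)) * (3 * ε * L + 2 * l * B) +
      (1 / (l : ℝ)) * ∑ j ∈ range L, 2 * g (n + j)) := sum_le_sum h1
  refine h9.trans ?_
  rw [sum_add_distrib, ← sum_mul, ← mul_sum, sum_comm]
  have h3 := sum_le_sum h2
  rw [sum_const, card_range, nsmul_eq_mul] at h3
  have h4 := mul_le_mul_of_nonneg_left h3 (by positivity : (0 : ℝ) ≤ 1 / (l : ℝ))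
  have h5 := mul_le_mul_of_nonneg_right (sum_inv_le N)
    (by positivity : (0 : ℝ) ≤ 3 * ε * L + 2 * l * B)
  have h6 : (1 / (l : ℝ)) * (L * (2 * AH F S (2 * N) l)) = 2 * L / l * AH F S (2 * N) l := by ring
  rw [h6] at h4
  linarith

theorem rowH (hG : G_stmt) : H_stmt := by
  intro m F hm hV R hR ε hε l hl
  obtain ⟨B, hB0, hB⟩ := reg_bound hV.1
  obtain ⟨L₀, hL₀⟩ := AH_long hG hm hV hB hR (show 0 < ε / 12 by positivity)
  have hl' : (1 : ℝ) ≤ l := by exact_mod_cast hl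
  refine ⟨max (max L₀ 3) (max l ⌈8 * l * B / ε⌉₊), fun S hS κ hκ hM H N h1 h2 => ?_⟩
  have a1 : L₀ ≤ H := ((le_max_left _ _).trans (le_max_left _ _)).trans h1
  have a2 : 3 ≤ H := ((le_max_right _ _).trans (le_max_left _ _)).trans h1
  have a3 : l ≤ H := ((le_max_left _ _).trans (le_max_right _ _)).trans h1
  have a4 : 8 * l * B / ε ≤ H := by
    refine (Nat.le_ceil _).trans ?_
    exact_mod_cast ((le_max_right _ _).trans (le_max_right _ _)).trans h1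
  rw [div_le_iff₀ hε] at a4
  have hN3 : 3 ≤ N := a2.trans h2
  have hlog := one_le_log hN3
  have hN0 : (0 : ℝ) < N := by
    have : 0 < N := by omega
    exact_mod_cast this
  have b1 := hL₀ H a1 l hl N h2 S hS
  have b2 := hM (2 * N) (by omega)
  have hlog2 : Real.log ((2 * N : ℕ) : ℝ) ≤ 2 * Real.log N := by
    push_cast
    rw [Real.log_mul (by norm_num) hN0.ne']
    have : Real.log 2 ≤ Real.log N := Real.log_le_log (by norm_num) (by
      have : (3 : ℝ) ≤ N := by exact_mod_cast hN3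
      linarith)
    linarith
  have hH0 : (0 : ℝ) ≤ H := by positivity
  have b3 : 2 * (H : ℝ) / l * AH F S (2 * N) l ≤ 8 * κ * H * Real.log N := by
    have c1 : AH F S (2 * N) l ≤ κ * l * (2 * Real.log N) :=
      b2.trans (mul_le_mul_of_nonneg_left hlog2 (by positivity))
    calc 2 * (H : ℝ) / l * AH F S (2 * N) l ≤ 2 * (H : ℝ) / l * (κ * l * (2 * Real.log N)) :=
          mul_le_mul_of_nonneg_left c1 (by positivity)
      _ = 4 * (κ * H * Real.log N) := by field_simp; ring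
      _ ≤ 8 * κ * H * Real.log N := by
          have : 0 ≤ κ * H * Real.log N := by positivity
          linarith
  have b4 : (3 * (ε / 12) * H + 2 * l * B) * (1 + Real.log N) ≤ ε * H * Real.log N := by
    have c2 : 3 * (ε / 12) * H + 2 * l * B ≤ ε * H / 2 := by linarith
    have c3 : 1 + Real.log N ≤ 2 * Real.log N := by linarith
    calc (3 * (ε / 12) * H + 2 * l * B) * (1 + Real.log N) ≤ (ε * H / 2) * (2 * Real.log N) :=
          mul_le_mul c2 c3 (by linarith) (by positivity)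
      _ = ε * H * Real.log N := by ring
  linarith

end Pool.Agent.HB
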