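import Pool.Agent.Lib.HB.Tr

/-!
# Row I: near a rational line
-/

set_option autoImplicit false
open Finset MeasureTheory

namespace Pool.Agent.HB

open Pool.Agent.Lib.MP_663568_nt Pool.Agent.Lib.MP_663568_nt.Katai
  Pool.Agent.Lib.MP_663568_nt.Nul Pool.Agent.Lib.MP_663568_nt.Fib

namespace Ix

/-- The set of the top coefficients. -/
def TT (m : ℤ) (b₀ : ℝ) (E : Set (ℝ × ℝ)) : Set ℝ :=
  {y | ∃ t : ℝ, (t, b₀) ∈ E ∧ ∃ j : ℤ, y = -(m * t * b₀ / 2) + j}

/-- The horizontal slice. -/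
def Sl (b₀ : ℝ) (E : Set (ℝ × ℝ)) : Set ℝ := {t | (t, b₀) ∈ E}

lemma Sl_compact {b₀ : ℝ} {E : Set (ℝ × ℝ)} (hE : IsCompact E) : IsCompact (Sl b₀ E) := by
  refine (hE.image continuous_fst).of_isClosed_subset ?_ ?_
  · exact hE.isClosed.preimage (Continuous.prodMk continuous_id continuous_const)
  · intro t ht
    exact ⟨_, ht, rfl⟩

open Pointwise in
lemma TT_closed {m : ℤ} {b₀ : ℝ} {E : Set (ℝ × ℝ)} (hE : IsCompact E) :
    IsClosed (TT m b₀ E) := by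
  have h1 : IsCompact ((fun t : ℝ => -(m * t * b₀ / 2)) '' Sl b₀ E) :=
    (Sl_compact hE).image (by fun_prop)
  have h2 : IsClosed (Set.range ((↑) : ℤ → ℝ)) := Int.isClosedEmbedding_coe_real.isClosed_range
  have h3 := h2.add_right_of_isCompact h1
  convert h3 using 1
  ext y
  rw [Set.mem_add]
  constructor
  · rintro ⟨t, ht, j, rfl⟩
    exact ⟨j, ⟨j, rfl⟩, _, ⟨t, ht, rfl⟩, add_comm _ _⟩
  · rintro ⟨_, ⟨j, rfl⟩, _, ⟨t, ht, rfl⟩, rfl⟩
    exact ⟨t, ht, j, add_comm _ _⟩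

lemma TT_per {m : ℤ} {b₀ : ℝ} {E : Set (ℝ × ℝ)} (y : ℝ) (hy : y ∈ TT m b₀ E) (z : ℤ) :
    y + (z : ℝ) ∈ TT m b₀ E := by
  obtain ⟨t, ht, j, rfl⟩ := hy
  exact ⟨t, ht, j + z, by push_cast; ring⟩

lemma TT_rat {m : ℤ} (hm : m ≠ 0) {b : ℚ} {E : Set (ℝ × ℝ)} (r : ℚ)
    (hr : (r : ℝ) ∈ TT m (b : ℝ) E) : ¬ LinFree E := by
  obtain ⟨t, ht, j, hj⟩ := hr
  intro hE
  by_cases hb : b = 0
  · refine hE 1 0 (Or.inl one_ne_zero) t ?_
    rw [hb] at ht
    simpa using ht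
  · have hmr : (m : ℝ) ≠ 0 := by exact_mod_cast hm
    have hbr : (b : ℝ) ≠ 0 := by exact_mod_cast hb
    have h1 : t = ((2 * (j - r) / (m * b) : ℚ) : ℝ) := by
      push_cast
      rw [hj]
      field_simp
      ring
    refine hE (2 * (j - r) / (m * b)) b (Or.inr hb) 1 ?_
    rw [one_mul, one_mul, ← h1]
    exact ht

lemma TT_null {m : ℤ} (hm : m ≠ 0) {b : ℚ} {E : Set (ℝ × ℝ)} (hE : QuadNull E) :
    volume (TT m (b : ℝ) E) = 0 := by
  by_cases hb : b = 0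
  · have hsub : TT m (b : ℝ) E ⊆ Set.range ((↑) : ℤ → ℝ) := by
      rintro y ⟨t, ht, j, rfl⟩
      exact ⟨j, by rw [hb]; simp⟩
    exact measure_mono_null hsub ((Set.countable_range _).measure_zero volume)
  · have hmr : (m : ℝ) ≠ 0 := by exact_mod_cast hm
    have hbr : (b : ℝ) ≠ 0 := by exact_mod_cast hb
    have h0 : volume (Sl (b : ℝ) E) = 0 := by
      have h1 := hE 0 b 1 0 (by rw [mul_zero, mul_one, zero_sub]; exact neg_ne_zero.2 hb)
      have e : {t : ℝ | (((0 : ℚ) : ℝ) + t * ((1 : ℚ) : ℝ), (b : ℝ) + t * ((0 : ℚ) : ℝ)) ∈ E} =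
          Sl (b : ℝ) E := by
        ext t
        simp [Sl]
      rw [e] at h1
      exact h1
    set c : ℝ := -(2 / (m * b)) with hc
    have hc0 : c ≠ 0 := by rw [hc]; exact neg_ne_zero.2 (by positivity)
    have hsub : TT m (b : ℝ) E ⊆
        ⋃ j : ℤ, (fun y => y + -(j : ℝ)) ⁻¹' ((c * ·) ⁻¹' Sl (b : ℝ) E) := by
      rintro y ⟨t, ht, j, rfl⟩
      rw [Set.mem_iUnion]
      refine ⟨j, ?_⟩
      have e : c * (-(m * t * b / 2) + j + -(j : ℝ)) = t := by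
        rw [hc]
        field_simp
        ring
      simp only [Set.mem_preimage]
      rw [e]
      exact ht
    refine measure_mono_null hsub (measure_iUnion_null fun j => ?_)
    rw [measure_preimage_add_right, Real.volume_preimage_mul_left hc0, h0, mul_zero]

/-- Compactness. -/
lemma near {b₀ : ℝ} {E : Set (ℝ × ℝ)} (hE : IsCompact E) (ρ : ℝ) (hρ : 0 < ρ) :
    ∃ d : ℝ, 0 < d ∧ ∀ t y : ℝ, (t, y) ∈ E → |y - b₀| ≤ d → ∃ t₁ : ℝ, (t₁, b₀) ∈ E ∧
      |t - t₁| ≤ ρ := by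
  set K : Set (ℝ × ℝ) := E ∩ {v | ∀ t₁ ∈ Sl b₀ E, ρ ≤ |v.1 - t₁|} with hK
  have hKc : IsCompact K := by
    refine hE.inter_right ?_
    have e : {v : ℝ × ℝ | ∀ t₁ ∈ Sl b₀ E, ρ ≤ |v.1 - t₁|} =
        ⋂ t₁ ∈ Sl b₀ E, {v : ℝ × ℝ | ρ ≤ |v.1 - t₁|} := by
      ext v
      simp
    rw [e]
    refine isClosed_biInter fun t₁ _ => isClosed_le continuous_const (by fun_prop)
  rcases K.eq_empty_or_nonempty with hemp | hne
  · refine ⟨1, one_pos, fun t y hty _ => ?_⟩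
    by_contra hcon
    push Not at hcon
    have : (t, y) ∈ K := ⟨hty, fun t₁ ht₁ => (hcon t₁ ht₁).le⟩
    rw [hemp] at this
    exact this
  · obtain ⟨v, hv, hmin⟩ := hKc.exists_isMinOn hne
      (f := fun v : ℝ × ℝ => |v.2 - b₀|) (by fun_prop)
    have hpos : 0 < |v.2 - b₀| := by
      rw [abs_pos]
      intro h0
      have h1 : v.2 = b₀ := by linarith
      have h2 : v.1 ∈ Sl b₀ E := by
        change (v.1, b₀) ∈ E
        rw [← h1]
        exact hv.1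
      have h3 := hv.2 v.1 h2
      rw [sub_self, abs_zero] at h3
      linarith
    refine ⟨|v.2 - b₀| / 2, by positivity, fun t y hty hy => ?_⟩
    by_contra hcon
    push Not at hcon
    have hmem : (t, y) ∈ K := ⟨hty, fun t₁ ht₁ => (hcon t₁ ht₁).le⟩
    have h4 : |v.2 - b₀| ≤ |y - b₀| := hmin hmem
    linarith

lemma bound {E : Set (ℝ × ℝ)} (hE : IsCompact E) :
    ∃ R : ℝ, 1 ≤ R ∧ ∀ v ∈ E, |v.1| ≤ R ∧ |v.2| ≤ R := by
  obtain ⟨B, hB⟩ := (hE.image continuous_norm).bddAbove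
  refine ⟨max B 1, le_max_right _ _, fun v hv => ?_⟩
  have h1 : ‖v‖ ≤ B := hB ⟨v, hv, rfl⟩
  have h2 := norm_fst_le v
  have h3 := norm_snd_le v
  rw [Real.norm_eq_abs] at h2 h3
  exact ⟨h2.trans (h1.trans (le_max_left _ _)), h3.trans (h1.trans (le_max_left _ _))⟩

lemma one_le_log {N : ℕ} (hN : 3 ≤ N) : 1 ≤ Real.log N := by
  have h3 : (3 : ℝ) ≤ N := by exact_mod_cast hN
  rw [Real.le_log_iff_exp_le (by linarith)]
  linarith [Real.exp_one_lt_three]

/-- The lines `y = w / κ`. -/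
lemma line (hC : C_stmt) (hD : D_stmt) (hD' : D'_stmt) (hH : H_stmt) (m : ℤ) (hm : m ≠ 0)
    (F : Heis → ℂ) (hF : Ver m F) (E : Set (ℝ × ℝ)) (hE : IsCompact E) (hcond : Cond E)
    (κ : ℕ) (hκ : 1 ≤ κ) (w : ℤ) (ε : ℝ) (hε : 0 < ε) : ∃ d : ℝ, 0 < d ∧ d ≤ 1 ∧ ∃ H₀ : ℕ,
    ∀ H N : ℕ, H₀ ≤ H → H ≤ N →
      AH F {g | (g.x, g.y) ∈ E ∧ |g.y - (w : ℝ) / κ| ≤ d} N H ≤ ε * H * Real.log N := by
  obtain ⟨b, hb⟩ : ∃ b : ℚ, b = (w : ℚ) / κ := ⟨_, rfl⟩
  have hbr : (w : ℝ) / κ = (b : ℝ) := by rw [hb]; push_cast; rfl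
  obtain ⟨T, hT⟩ : ∃ T : Set ℝ, T = TT m (b : ℝ) E := ⟨_, rfl⟩
  have hTc : IsClosed T := by rw [hT]; exact TT_closed hE
  have hTp : ∀ y ∈ T, ∀ z : ℤ, y + (z : ℝ) ∈ T := by rw [hT]; exact TT_per
  have h1 : (∃ r : ℚ, (r : ℝ) ∈ T) → U1 := by
    rintro ⟨r, hr⟩
    rw [hT] at hr
    exact hcond.1.resolve_left (TT_rat hm r hr)
  have h2 : volume T ≠ 0 → M2 := by
    intro hv
    refine hcond.2.resolve_left fun hq => hv ?_
    rw [hT]
    exact TT_null hm hq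
  obtain ⟨R, hR, hRE⟩ := bound hE
  obtain ⟨B, hB0, hB⟩ := reg_bound hF.1
  obtain ⟨ρ₁, hρ₁, C₁, hC₁, hmain⟩ := hC m F hF κ w hκ (ε / 64) (by positivity)
  obtain ⟨l₀, hl₀⟩ := hD T hTc hTp h1 h2 (ε / (64 * C₁)) (by positivity)
  obtain ⟨l, hl⟩ : ∃ l : ℕ, l = max l₀ 3 := ⟨_, rfl⟩
  have hl3 : 3 ≤ l := by rw [hl]; exact le_max_right _ _
  have hll₀ : l₀ ≤ l := by rw [hl]; exact le_max_left _ _
  have hlr : (3 : ℝ) ≤ l := by exact_mod_cast hl3
  have hl0 : (0 : ℝ) < l := by linarith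
  obtain ⟨ρ₂, hρ₂, hnb⟩ := hD' l (ε / (128 * C₁)) (by positivity)
  have hm1 : (1 : ℝ) ≤ |(m : ℝ)| := by
    have : 1 ≤ |m| := Int.one_le_abs hm
    exact_mod_cast this
  have hm0 : (0 : ℝ) < |(m : ℝ)| := by linarith
  obtain ⟨ρ₃, hρ₃⟩ : ∃ ρ₃ : ℝ, ρ₃ = ρ₂ / (|(m : ℝ)| * (|(b : ℝ)| + 1)) := ⟨_, rfl⟩
  have hρ₃0 : 0 < ρ₃ := by rw [hρ₃]; positivity
  obtain ⟨d₀, hd₀, hcpt⟩ := near (b₀ := (b : ℝ)) hE ρ₃ hρ₃0
  obtain ⟨d, hd⟩ : ∃ d : ℝ, d = min (min d₀ (ρ₁ / l)) (min (ρ₂ / (|(m : ℝ)| * R)) 1) := ⟨_, rfl⟩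
  have hd0 : 0 < d := by
    rw [hd]
    exact lt_min (lt_min hd₀ (by positivity)) (lt_min (by positivity) one_pos)
  have hdd₀ : d ≤ d₀ := by rw [hd]; exact (min_le_left _ _).trans (min_le_left _ _)
  have hdρ₁ : d ≤ ρ₁ / l := by rw [hd]; exact (min_le_left _ _).trans (min_le_right _ _)
  have hdρ₂ : d ≤ ρ₂ / (|(m : ℝ)| * R) := by
    rw [hd]; exact (min_le_right _ _).trans (min_le_left _ _)
  have hd1 : d ≤ 1 := by rw [hd]; exact (min_le_right _ _).trans (min_le_right _ _)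
  obtain ⟨S, hS⟩ : ∃ S : Set Heis, S = {g | (g.x, g.y) ∈ E ∧ |g.y - (w : ℝ) / κ| ≤ d} :=
    ⟨_, rfl⟩
  obtain ⟨A, hA⟩ : ∃ A : Set ℝ, A = {x : ℝ | ∃ c ∈ T, |x - c| ≤ ρ₂} := ⟨_, rfl⟩
  have hwin : ∀ n : ℕ, WH F S l n ≤ ε / 64 * l + C₁ * WQ A l n := by
    intro n
    refine WH_le (add_nonneg (by positivity) (mul_nonneg hC₁.le (WQ_nonneg _ _ _))) fun g hg x => ?_
    rw [hS] at hg
    obtain ⟨hgE, hgd⟩ := hg
    have h3 : (l : ℝ) * |g.y - (w : ℝ) / κ| ≤ ρ₁ := by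
      calc (l : ℝ) * |g.y - (w : ℝ) / κ| ≤ l * (ρ₁ / l) :=
            mul_le_mul_of_nonneg_left (hgd.trans hdρ₁) hl0.le
        _ = ρ₁ := by field_simp
    refine (hmain g x n l h3).trans (add_le_add le_rfl (mul_le_mul_of_nonneg_left ?_ hC₁.le))
    refine WQ_mono ?_ l n
    rw [Set.singleton_subset_iff, hA]
    rw [hbr] at hgd ⊢
    obtain ⟨t₁, ht₁, htt⟩ := hcpt g.x g.y hgE (hgd.trans hdd₀)
    refine ⟨-(m * t₁ * b / 2), ?_, ?_⟩
    · rw [hT]
      exact ⟨t₁, ht₁, 0, by push_cast; ring⟩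
    · have e : (m : ℝ) * g.x * (g.y / 2 - b) - -(m * t₁ * b / 2) =
          m * (g.x * (g.y - b) / 2 - (g.x - t₁) * b / 2) := by ring
      rw [e, abs_mul]
      have h4 : |g.x * (g.y - b)| ≤ R * d := by
        rw [abs_mul]
        exact mul_le_mul (hRE _ hgE).1 hgd (abs_nonneg _) (by linarith)
      have h5 : |(g.x - t₁) * b| ≤ ρ₃ * |(b : ℝ)| := by
        rw [abs_mul]
        exact mul_le_mul_of_nonneg_right htt (abs_nonneg _)
      have h6 : |g.x * (g.y - b) / 2 - (g.x - t₁) * b / 2| ≤ R * d / 2 + ρ₃ * |(b : ℝ)| / 2 := by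
        refine (abs_sub _ _).trans ?_
        rw [abs_div, abs_div, abs_two]
        linarith
      have h7 : |(m : ℝ)| * (R * d) ≤ ρ₂ := by
        rw [le_div_iff₀ (by positivity)] at hdρ₂
        linarith
      have h8 : |(m : ℝ)| * (ρ₃ * |(b : ℝ)|) ≤ ρ₂ := by
        rw [hρ₃]
        have h9 : |(m : ℝ)| * (ρ₂ / (|(m : ℝ)| * (|(b : ℝ)| + 1)) * |(b : ℝ)|) =
            ρ₂ * (|(b : ℝ)| / (|(b : ℝ)| + 1)) := by field_simp
        rw [h9]
        refine mul_le_of_le_one_right hρ₂.le ?_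
        rw [div_le_one (by positivity)]
        linarith
      calc |(m : ℝ)| * |g.x * (g.y - b) / 2 - (g.x - t₁) * b / 2| ≤
            |(m : ℝ)| * (R * d / 2 + ρ₃ * |(b : ℝ)| / 2) := mul_le_mul_of_nonneg_left h6 hm0.le
        _ = (|(m : ℝ)| * (R * d)) / 2 + (|(m : ℝ)| * (ρ₃ * |(b : ℝ)|)) / 2 := by ring
        _ ≤ ρ₂ := by linarith
  have hAH : ∀ M : ℕ, l ≤ M → AH F S M l ≤ ε / 16 * l * Real.log M := by
    intro M hM
    have hlog : 1 ≤ Real.log M := one_le_log (hl3.trans hM)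
    have h3 : AH F S M l ≤ ∑ n ∈ Icc 1 M, (1 / (n : ℝ)) * (ε / 64 * l) + C₁ * AQ A M l := by
      unfold AH AQ
      rw [mul_sum, ← sum_add_distrib]
      refine sum_le_sum fun n _ => ?_
      calc _ ≤ 1 / (n : ℝ) * (ε / 64 * l + C₁ * WQ A l n) :=
            mul_le_mul_of_nonneg_left (hwin n) (by positivity)
        _ = _ := by ring
    have h4 : ∑ n ∈ Icc 1 M, (1 / (n : ℝ)) * (ε / 64 * l) ≤ (1 + Real.log M) * (ε / 64 * l) := by
      rw [← sum_mul]
      exact mul_le_mul_of_nonneg_right (sum_inv_le M) (by positivity)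
    have h5 : AQ A M l ≤ ε / (64 * C₁) * l * Real.log M + ε / (128 * C₁) * (1 + Real.log M) := by
      have h6 := hnb T M
      rw [← hA] at h6
      exact h6.trans (add_le_add (hl₀ l M hll₀ hM) le_rfl)
    have h6 : C₁ * AQ A M l ≤ ε / 64 * l * Real.log M + ε / 128 * (1 + Real.log M) := by
      calc C₁ * AQ A M l ≤ C₁ * (ε / (64 * C₁) * l * Real.log M +
            ε / (128 * C₁) * (1 + Real.log M)) := mul_le_mul_of_nonneg_left h5 hC₁.le
        _ = _ := by field_simp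
    have h7 : (1 + Real.log M) * (ε / 64 * l) ≤ 2 * Real.log M * (ε / 64 * l) :=
      mul_le_mul_of_nonneg_right (by linarith) (by positivity)
    have h8 : ε / 128 * (1 + Real.log M) ≤ ε / 64 * l * Real.log M := by
      calc ε / 128 * (1 + Real.log M) ≤ ε / 128 * (2 * Real.log M) :=
            mul_le_mul_of_nonneg_left (by linarith) (by positivity)
        _ = ε / 64 * 1 * Real.log M := by ring
        _ ≤ _ := by
            refine mul_le_mul_of_nonneg_right ?_ (by linarith)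
            exact mul_le_mul_of_nonneg_left (by linarith) (by positivity)
    calc AH F S M l ≤ 2 * Real.log M * (ε / 64 * l) + (ε / 64 * l * Real.log M +
          ε / 64 * l * Real.log M) := h3.trans (add_le_add (h4.trans h7)
            (h6.trans (add_le_add le_rfl h8)))
      _ = ε / 16 * l * Real.log M := by ring
  obtain ⟨H₀, hH₀⟩ := hH m F hm hF R hR (ε / 2) (by positivity) l (by omega)
  refine ⟨d, hd0, hd1, H₀, fun H N hHH hHN => ?_⟩
  have h3 := hH₀ S (fun g hg => by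
    rw [hS] at hg
    exact hRE _ hg.1) (ε / 16) (by positivity) hAH H N hHH hHN
  rw [hS] at h3
  refine h3.trans (le_of_eq ?_)
  ring

end Ix

open Ix in
theorem rowI (hC : C_stmt) (hD : D_stmt) (hD' : D'_stmt) (hE : E_stmt) (hH : H_stmt) :
    I_stmt := by
  intro m F hm hF E hEc hcond a b z hab ε hε
  obtain ⟨κ, hκ, p, q, r, s, hdet, ha, hb⟩ := line_data a b hab
  obtain ⟨σ, hσ1, hσ2, hσx, hσy, hσc, hσG⟩ := hE p q r s hdet
  obtain ⟨E', hE'⟩ : ∃ E' : Set (ℝ × ℝ), E' =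
    (fun u : ℝ × ℝ => ((p : ℝ) * u.1 + q * u.2, (r : ℝ) * u.1 + s * u.2)) '' E := ⟨_, rfl⟩
  have hd : (p : ℝ) * s - q * r = 1 := by exact_mod_cast hdet
  have hdq : (p : ℚ) * s - q * r = 1 := by exact_mod_cast hdet
  have hE'c : IsCompact E' := by rw [hE']; exact hEc.image (by fun_prop)
  have hmem : ∀ x y : ℝ, (x, y) ∈ E' → ((s : ℝ) * x - q * y, -(r : ℝ) * x + p * y) ∈ E := by
    intro x y hxy
    rw [hE'] at hxy
    obtain ⟨u, hu, he⟩ := hxy
    have h1 : (p : ℝ) * u.1 + q * u.2 = x := congrArg Prod.fst he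
    have h2 : (r : ℝ) * u.1 + s * u.2 = y := congrArg Prod.snd he
    have e : ((s : ℝ) * x - q * y, -(r : ℝ) * x + p * y) = u := by
      rw [← h1, ← h2]
      ext
      · simp only; linear_combination u.1 * hd
      · simp only; linear_combination u.2 * hd
    rw [e]
    exact hu
  have hcond' : Cond E' := by
    refine ⟨hcond.1.imp (fun h => ?_) id, hcond.2.imp (fun h => ?_) id⟩
    · intro a' b' hab' t ht
      have h1 := hmem _ _ ht
      refine h (s * a' - q * b') (-r * a' + p * b') ?_ t ?_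
      · by_contra hcon
        push Not at hcon
        obtain ⟨h2, h3⟩ := hcon
        have h4 : a' = 0 := by
          have : p * (s * a' - q * b') + q * (-r * a' + p * b') = a' := by
            linear_combination a' * hdq
          rw [← this, h2, h3]; ring
        have h5 : b' = 0 := by
          have : r * (s * a' - q * b') + s * (-r * a' + p * b') = b' := by
            linear_combination b' * hdq
          rw [← this, h2, h3]; ring
        rcases hab' with h6 | h6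
        · exact h6 h4
        · exact h6 h5
      · convert h1 using 2
        · push_cast; ring
        · push_cast; ring
    · intro p' q' a' b' hne
      have h1 := h (s * p' - q * q') (-r * p' + p * q') (s * a' - q * b') (-r * a' + p * b') (by
        have e : (s * p' - q * q') * (-r * a' + p * b') - (-r * p' + p * q') * (s * a' - q * b') =
            p' * b' - q' * a' := by
          linear_combination (p' * b' - q' * a') * hdq
        rw [e]
        exact hne)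
      refine measure_mono_null ?_ h1
      intro t ht
      have h2 := hmem _ _ ht
      simp only [Set.mem_ofPred_eq]
      convert h2 using 2
      · push_cast; ring
      · push_cast; ring
  have hF' := ver_symm hF σ hσ2 hσc hσG
  obtain ⟨B, hB0, hB⟩ := reg_bound hF.1
  obtain ⟨d, hd0, hd1, H₀, hmain⟩ := line hC hD hD' hH m hm _ hF' E' hE'c hcond' κ hκ z ε hε
  refine ⟨d, hd0, hd1, H₀, fun H N hHH hHN => le_trans ?_ (hmain H N hHH hHN)⟩
  refine sum_le_sum fun n _ => mul_le_mul_of_nonneg_left ?_ (by positivity)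
  refine WH_le (WH_nonneg _ _ _ _) fun g hg x => ?_
  have hκr : (1 : ℝ) ≤ κ := by exact_mod_cast hκ
  have hκ0 : (0 : ℝ) < κ := by linarith
  have hg' : σ g ∈ {g : Heis | (g.x, g.y) ∈ E' ∧ |g.y - (z : ℝ) / κ| ≤ d} := by
    refine ⟨?_, ?_⟩
    · rw [hE', hσx, hσy]
      exact ⟨_, hg.1, rfl⟩
    · have e1 : (κ : ℝ) * ((σ g).y - (z : ℝ) / κ) = a * g.x + b * g.y - z := by
        rw [hσy, mul_sub, mul_div_cancel₀ _ hκ0.ne', ha, hb]
        push_cast
        ring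
      calc |(σ g).y - (z : ℝ) / κ| ≤ κ * |(σ g).y - (z : ℝ) / κ| :=
            le_mul_of_one_le_left (abs_nonneg _) hκr
        _ = |a * g.x + b * g.y - z| := by rw [← e1, abs_mul, abs_of_pos hκ0]
        _ ≤ d := hg.2
  have h1 := le_WH (F := fun g => F (σ.symm g)) (fun g => hB _) hg' (σ x) H n
  refine le_trans (le_of_eq ?_) h1
  congr 1
  exact sum_congr rfl fun h _ => by rw [apply_transport F σ]

end Pool.Agent.HB
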