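import Pool.Agent.Lib.HB.K

/-!
# Row J (MP_663568_nt): one vertical frequency.  helper27
-/

set_option autoImplicit false
open Finset MeasureTheory

namespace Pool.Agent.HB

open Pool.Agent.Lib.MP_663568_nt Pool.Agent.Lib.MP_663568_nt.Katai
  Pool.Agent.Lib.MP_663568_nt.Nul Pool.Agent.Lib.MP_663568_nt.Fib

lemma FarG.anti {K d d' : ℝ} (h : d ≤ d') {g : Heis} (H : FarG K d' g) : FarG K d g :=
  fun a b z h0 ha hb => h.trans (H a b z h0 ha hb)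

/-- The lines of height at most `K`. -/
noncomputable def Lam (K R : ℝ) : Finset (ℤ × ℤ × ℤ) :=
  ((Icc (-⌈K⌉) ⌈K⌉) ×ˢ ((Icc (-⌈K⌉) ⌈K⌉) ×ˢ (Icc (-⌈2 * K * R + 1⌉) ⌈2 * K * R + 1⌉))).filter
    fun v => v.1 ≠ 0 ∨ v.2.1 ≠ 0

lemma mem_Lam {K R : ℝ} {a b z : ℤ} (h0 : a ≠ 0 ∨ b ≠ 0) (ha : |(a : ℝ)| ≤ K) (hb : |(b : ℝ)| ≤ K)
    (hz : |(z : ℝ)| ≤ 2 * K * R + 1) : (a, b, z) ∈ Lam K R := by
  have key : ∀ (c : ℤ) (x : ℝ), |(c : ℝ)| ≤ x → c ∈ Icc (-⌈x⌉) ⌈x⌉ := by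
    intro c x hc
    have h1 := (abs_le.1 (hc.trans (Int.le_ceil x)))
    rw [mem_Icc]
    exact ⟨by exact_mod_cast h1.1, by exact_mod_cast h1.2⟩
  unfold Lam
  rw [mem_filter, mem_product, mem_product]
  exact ⟨⟨key a K ha, key b K hb, key z _ hz⟩, h0⟩

lemma AH_near (hI : I_stmt) {m : ℤ} {F : Heis → ℂ} (hm : m ≠ 0) (hV : Ver m F) {E : Set (ℝ × ℝ)}
    (hE : IsCompact E) (hC : Cond E) {R : ℝ} (hR : 1 ≤ R)
    (hER : ∀ g : Heis, g ∈ Over E → |g.x| ≤ R ∧ |g.y| ≤ R) {K : ℝ} (hK : 0 ≤ K) {ε : ℝ} (hε : 0 < ε) :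
    ∃ d : ℝ, 0 < d ∧ d ≤ 1 ∧ ∃ H₀ : ℕ, ∀ H N : ℕ, H₀ ≤ H → H ≤ N →
      AH F {g | g ∈ Over E ∧ ¬ FarG K d g} N H ≤ ε * H * Real.log N := by
  classical
  obtain ⟨B, -, hB⟩ := reg_bound hV.1
  obtain ⟨c, hc⟩ : ∃ c : ℝ, c = ((Lam K R).card : ℝ) + 1 := ⟨_, rfl⟩
  have hc0 : 0 < c := by rw [hc]; positivity
  have h1 : ∀ v ∈ Lam K R, ∃ d : ℝ, 0 < d ∧ d ≤ 1 ∧ ∃ H₀ : ℕ, ∀ H N : ℕ, H₀ ≤ H → H ≤ N →
      AH F {g | (g.x, g.y) ∈ E ∧ |v.1 * g.x + v.2.1 * g.y - v.2.2| ≤ d} N H ≤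
        (ε / c) * H * Real.log N := by
    intro v hv
    exact hI m F hm hV E hE hC v.1 v.2.1 v.2.2 (mem_filter.1 hv).2 _ (by positivity)
  choose! d hd0 hd1 H₀ hH using h1
  obtain ⟨δ, hδ0, hδ1, hδ⟩ : ∃ δ : ℝ, 0 < δ ∧ δ ≤ 1 ∧ ∀ v ∈ Lam K R, δ ≤ d v := by
    rcases (Lam K R).eq_empty_or_nonempty with h | h
    · exact ⟨1, one_pos, le_rfl, by rw [h]; simp⟩
    · refine ⟨min 1 ((Lam K R).inf' h d), lt_min one_pos ?_, min_le_left _ _, fun v hv =>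
        (min_le_right _ _).trans (Finset.inf'_le d hv)⟩
      rw [Finset.lt_inf'_iff]
      exact hd0
  refine ⟨δ, hδ0, hδ1, max 1 ((Lam K R).sup H₀), fun H N h2 h3 => ?_⟩
  have hN1 : 1 ≤ N := ((le_max_left _ _).trans h2).trans h3
  have hlog : 0 ≤ Real.log N := Real.log_nonneg (by exact_mod_cast hN1)
  have hW : ∀ n, WH F {g | g ∈ Over E ∧ ¬ FarG K δ g} H n ≤
      ∑ v ∈ Lam K R, WH F {g | (g.x, g.y) ∈ E ∧ |v.1 * g.x + v.2.1 * g.y - v.2.2| ≤ d v} H n := by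
    intro n
    refine WH_le (sum_nonneg fun _ _ => WH_nonneg _ _ _ _) ?_
    rintro g ⟨hg, hf⟩ x
    unfold FarG at hf
    push Not at hf
    obtain ⟨a, b, z, h0, ha, hb, hz⟩ := hf
    obtain ⟨r1, r2⟩ := hER g hg
    have hzb : |(z : ℝ)| ≤ 2 * K * R + 1 := by
      have e : (z : ℝ) = a * g.x + b * g.y - (a * g.x + b * g.y - z) := by ring
      have t1 : |a * g.x + b * g.y| ≤ K * R + K * R := by
        refine (abs_add_le _ _).trans (add_le_add ?_ ?_)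
        · rw [abs_mul]
          exact mul_le_mul ha r1 (abs_nonneg _) hK
        · rw [abs_mul]
          exact mul_le_mul hb r2 (abs_nonneg _) hK
      rw [e]
      refine (abs_sub _ _).trans ?_
      linarith
    have hv := mem_Lam h0 ha hb hzb
    refine (le_WH hB (S := {g | (g.x, g.y) ∈ E ∧
      |((a, b, z) : ℤ × ℤ × ℤ).1 * g.x + ((a, b, z) : ℤ × ℤ × ℤ).2.1 * g.y -
        ((a, b, z) : ℤ × ℤ × ℤ).2.2| ≤ d (a, b, z)})
      ⟨hg, hz.le.trans (hδ _ hv)⟩ x H n).trans ?_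
    exact Finset.single_le_sum (f := fun v : ℤ × ℤ × ℤ =>
      WH F {g | (g.x, g.y) ∈ E ∧ |v.1 * g.x + v.2.1 * g.y - v.2.2| ≤ d v} H n)
      (fun _ _ => WH_nonneg _ _ _ _) hv
  calc AH F {g | g ∈ Over E ∧ ¬ FarG K δ g} N H ≤ ∑ n ∈ Icc 1 N, (1 / (n : ℝ)) *
        ∑ v ∈ Lam K R, WH F {g | (g.x, g.y) ∈ E ∧ |v.1 * g.x + v.2.1 * g.y - v.2.2| ≤ d v} H n :=
        sum_le_sum fun n _ => mul_le_mul_of_nonneg_left (hW n) (by positivity)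
    _ = ∑ v ∈ Lam K R, AH F {g | (g.x, g.y) ∈ E ∧ |v.1 * g.x + v.2.1 * g.y - v.2.2| ≤ d v} N H := by
        simp_rw [mul_sum]
        rw [sum_comm]
        rfl
    _ ≤ ∑ _v ∈ Lam K R, (ε / c) * H * Real.log N := sum_le_sum fun v hv => hH v hv H N
          ((Finset.le_sup (f := H₀) hv).trans ((le_max_right _ _).trans h2)) h3
    _ ≤ ε * H * Real.log N := by
        rw [sum_const, nsmul_eq_mul]
        have h4 : ((Lam K R).card : ℝ) * (ε / c) ≤ ε := by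
          rw [← mul_div_assoc, div_le_iff₀ hc0, hc]
          nlinarith
        calc ((Lam K R).card : ℝ) * (ε / c * H * Real.log N) =
            ((Lam K R).card : ℝ) * (ε / c) * (H * Real.log N) := by ring
          _ ≤ ε * (H * Real.log N) := mul_le_mul_of_nonneg_right h4 (by positivity)
          _ = _ := by ring

lemma exists_R {E : Set (ℝ × ℝ)} (hE : IsCompact E) :
    ∃ R : ℝ, 1 ≤ R ∧ ∀ g : Heis, g ∈ Over E → |g.x| ≤ R ∧ |g.y| ≤ R := by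
  obtain ⟨R, hR⟩ := hE.isBounded.exists_norm_le
  refine ⟨max R 1, le_max_right _ _, fun g hg => ?_⟩
  have h := hR (g.x, g.y) hg
  rw [Prod.norm_def, max_le_iff] at h
  exact ⟨h.1.trans (le_max_left _ _), h.2.trans (le_max_left _ _)⟩

theorem rowJ (hA : A_stmt) (hI : I_stmt) : J_stmt := by
  intro m F hm hV E hE hC ε hε
  obtain ⟨B, -, hB⟩ := reg_bound hV.1
  obtain ⟨R, hR, hER⟩ := exists_R hE
  obtain ⟨C, hC1, hCA⟩ := hA m F hm hV (ε / 3) (by positivity)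
  obtain ⟨d, hd0, hd1, H1, hH1⟩ := AH_near hI hm hV hE hC hR hER (K := C) (by positivity)
    (show 0 < ε / 3 by positivity)
  obtain ⟨δ', hδ0', hδ1', H2, hH2⟩ := AH_near hI hm hV hE hC hR hER (K := C * (R / d) ^ C)
    (by positivity) (show 0 < ε / 3 by positivity)
  obtain ⟨δ, hδ⟩ : ∃ δ : ℝ, δ = min δ' d := ⟨_, rfl⟩
  have hδ0 : 0 < δ := by rw [hδ]; exact lt_min hδ0' hd0
  have hδd : δ ≤ d := by rw [hδ]; exact min_le_right _ _
  have hδδ : δ ≤ δ' := by rw [hδ]; exact min_le_left _ _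
  refine ⟨max (max H1 H2) ⌈(C : ℝ) * (R / δ) ^ C⌉₊, fun H N h1 h2 => ?_⟩
  have a1 : H1 ≤ H := ((le_max_left _ _).trans (le_max_left _ _)).trans h1
  have a2 : H2 ≤ H := ((le_max_right _ _).trans (le_max_left _ _)).trans h1
  have a3 : (C : ℝ) * (R / δ) ^ C ≤ H := by
    refine (Nat.le_ceil _).trans ?_
    exact_mod_cast (le_max_right _ _).trans h1
  have b1 := hH1 H N a1 h2
  have b2 := hH2 H N a2 h2
  have b3 := hCA R d δ hR hδ0 hδd hd1 H N a3 h2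
  have hW : ∀ n, WH F (Over E) H n ≤
      WH F {g | |g.x| ≤ R ∧ |g.y| ≤ R ∧ FarG C d g ∧ FarG (C * (R / d) ^ C) δ g} H n +
      WH F {g | g ∈ Over E ∧ ¬ FarG C d g} H n +
      WH F {g | g ∈ Over E ∧ ¬ FarG (C * (R / d) ^ C) δ' g} H n := by
    intro n
    have w1 := WH_nonneg F {g | |g.x| ≤ R ∧ |g.y| ≤ R ∧ FarG C d g ∧ FarG (C * (R / d) ^ C) δ g} H n
    have w2 := WH_nonneg F {g | g ∈ Over E ∧ ¬ FarG C d g} H n
    have w3 := WH_nonneg F {g | g ∈ Over E ∧ ¬ FarG (C * (R / d) ^ C) δ' g} H n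
    refine WH_le (by linarith) fun g hg x => ?_
    by_cases c1 : FarG C d g
    · by_cases c2 : FarG (C * (R / d) ^ C) δ g
      · have := le_WH hB (S := {g | |g.x| ≤ R ∧ |g.y| ≤ R ∧ FarG C d g ∧
          FarG (C * (R / d) ^ C) δ g}) ⟨(hER g hg).1, (hER g hg).2, c1, c2⟩ x H n
        linarith
      · have := le_WH hB (S := {g | g ∈ Over E ∧ ¬ FarG (C * (R / d) ^ C) δ' g})
          ⟨hg, fun h => c2 (h.anti hδδ)⟩ x H n
        linarith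
    · have := le_WH hB (S := {g | g ∈ Over E ∧ ¬ FarG C d g}) ⟨hg, c1⟩ x H n
      linarith
  have hsum : AH F (Over E) N H ≤
      AH F {g | |g.x| ≤ R ∧ |g.y| ≤ R ∧ FarG C d g ∧ FarG (C * (R / d) ^ C) δ g} N H +
      AH F {g | g ∈ Over E ∧ ¬ FarG C d g} N H +
      AH F {g | g ∈ Over E ∧ ¬ FarG (C * (R / d) ^ C) δ' g} N H := by
    unfold AH
    rw [← sum_add_distrib, ← sum_add_distrib]
    refine sum_le_sum fun n _ => ?_
    rw [← mul_add, ← mul_add]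
    exact mul_le_mul_of_nonneg_left (hW n) (by positivity)
  linarith

end Pool.Agent.HB
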