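import Pool.Agent.Lib.HB.Basic

/-!
# Row K (MP_663568_nt): functions of zero mean on the fibres.  helper27
-/

set_option autoImplicit false
open Finset MeasureTheory

namespace Pool.Agent.HB

open Pool.Agent.Lib.MP_663568_nt Pool.Agent.Lib.MP_663568_nt.Katai
  Pool.Agent.Lib.MP_663568_nt.Nul Pool.Agent.Lib.MP_663568_nt.Fib

lemma one_le_log {N : ℕ} (h : 3 ≤ N) : 1 ≤ Real.log N := by
  rw [Real.le_log_iff_exp_le (by positivity)]
  have h1 := Real.exp_one_lt_d9
  have h2 : (3 : ℝ) ≤ N := by exact_mod_cast h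
  linarith

theorem rowK (hB : B_stmt) (hJ : J_stmt) : K_stmt := by
  intro f hf hz E hE hC ε hε
  obtain ⟨S, F, h0, hV, hA⟩ := hB f hf hz (ε / 4) (by positivity)
  have hS : (0 : ℝ) < (S.card : ℝ) + 1 := by positivity
  have hm : ∀ m ∈ S, ∃ H₀ : ℕ, ∀ H N : ℕ, H₀ ≤ H → H ≤ N →
      AH (F m) (Over E) N H ≤ (ε / (4 * ((S.card : ℝ) + 1))) * H * Real.log N := fun m hm =>
    hJ m (F m) (by rintro rfl; exact h0 hm) (hV m hm) E hE hC _ (by positivity)
  choose! K hK using hm
  refine ⟨max 3 (S.sup K), fun H N h1 h2 => ?_⟩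
  have hlog : 1 ≤ Real.log N := one_le_log (((le_max_left _ _).trans h1).trans h2)
  have hW : ∀ n, WH f (Over E) H n ≤ ∑ m ∈ S, WH (F m) (Over E) H n + H * (ε / 4) := by
    intro n
    refine WH_le (add_nonneg (sum_nonneg fun _ _ => WH_nonneg _ _ _ _) (by positivity)) ?_
    intro g hg x
    have e : ∑ h ∈ Icc 1 H, muC (n + h) * f (g ^ h * x) =
        ∑ m ∈ S, ∑ h ∈ Icc 1 H, muC (n + h) * F m (g ^ h * x) +
          ∑ h ∈ Icc 1 H, muC (n + h) * (f (g ^ h * x) - ∑ m ∈ S, F m (g ^ h * x)) := by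
      rw [sum_comm, ← sum_add_distrib]
      refine sum_congr rfl fun h _ => ?_
      rw [← mul_sum]
      ring
    rw [e]
    refine (norm_add_le _ _).trans (add_le_add ?_ ?_)
    · refine (norm_sum_le _ _).trans (sum_le_sum fun m hm => ?_)
      obtain ⟨B, -, hB⟩ := reg_bound (hV m hm).1
      exact le_WH hB hg x H n
    · exact norm_sum_mu_le (u := fun h => f (g ^ h * x) - ∑ m ∈ S, F m (g ^ h * x))
        (fun h => hA _) H n
  have hH0 : (0 : ℝ) ≤ H := by positivity
  calc AH f (Over E) N H ≤ ∑ n ∈ Icc 1 N, (1 / (n : ℝ)) *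
        (∑ m ∈ S, WH (F m) (Over E) H n + H * (ε / 4)) :=
        sum_le_sum fun n _ => mul_le_mul_of_nonneg_left (hW n) (by positivity)
    _ = ∑ m ∈ S, AH (F m) (Over E) N H + (∑ n ∈ Icc 1 N, (1 / (n : ℝ))) * (H * (ε / 4)) := by
        simp_rw [mul_add]
        rw [sum_add_distrib, ← sum_mul]
        congr 1
        simp_rw [mul_sum]
        rw [sum_comm]
        rfl
    _ ≤ ∑ _m ∈ S, (ε / (4 * ((S.card : ℝ) + 1))) * H * Real.log N +
          (2 * Real.log N) * (H * (ε / 4)) := by
        refine add_le_add (sum_le_sum fun m hm => hK m hm H N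
          ((Finset.le_sup (f := K) hm).trans ((le_max_right _ _).trans h1)) h2) ?_
        refine mul_le_mul_of_nonneg_right ?_ (by positivity)
        linarith [sum_inv_le N]
    _ ≤ ε * H * Real.log N := by
        rw [sum_const, nsmul_eq_mul]
        have h3 : (S.card : ℝ) * (ε / (4 * ((S.card : ℝ) + 1)) * H * Real.log N) ≤
            ε / 4 * H * Real.log N := by
          have h4 : (S.card : ℝ) * (ε / (4 * ((S.card : ℝ) + 1))) ≤ ε / 4 := by
            rw [← mul_div_assoc, div_le_div_iff₀ (by positivity) (by norm_num)]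
            nlinarith
          calc (S.card : ℝ) * (ε / (4 * ((S.card : ℝ) + 1)) * H * Real.log N) =
              (S.card : ℝ) * (ε / (4 * ((S.card : ℝ) + 1))) * (H * Real.log N) := by ring
            _ ≤ ε / 4 * (H * Real.log N) := mul_le_mul_of_nonneg_right h4 (by positivity)
            _ = _ := by ring
        have h5 : 0 ≤ ε * (H * Real.log N) := by positivity
        nlinarith

end Pool.Agent.HB
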