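import Pool.Agent.Lib.HB.Basic

/-!
# Row N: the estimate passes to the image under `SL₂(ℤ)`
-/

set_option autoImplicit false
open Finset MeasureTheory

namespace Pool.Agent.HB

open Pool.Agent.Lib.MP_663568_nt Pool.Agent.Lib.MP_663568_nt.Katai
  Pool.Agent.Lib.MP_663568_nt.Nul Pool.Agent.Lib.MP_663568_nt.Fib

theorem AE_bdd {f : Heis → ℂ} {B : ℝ} (hB : ∀ g, ‖f g‖ ≤ B) (E : Set (ℝ × ℝ)) (x₀ : Heis)
    (H n : ℕ) : BddAbove (Set.range fun g : {g : Heis // (g.x, g.y) ∈ E} =>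
      ‖∑ h ∈ Icc 1 H, f ((g : Heis) ^ (h + n) * x₀) * muC (n + h)‖) := by
  refine ⟨H * B, ?_⟩
  rintro _ ⟨g, rfl⟩
  have h1 := norm_sum_mu_le (u := fun h => f ((g : Heis) ^ (h + n) * x₀)) (fun h => hB _) H n
  convert h1 using 2
  exact sum_congr rfl fun h _ => mul_comm _ _

theorem rowN (hE : E_stmt) : N_stmt := by
  intro E hQ p q r s hdet f hf hz x₀ ε hε
  obtain ⟨σ, hσ, hσ', hσx, hσy, hσc, hσG⟩ := hE p q r s hdet
  have hf' : Reg Gam (fun g => f (σ g)) := by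
    refine ⟨hf.1.comp hσ, fun x γ hγ => ?_⟩
    show f (σ (x * γ)) = _
    rw [map_mul]
    exact hf.2 _ _ ((hσG γ).1 hγ)
  have hz' : ZM (fun g => f (σ g)) := by
    intro g
    simp only [hσc]
    exact hz (σ g)
  obtain ⟨H₀, hH₀⟩ := hQ _ hf' hz' (σ.symm x₀) ε hε
  refine ⟨H₀, fun H N hH hN => le_trans ?_ (hH₀ H N hH hN)⟩
  obtain ⟨B, hB0, hB⟩ := reg_bound hf'
  refine sum_le_sum fun n _ => mul_le_mul_of_nonneg_left ?_ (by positivity)
  refine Real.iSup_le (fun g => ?_) (Real.iSup_nonneg fun _ => norm_nonneg _)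
  obtain ⟨u, hu, hg⟩ := g.2
  have hdet' : (p : ℝ) * s - q * r = 1 := by exact_mod_cast hdet
  have h1 := Prod.ext_iff.1 hg
  have h2 : (p : ℝ) * (σ.symm (g : Heis)).x + q * (σ.symm (g : Heis)).y = p * u.1 + q * u.2 := by
    rw [← hσx, MulEquiv.apply_symm_apply]
    exact h1.1
  have h3 : (r : ℝ) * (σ.symm (g : Heis)).x + s * (σ.symm (g : Heis)).y = r * u.1 + s * u.2 := by
    rw [← hσy, MulEquiv.apply_symm_apply]
    exact h1.2
  have h4 : (σ.symm (g : Heis)).x = u.1 := by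
    linear_combination (s : ℝ) * h2 - q * h3 +
      (u.1 - (σ.symm (g : Heis)).x) * hdet'
  have h5 : (σ.symm (g : Heis)).y = u.2 := by
    linear_combination (p : ℝ) * h3 - r * h2 +
      (u.2 - (σ.symm (g : Heis)).y) * hdet'
  have h6 : ((σ.symm (g : Heis)).x, (σ.symm (g : Heis)).y) ∈ E := by
    rw [h4, h5]
    exact hu
  have h7 := le_ciSup (AE_bdd hB E (σ.symm x₀) H n)
    (⟨σ.symm (g : Heis), h6⟩ : {g : Heis // (g.x, g.y) ∈ E})
  refine le_trans (le_of_eq ?_) h7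
  congr 1
  refine sum_congr rfl fun h _ => ?_
  show _ = f (σ ((σ.symm (g : Heis)) ^ (h + n) * σ.symm x₀)) * _
  rw [map_mul, map_pow, MulEquiv.apply_symm_apply, MulEquiv.apply_symm_apply]

end Pool.Agent.HB
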