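import Pool.Agent.Lib.HB.Basic

/-!
# Row Q: the estimate of Q1 follows from the estimate with free base point
-/

set_option autoImplicit false
open Finset MeasureTheory

namespace Pool.Agent.HB

open Pool.Agent.Lib.MP_663568_nt Pool.Agent.Lib.MP_663568_nt.Katai
  Pool.Agent.Lib.MP_663568_nt.Nul Pool.Agent.Lib.MP_663568_nt.Fib

theorem rowQ : Q_stmt := by
  intro f E hf x₀ N H
  obtain ⟨B, hB0, hB⟩ := reg_bound hf
  refine sum_le_sum fun n _ => mul_le_mul_of_nonneg_left ?_ (by positivity)
  refine Real.iSup_le (fun g => ?_) (WH_nonneg _ _ _ _)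
  have h1 := le_WH hB (S := Over E) (g := (g : Heis)) g.2 ((g : Heis) ^ n * x₀) H n
  convert h1 using 2
  refine sum_congr rfl fun h _ => ?_
  rw [pow_add, mul_assoc, mul_comm]

end Pool.Agent.HB
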