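import Pool.Agent.Lib.HB.Basic

/-!
# Row T: functions of frequency one which detect a line
-/

set_option autoImplicit false
open Finset MeasureTheory

namespace Pool.Agent.HB

open Pool.Agent.Lib.MP_663568_nt Pool.Agent.Lib.MP_663568_nt.Katai
  Pool.Agent.Lib.MP_663568_nt.Nul Pool.Agent.Lib.MP_663568_nt.Fib

namespace RowT

noncomputable def psi (κ : ℕ) (t : ℝ) : ℝ := max 0 (1 - 4 * κ * |t|)

noncomputable def fT (κ : ℕ) (g : Heis) : ℂ :=
  (psi κ (g.y - (round g.y : ℤ)) : ℂ) * ee (g.z - (round g.y : ℤ) * g.x)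

theorem psi_zero (κ : ℕ) {t : ℝ} (h : 1 ≤ 4 * κ * |t|) : psi κ t = 0 :=
  max_eq_left (by linarith)

theorem local_eq {κ : ℕ} (hκ : 1 ≤ κ) (k : ℤ) (g : Heis) (hg : |g.y - k| < 3 / 4) :
    fT κ g = (psi κ (g.y - k) : ℂ) * ee (g.z - k * g.x) := by
  have hκ' : (1 : ℝ) ≤ κ := by exact_mod_cast hκ
  unfold fT
  by_cases h : round g.y = k
  · rw [h]
  · have h1 : (1 : ℝ) ≤ |((round g.y : ℤ) : ℝ) - k| := by
      have h2 : (1 : ℤ) ≤ |round g.y - k| := Int.one_le_abs (sub_ne_zero.2 h)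
      exact_mod_cast h2
    have h2 : |g.y - (round g.y : ℤ)| ≤ 1 / 2 := abs_sub_round g.y
    have h3 : |((round g.y : ℤ) : ℝ) - k| ≤ |g.y - (round g.y : ℤ)| + |g.y - k| := by
      have : ((round g.y : ℤ) : ℝ) - k = -(g.y - (round g.y : ℤ)) + (g.y - k) := by ring
      rw [this]
      refine (abs_add_le _ _).trans ?_
      rw [abs_neg]
    rw [psi_zero κ (t := g.y - (round g.y : ℤ)), psi_zero κ (t := g.y - k)]
    · simp
    · have : (1 : ℝ) / 2 ≤ |g.y - k| := by linarith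
      nlinarith
    · have : (1 : ℝ) / 4 ≤ |g.y - (round g.y : ℤ)| := by linarith
      nlinarith

theorem continuous_psi (κ : ℕ) : Continuous (psi κ) :=
  continuous_const.max (continuous_const.sub (continuous_const.mul continuous_abs))

theorem continuous_fT {κ : ℕ} (hκ : 1 ≤ κ) : Continuous (fT κ) := by
  rw [continuous_iff_continuousAt]
  intro g
  have hc : Continuous fun g' : Heis =>
      (psi κ (g'.y - (round g.y : ℤ)) : ℂ) * ee (g'.z - (round g.y : ℤ) * g'.x) :=
    (Complex.continuous_ofReal.comp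
      ((continuous_psi κ).comp (Heis.continuous_y.sub continuous_const))).mul
      (continuous_ee.comp (Heis.continuous_z.sub (continuous_const.mul Heis.continuous_x)))
  refine hc.continuousAt.congr ?_
  have hopen : IsOpen {g' : Heis | |g'.y - (round g.y : ℤ)| < 3 / 4} :=
    isOpen_lt (continuous_abs.comp (Heis.continuous_y.sub continuous_const)) continuous_const
  have hmem : g ∈ {g' : Heis | |g'.y - (round g.y : ℤ)| < 3 / 4} :=
    (abs_sub_round g.y).trans_lt (by norm_num)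
  filter_upwards [hopen.mem_nhds hmem] with g' hg'
  exact (local_eq hκ (round g.y) g' hg').symm

theorem fT_inv (κ : ℕ) (x γ : Heis) (hγ : γ ∈ Gam) : fT κ (x * γ) = fT κ x := by
  obtain ⟨a, b, c, rfl⟩ := hγ
  unfold fT
  simp only [Heis.mul_x, Heis.mul_y, Heis.mul_z]
  rw [round_add_intCast]
  have h1 : x.y + (b : ℝ) - ((round x.y + b : ℤ) : ℝ) = x.y - (round x.y : ℤ) := by
    push_cast
    ring
  have h2 : x.z + (c : ℝ) + x.x * b - ((round x.y + b : ℤ) : ℝ) * (x.x + a) =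
      (x.z - (round x.y : ℤ) * x.x) + ((c - (round x.y + b) * a : ℤ) : ℝ) := by
    push_cast
    ring
  rw [h1, h2, ee_add, ee_int, mul_one]

end RowT

open RowT

theorem rowT : T_stmt := by
  intro κ hκ
  have hκ' : (1 : ℝ) ≤ κ := by exact_mod_cast hκ
  refine ⟨fT κ, ⟨⟨continuous_fT hκ, fT_inv κ⟩, ?_⟩, ?_, ?_, ?_⟩
  · intro g t
    unfold fT
    simp only [Heis.mul_x, Heis.mul_y, Heis.mul_z, add_zero, mul_zero]
    have h1 : g.z + t - ((round g.y : ℤ) : ℝ) * g.x =
        ((1 : ℤ) : ℝ) * t + (g.z - ((round g.y : ℤ) : ℝ) * g.x) := by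
      push_cast
      ring
    rw [h1, ee_add]
    ring
  · intro g
    unfold fT
    rw [norm_mul, norm_ee, mul_one, Complex.norm_real, Real.norm_eq_abs,
      abs_of_nonneg (le_max_left _ _)]
    refine max_le zero_le_one ?_
    have : 0 ≤ 4 * (κ : ℝ) * |g.y - (round g.y : ℤ)| := by positivity
    linarith
  · intro x z q
    unfold fT
    show (psi κ ((q : ℝ) - ((round (q : ℝ) : ℤ) : ℝ)) : ℂ) * ee (z - ((round (q : ℝ) : ℤ) : ℝ) * x) = _
    rw [round_intCast, sub_self]
    have h1 : psi κ 0 = 1 := by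
      unfold psi
      rw [abs_zero, mul_zero, sub_zero]
      exact max_eq_right zero_le_one
    rw [h1, Complex.ofReal_one, one_mul]
  · intro x z w hw
    unfold fT
    show (psi κ ((w : ℝ) / κ - ((round ((w : ℝ) / κ) : ℤ) : ℝ)) : ℂ) * _ = 0
    rw [psi_zero, Complex.ofReal_zero, zero_mul]
    have hκ0 : (0 : ℝ) < κ := by linarith
    have h1 : (w : ℤ) - round ((w : ℝ) / κ) * κ ≠ 0 := by
      intro h
      exact hw ⟨round ((w : ℝ) / κ), by rw [mul_comm]; exact sub_eq_zero.1 h⟩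
    have h2 : (1 : ℝ) ≤ |(w : ℝ) - (round ((w : ℝ) / κ) : ℤ) * κ| := by
      have h3 := Int.one_le_abs h1
      exact_mod_cast h3
    have h3 : (w : ℝ) / κ - ((round ((w : ℝ) / κ) : ℤ) : ℝ) =
        ((w : ℝ) - (round ((w : ℝ) / κ) : ℤ) * κ) / κ := by
      field_simp
    rw [h3, abs_div, abs_of_pos hκ0, mul_assoc, mul_div_cancel₀ _ hκ0.ne']
    linarith

end Pool.Agent.HB
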