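import Mathlib
import Pool.Agent.Lib.HB.A
import Pool.Agent.Lib.HB.B
import Pool.Agent.Lib.HB.C
import Pool.Agent.Lib.HB.Cl
import Pool.Agent.Lib.HB.D
import Pool.Agent.Lib.HB.Dp
import Pool.Agent.Lib.HB.E
import Pool.Agent.Lib.HB.F0
import Pool.Agent.Lib.HB.F1
import Pool.Agent.Lib.HB.F
import Pool.Agent.Lib.HB.G
import Pool.Agent.Lib.HB.H
import Pool.Agent.Lib.HB.I
import Pool.Agent.Lib.HB.J
import Pool.Agent.Lib.HB.K
import Pool.Agent.Lib.HB.L
import Pool.Agent.Lib.HB.M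
import Pool.Agent.Lib.HB.N
import Pool.Agent.Lib.HB.Q
import Pool.Agent.Lib.HB.T
import Pool.Agent.Lib.TU.H
import Pool.Agent.Lib.TUK.FinalE2
import Pool.Agent.Lib.TUK.E8
import Pool.Agent.Lib.TUK.E10
import Pool.Agent.Lib.TUK.E4
import Pool.Agent.Lib.TUK.E5
import Pool.Agent.Lib.TU.RowE

/-!
# Nilrotations of the Heisenberg group (MP_663568_nt): assembly
-/

set_option autoImplicit false
open Finset MeasureTheory

namespace Pool.Agent.HB

open Pool.Agent.Lib.MP_663568_nt Pool.Agent.Lib.MP_663568_nt.Katai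
  Pool.Agent.Lib.MP_663568_nt.Nul Pool.Agent.Lib.MP_663568_nt.Fib

theorem H_all : TU.H_stmt := TU.rowH TU.rowA

theorem EK2_all : TUK.EK2_stmt :=
  TUK.rowEK2 (TUK.rowEK (TUK.rowE8 (TUK.rowAK TUK.rowAK2))
    (TUK.rowE9
      (TUK.rowE6 TUK.rowE1 (TU.rowD TU.rowA) TU.rowE TUK.rowE2 TUK.rowE4 TUK.rowE5 TUK.rowE11
        (TUK.rowE6b TUK.rowE1 TU.rowE TUK.rowE2))
      TUK.rowE7 (TUK.rowB2K (TUK.rowAK TUK.rowAK2) TU.rowB1)))

theorem D_all : D_stmt := rowD_of EK2_all

theorem G_all : G_stmt := rowG (rowF (rowF1 rowF0)) rowC rowE H_all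

theorem I_all : I_stmt := rowI rowC D_all rowDp rowE (rowH G_all)

theorem K_all : K_stmt := rowK rowB (rowJ rowA I_all)

lemma sm_mono {S T : ℕ → ℕ → ℝ} (h : ∀ N H, S N H ≤ T N H) (hT : Sm T) : Sm S := by
  intro ε hε
  obtain ⟨H₀, hH⟩ := hT ε hε
  exact ⟨H₀, fun H N hH0 hHN => (h N H).trans (hH H N hH0 hHN)⟩

/-- The functions on `G ⧸ Γ` as functions on `G`. -/
lemma reg_of {f : Heis ⧸ Gam → ℂ} (hf : Continuous f) :
    Reg Gam (fun g : Heis => f (QuotientGroup.mk g)) :=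
  ⟨hf.comp QuotientGroup.continuous_mk, fun x γ hγ => by
    beta_reduce
    rw [QuotientGroup.mk_mul_of_mem x hγ]⟩

lemma exists_desc {F : Heis → ℂ} (hF : Reg Gam F) :
    ∃ f : Heis ⧸ Gam → ℂ, Continuous f ∧ ∀ g : Heis, f (QuotientGroup.mk g) = F g := by
  refine ⟨fun x => Quotient.liftOn' x F ?_, ?_, fun g => rfl⟩
  · intro a b hab
    have h : a⁻¹ * b ∈ Gam := QuotientGroup.leftRel_apply.1 hab
    have := hF.2 a _ h
    rw [mul_inv_cancel_left] at this
    exact this.symm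
  · exact hF.1.quotient_liftOn' _

/-- The theorem. -/
theorem main {E : Set (ℝ × ℝ)} (hE : Bornology.IsBounded E) :
    List.TFAE [∀ f : Heis ⧸ Gam → ℂ, Continuous f → ZM (fun g => f (QuotientGroup.mk g)) →
        ∀ x₀ : Heis, Sm (AE (fun g => f (QuotientGroup.mk g)) E x₀),
      ∀ f : Heis ⧸ Gam → ℂ, Continuous f → ZM (fun g => f (QuotientGroup.mk g)) →
        Sm (AH (fun g => f (QuotientGroup.mk g)) (Over E)),
      Cond (closure E)] := by
  have hEc : IsCompact (closure E) := hE.isCompact_closure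
  tfae_have 3 → 2 := fun hc f hf hz => by
    obtain ⟨B, _, hB⟩ := reg_bound (reg_of hf)
    have hsub : Over E ⊆ Over (closure E) := fun g hg =>
      (subset_closure hg : (g.x, g.y) ∈ closure E)
    exact sm_mono (fun N H => AH_mono hB hsub N H) (K_all _ (reg_of hf) hz (closure E) hEc hc)
  tfae_have 2 → 1 := fun h f hf hz x₀ =>
    sm_mono (fun N H => rowQ _ E (reg_of hf) x₀ N H) (h f hf hz)
  tfae_have 1 → 3 := by
    intro h
    have hQ : Q1E (closure E) := by
      intro F hF hz x₀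
      obtain ⟨f, hf, hfF⟩ := exists_desc hF
      have e : (fun g : Heis => f (QuotientGroup.mk g)) = F := funext hfF
      have h1 := h f hf (by rw [e]; exact hz) x₀
      rw [e] at h1
      exact sm_mono (fun N H => AE_closure_le hF E x₀ N H) h1
    refine ⟨?_, ?_⟩
    · by_cases hL : LinFree (closure E)
      · exact Or.inl hL
      · exact Or.inr (rowL rowT (rowN rowE) _ hQ hL)
    · by_cases hL : QuadNull (closure E)
      · exact Or.inl hL
      · exact Or.inr (rowM rowT (rowN rowE) _ hEc hQ hL)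
  tfae_finish

end Pool.Agent.HB
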