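import Pool.Agent.Lib.HB.Tr
import Pool.Agent.Lib.HB.Br
import Pool.Agent.Lib.HB.I
import Pool.Agent.Lib.TUK.FinalW

/-!
# Row M: the converse for the rational lines which do not contain `0`
-/

set_option autoImplicit false
open Finset MeasureTheory Polynomial

namespace Pool.Agent.HB

open Pool.Agent.Lib.MP_663568_nt Pool.Agent.Lib.MP_663568_nt.Katai
  Pool.Agent.Lib.MP_663568_nt.Nul Pool.Agent.Lib.MP_663568_nt.Fib

namespace Mx

open Ix

/-- The base points. -/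
noncomputable def bp (b : ℝ) (j : ℕ) : Heis := ⟨0, -(j * b), 0⟩

/-- The sum over the base points is a quadratic phase. -/
lemma theta_sum {f : Heis → ℂ} {b : ℚ}
    (h1 : ∀ (x z : ℝ) (q : ℤ), f ⟨x, q, z⟩ = ee (z - q * x))
    (h2 : ∀ (x z : ℝ) (w : ℤ), ¬ (b.den : ℤ) ∣ w → f ⟨x, (w : ℝ) / b.den, z⟩ = 0)
    (t c : ℝ) (k : ℕ) :
    ∑ j ∈ range b.den, f ((⟨t, b, c⟩ : Heis) ^ k * bp b j) =
      ee (-(t * b / 2) * (k : ℝ) ^ 2 + (c - t * b / 2) * k) := by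
  have hden : (b.den : ℝ) ≠ 0 := by exact_mod_cast b.den_nz
  have hb : (b : ℝ) = (b.num : ℝ) / b.den := by
    have := Rat.num_div_den b
    exact_mod_cast this.symm
  have hcop : IsCoprime (b.den : ℤ) b.num := by
    rw [Int.isCoprime_iff_gcd_eq_one]
    have := b.reduced
    rw [Nat.coprime_comm] at this
    simpa [Int.gcd] using this
  have hval : ∀ j : ℕ, (⟨t, b, c⟩ : Heis) ^ k * bp b j = ⟨k * t, ((((k : ℤ) - j) * b.num : ℤ) : ℝ) /
      b.den, k * c + t * b * ((k : ℝ) * ((k : ℝ) - 1) / 2) + k * t * (-(j * b))⟩ := by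
    intro j
    ext
    · simp [bp, Heis.pow_x]
    · simp only [bp, Heis.mul_y, Heis.pow_y]
      rw [hb]
      push_cast
      field_simp
      ring
    · simp [bp, Heis.pow_z, Heis.pow_x]
  rw [sum_eq_single (k % b.den)]
  · rw [hval]
    have hdvd : (b.den : ℤ) ∣ (k : ℤ) - (k % b.den : ℕ) := by
      refine ⟨((k / b.den : ℕ) : ℤ), ?_⟩
      have : k % b.den + b.den * (k / b.den) = k := Nat.mod_add_div k b.den
      have h3 : ((k % b.den : ℕ) : ℤ) + b.den * ((k / b.den : ℕ) : ℤ) = k := by exact_mod_cast this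
      linarith
    obtain ⟨e, he⟩ := hdvd
    have h4 : (((((k : ℤ) - (k % b.den : ℕ)) * b.num : ℤ) : ℝ)) / b.den = ((e * b.num : ℤ) : ℝ) := by
      rw [he]
      push_cast
      field_simp
    rw [h4, h1]
    congr 1
    have h5 : ((k % b.den : ℕ) : ℝ) = k - b.den * e := by
      have : (((k : ℤ) - (k % b.den : ℕ) : ℤ) : ℝ) = ((b.den * e : ℤ) : ℝ) := by rw [he]
      simp only [Int.cast_sub, Int.cast_mul, Int.cast_natCast] at this
      linarith
    rw [h5]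
    push_cast
    have h6 : (e : ℝ) * b.num = e * b.den * b := by
      rw [hb]; field_simp
    rw [h6]
    ring
  · intro j hj hjk
    rw [hval]
    refine h2 _ _ _ fun hdvd => hjk ?_
    have h3 : (b.den : ℤ) ∣ (k : ℤ) - j := hcop.dvd_of_dvd_mul_right hdvd
    rw [mem_range] at hj
    have h4 : (j : ℤ) % b.den = k % b.den := Int.modEq_iff_dvd.2 h3
    have h5 : k % b.den = j % b.den := by exact_mod_cast h4.symm
    rw [h5, Nat.mod_eq_of_lt hj]
  · intro h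
    exact absurd (mem_range.2 (Nat.mod_lt _ b.den_pos)) h

/-- The set of the phases. -/
def BB (b : ℝ) (E : Set (ℝ × ℝ)) : Set (Fin 2 → ℝ) := {α | α 1 ∈ TT 1 b E}

lemma le_AE {f : Heis → ℂ} {B : ℝ} (hB : ∀ g, ‖f g‖ ≤ B) {E : Set (ℝ × ℝ)} {g : Heis}
    (hg : (g.x, g.y) ∈ E) (x₀ : Heis) (H n : ℕ) :
    ‖∑ h ∈ Icc 1 H, f (g ^ (h + n) * x₀) * muC (n + h)‖ ≤
      ⨆ g : {g : Heis // (g.x, g.y) ∈ E},
        ‖∑ h ∈ Icc 1 H, f ((g : Heis) ^ (h + n) * x₀) * muC (n + h)‖ := by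
  refine le_ciSup (f := fun g : {g : Heis // (g.x, g.y) ∈ E} =>
    ‖∑ h ∈ Icc 1 H, f ((g : Heis) ^ (h + n) * x₀) * muC (n + h)‖) ⟨H * B, ?_⟩ ⟨g, hg⟩
  rintro _ ⟨g, rfl⟩
  have h := norm_sum_mu_le (u := fun h => f ((g : Heis) ^ (h + n) * x₀)) (fun h => hB _) H n
  have e : ∑ h ∈ Icc 1 H, f ((g : Heis) ^ (h + n) * x₀) * muC (n + h) =
      ∑ h ∈ Icc 1 H, muC (n + h) * f ((g : Heis) ^ (h + n) * x₀) :=
    sum_congr rfl fun h _ => mul_comm _ _
  beta_reduce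
  rw [e]
  exact h

lemma AE_nonneg (f : Heis → ℂ) (E : Set (ℝ × ℝ)) (x₀ : Heis) (H n : ℕ) :
    0 ≤ ⨆ g : {g : Heis // (g.x, g.y) ∈ E},
        ‖∑ h ∈ Icc 1 H, f ((g : Heis) ^ (h + n) * x₀) * muC (n + h)‖ :=
  Real.iSup_nonneg fun _ => norm_nonneg _

lemma SBK_le {f : Heis → ℂ} {B : ℝ} (hB : ∀ g, ‖f g‖ ≤ B) {b : ℚ}
    (h1 : ∀ (x z : ℝ) (q : ℤ), f ⟨x, q, z⟩ = ee (z - q * x))
    (h2 : ∀ (x z : ℝ) (w : ℤ), ¬ (b.den : ℤ) ∣ w → f ⟨x, (w : ℝ) / b.den, z⟩ = 0)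
    (E : Set (ℝ × ℝ)) (N H : ℕ) :
    TUK.SBK (BB b E) F1c N H ≤ ∑ j ∈ range b.den, AE f E (bp b j) N H := by
  unfold TUK.SBK AE
  rw [sum_comm]
  refine sum_le_sum fun n _ => ?_
  rw [← mul_sum]
  refine mul_le_mul_of_nonneg_left ?_ (by positivity)
  refine Real.iSup_le ?_ (sum_nonneg fun _ _ => AE_nonneg _ _ _ _ _)
  rintro ⟨⟨α, u⟩, hα, hu⟩
  rw [F1c, Set.mem_singleton_iff] at hu
  subst hu
  obtain ⟨t, ht, i, hi⟩ := hα
  dsimp only at hi ⊢
  obtain ⟨c, hc⟩ : ∃ c : ℝ, c = α 0 + t * b * n + t * b / 2 := ⟨_, rfl⟩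
  have key : ∀ h : ℕ, ∑ j ∈ range b.den, f ((⟨t, b, c⟩ : Heis) ^ (h + n) * bp b j) =
      ee (-(t * b / 2) * (n : ℝ) ^ 2 + (c - t * b / 2) * n) * ee (TU.ph α (h : ℝ)) := by
    intro h
    rw [theta_sum h1 h2]
    have e1 : -(t * (b : ℝ) / 2) * ((h + n : ℕ) : ℝ) ^ 2 + (c - t * b / 2) * ((h + n : ℕ) : ℝ) =
        -(t * b / 2) * (n : ℝ) ^ 2 + (c - t * b / 2) * n + TU.ph α (h : ℝ) +
          ((-(i * (h : ℤ) ^ 2) : ℤ) : ℝ) := by
      have e2 : TU.ph α (h : ℝ) = α 0 * h + α 1 * (h : ℝ) ^ 2 := by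
        simp [TU.ph, Fin.sum_univ_two]
      rw [e2, hi, hc]
      push_cast
      ring
    rw [e1]
    rw [ee_add _ (((-(i * (h : ℤ) ^ 2) : ℤ) : ℝ)), ee_int, mul_one, ee_add]
  have e3 : ‖∑ h ∈ Icc 1 H, muC (n + h) * ((fun _ => (1 : ℂ)) h * ee (TU.ph α (h : ℝ)))‖ =
      ‖∑ j ∈ range b.den, ∑ h ∈ Icc 1 H,
        f ((⟨t, b, c⟩ : Heis) ^ (h + n) * bp b j) * muC (n + h)‖ := by
    rw [sum_comm]
    have e4 : ∑ h ∈ Icc 1 H, ∑ j ∈ range b.den,
        f ((⟨t, b, c⟩ : Heis) ^ (h + n) * bp b j) * muC (n + h) =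
        ee (-(t * b / 2) * (n : ℝ) ^ 2 + (c - t * b / 2) * n) *
          ∑ h ∈ Icc 1 H, muC (n + h) * ((fun _ => (1 : ℂ)) h * ee (TU.ph α (h : ℝ))) := by
      rw [mul_sum]
      refine sum_congr rfl fun h _ => ?_
      rw [← sum_mul, key]
      ring
    rw [e4, norm_mul, norm_ee, one_mul]
  rw [e3]
  refine (norm_sum_le _ _).trans (sum_le_sum fun j _ => ?_)
  exact le_AE hB (g := ⟨t, b, c⟩) ht _ _ _

lemma BB_closed {b : ℝ} {E : Set (ℝ × ℝ)} (hE : IsCompact E) : IsClosed (BB b E) :=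
  (TT_closed hE).preimage (continuous_apply 1)

lemma BB_per (b : ℝ) (E : Set (ℝ × ℝ)) : TU.Per (BB b E) := fun _ hα z => TT_per _ hα (z 1)

lemma BB_vol {b : ℝ} (hb : b ≠ 0) {E : Set (ℝ × ℝ)} (hv : volume (Sl b E) ≠ 0) (r : Fin 2 → ℚ) :
    volume {y : Fin 2 → ℝ | TU.glue 2 y (fun i => ((r i : ℚ) : ℝ)) ∈ BB b E} ≠ 0 := by
  have e : {y : Fin 2 → ℝ | TU.glue 2 y (fun i => ((r i : ℚ) : ℝ)) ∈ BB b E} =
      Set.pi Set.univ (fun i : Fin 2 => if i = 1 then TT 1 b E else Set.univ) := by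
    ext y
    have e1 : TU.glue 2 y (fun i => ((r i : ℚ) : ℝ)) = y := by
      funext i
      unfold TU.glue
      rw [dif_pos i.2]
    simp only [Set.mem_ofPred_eq, Set.mem_pi, Set.mem_univ, forall_true_left]
    rw [e1]
    constructor
    · intro hy i
      by_cases hi : i = 1
      · rw [if_pos hi, hi]; exact hy
      · rw [if_neg hi]; trivial
    · intro hy
      have := hy 1
      rwa [if_pos rfl] at this
  rw [e, volume_pi_pi]
  rw [Fin.prod_univ_two, if_neg (by decide), if_pos rfl]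
  refine mul_ne_zero (by simp) fun h0 => hv ?_
  set c : ℝ := -(b / 2) with hc
  have hc0 : c ≠ 0 := by rw [hc]; exact neg_ne_zero.2 (div_ne_zero hb two_ne_zero)
  have hsub : Sl b E ⊆ (c * ·) ⁻¹' TT 1 b E := by
    intro t ht
    exact ⟨t, ht, 0, by rw [hc]; push_cast; ring⟩
  refine measure_mono_null hsub ?_
  rw [Real.volume_preimage_mul_left hc0, h0, mul_zero]

end Mx

open Mx Ix in
theorem rowM (hT : T_stmt) (hN : N_stmt) : M_stmt := by
  intro E hEc hQ hnot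
  unfold QuadNull at hnot
  push Not at hnot
  obtain ⟨p, q, a, b, hdet0, hvol⟩ := hnot
  -- an integer vector orthogonal to the direction
  obtain ⟨D, hD0, u, v, hu, hv⟩ : ∃ D : ℚ, D ≠ 0 ∧ ∃ u v : ℤ, (u : ℚ) = D * b ∧ (v : ℚ) = -(D * a) := by
    refine ⟨a.den * b.den, by positivity, a.den * b.num, -(b.den * a.num), ?_, ?_⟩
    · push_cast
      nth_rw 3 [← Rat.num_div_den b]
      field_simp
    · push_cast
      nth_rw 3 [← Rat.num_div_den a]
      field_simp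
  have hab : a ≠ 0 ∨ b ≠ 0 := by
    by_contra hcon
    push Not at hcon
    rw [hcon.1, hcon.2] at hdet0
    simp at hdet0
  have huv : u ≠ 0 ∨ v ≠ 0 := by
    rcases hab with h | h
    · right
      intro h0
      rw [h0] at hv
      have : D * a = 0 := by rw [← neg_eq_zero, ← hv]; simp
      exact (mul_ne_zero hD0 h) this
    · left
      intro h0
      rw [h0] at hu
      exact (mul_ne_zero hD0 h) (by rw [← hu]; simp)
  obtain ⟨κ, hκ, P, Q, r, s, hdet, hur, hvs⟩ := line_data u v huv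
  have hκ0 : (κ : ℚ) ≠ 0 := by positivity
  have hrq : (r : ℚ) = D * b / κ := by
    rw [eq_div_iff hκ0, ← hu, hur]; push_cast; ring
  have hsq : (s : ℚ) = -(D * a) / κ := by
    rw [eq_div_iff hκ0, ← hv, hvs]; push_cast; ring
  obtain ⟨E', hE'⟩ : ∃ E' : Set (ℝ × ℝ), E' = {v | ∃ u ∈ E, v = ((P : ℝ) * u.1 + Q * u.2,
    (r : ℝ) * u.1 + s * u.2)} := ⟨_, rfl⟩
  have hQ' : Q1E E' := by rw [hE']; exact hN E hQ P Q r s hdet
  have hE'c : IsCompact E' := by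
    have e : E' = (fun u : ℝ × ℝ => ((P : ℝ) * u.1 + Q * u.2, (r : ℝ) * u.1 + s * u.2)) '' E := by
      rw [hE']
      ext w
      constructor
      · rintro ⟨u, hu, rfl⟩
        exact ⟨u, hu, rfl⟩
      · rintro ⟨u, hu, rfl⟩
        exact ⟨u, hu, rfl⟩
    rw [e]
    exact hEc.image (by fun_prop)
  obtain ⟨b₀, hb₀⟩ : ∃ b₀ : ℚ, b₀ = r * p + s * q := ⟨_, rfl⟩
  have hb₀' : b₀ ≠ 0 := by
    have e : b₀ = D / κ * (p * b - q * a) := by
      rw [hb₀, hrq, hsq]; ring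
    rw [e]
    exact mul_ne_zero (div_ne_zero hD0 hκ0) hdet0
  have hdir : (r : ℚ) * a + s * b = 0 := by
    rw [hrq, hsq]; ring
  have hdq : (P : ℚ) * s - Q * r = 1 := by exact_mod_cast hdet
  obtain ⟨lam, hlam⟩ : ∃ lam : ℚ, lam = P * a + Q * b := ⟨_, rfl⟩
  have hlam0 : lam ≠ 0 := by
    intro h0
    rw [h0] at hlam
    have ha : a = 0 := by
      have : s * (P * a + Q * b) - Q * (r * a + s * b) = a := by linear_combination a * hdq
      rw [← this, ← hlam, hdir]; ring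
    have hb : b = 0 := by
      have : -r * (P * a + Q * b) + P * (r * a + s * b) = b := by linear_combination b * hdq
      rw [← this, ← hlam, hdir]; ring
    rcases hab with h | h
    · exact h ha
    · exact h hb
  have hslv : volume (Sl (b₀ : ℝ) E') ≠ 0 := by
    intro h0
    refine hvol ?_
    have hlr : (lam : ℝ) ≠ 0 := by exact_mod_cast hlam0
    have hsub : {t : ℝ | ((p : ℝ) + t * (a : ℝ), (q : ℝ) + t * (b : ℝ)) ∈ E} ⊆
        ((lam : ℝ) * ·) ⁻¹' ((fun y => y + ((P * p + Q * q : ℚ) : ℝ)) ⁻¹' Sl (b₀ : ℝ) E') := by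
      intro t ht
      simp only [Set.mem_preimage]
      change (_, (b₀ : ℝ)) ∈ E'
      rw [hE']
      refine ⟨_, ht, ?_⟩
      have hdr : (r : ℝ) * a + s * b = 0 := by exact_mod_cast hdir
      ext
      · simp only
        rw [hlam]
        push_cast
        ring
      · simp only
        rw [hb₀]
        push_cast
        linear_combination (-t) * hdr
    refine measure_mono_null hsub ?_
    rw [Real.volume_preimage_mul_left hlr, measure_preimage_add_right, h0, mul_zero]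
  have hb₀r : (b₀ : ℝ) ≠ 0 := by exact_mod_cast hb₀'
  obtain ⟨f, hfV, hf1, hfa, hfb⟩ := hT b₀.den b₀.den_pos
  have hZM : ZM f := by
    intro g
    have e : ∀ t : ℝ, f (g * ⟨0, 0, t⟩) = ee (((1 : ℤ) : ℝ) * t) * f g := fun t => hfV.2 g t
    simp only [e]
    rw [intervalIntegral.integral_mul_const]
    have h0 : ∫ t in (0 : ℝ)..1, ee (((1 : ℤ) : ℝ) * t) = 0 := by
      unfold ee
      have h1 : ∀ t : ℝ, Complex.exp (2 * Real.pi * Complex.I * ((((1 : ℤ) : ℝ) * t : ℝ) : ℂ)) =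
          Complex.exp ((2 * Real.pi * Complex.I) * (t : ℂ)) := by
        intro t; push_cast; ring_nf
      simp only [h1]
      rw [integral_exp_mul_complex (by simp [Real.pi_ne_zero])]
      simp [Complex.exp_two_pi_mul_I]
    rw [h0, zero_mul]
  have hsm : ∀ ε : ℝ, 0 < ε → ∃ H₀ : ℕ, ∀ H N : ℕ, H₀ ≤ H → H ≤ N →
      TUK.SBK (BB b₀ E') F1c N H ≤ ε * H * Real.log N := by
    intro ε hε
    have hden : (0 : ℝ) < b₀.den := by exact_mod_cast b₀.den_pos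
    have h1 : ∀ j : ℕ, ∃ H₀ : ℕ, ∀ H N : ℕ, H₀ ≤ H → H ≤ N →
        AE f E' (bp b₀ j) N H ≤ ε / b₀.den * H * Real.log N := fun j =>
      hQ' f hfV.1 hZM (bp b₀ j) (ε / b₀.den) (by positivity)
    choose H₀ hH₀ using h1
    refine ⟨∑ j ∈ range b₀.den, H₀ j, fun H N hH hHN => ?_⟩
    refine (SBK_le hf1 hfa hfb E' N H).trans ?_
    calc ∑ j ∈ range b₀.den, AE f E' (bp b₀ j) N H ≤
          ∑ _j ∈ range b₀.den, ε / b₀.den * H * Real.log N := by
          refine sum_le_sum fun j hj => hH₀ j H N (le_trans ?_ hH) hHN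
          exact single_le_sum (f := H₀) (fun _ _ => Nat.zero_le _) hj
      _ = ε * H * Real.log N := by
          rw [sum_const, card_range, nsmul_eq_mul]
          field_simp
  intro ε hε
  obtain ⟨Qm, _, hQm⟩ := TUK.theoremW 0 F1c F1c_laws.1 F1c_laws.2 2 2 (by norm_num) le_rfl le_rfl
    (BB b₀ E') (BB_closed hE'c) (BB_per _ _) (fun _ => 0) (BB_vol hb₀r hslv _) hsm ε hε
  refine ⟨Qm, fun δ hδ => ?_⟩
  obtain ⟨H₀, hH₀⟩ := hQm δ hδ
  exact ⟨H₀, fun H N hH hHN => (AQ_le_AT _ N H).trans (hH₀ H N hH hHN)⟩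

end Pool.Agent.HB
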