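import Pool.Agent.Lib.HB.Basic

/-!
# Nilrotations of the Heisenberg group (MP_663568_nt): transport by automorphisms
-/

set_option autoImplicit false
open Finset MeasureTheory

namespace Pool.Agent.HB

open Pool.Agent.Lib.MP_663568_nt Pool.Agent.Lib.MP_663568_nt.Katai
  Pool.Agent.Lib.MP_663568_nt.Nul Pool.Agent.Lib.MP_663568_nt.Fib

/-- A nonzero integer vector is a multiple of the second row of a matrix in `SL₂(ℤ)`. -/
lemma line_data (a b : ℤ) (h : a ≠ 0 ∨ b ≠ 0) : ∃ κ : ℕ, 1 ≤ κ ∧ ∃ p q r s : ℤ,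
    p * s - q * r = 1 ∧ a = κ * r ∧ b = κ * s := by
  have hg : 0 < Int.gcd a b := by
    rcases h with h | h
    · exact Int.gcd_pos_of_ne_zero_left _ h
    · exact Int.gcd_pos_of_ne_zero_right _ h
  obtain ⟨r, hr⟩ := Int.gcd_dvd_left (a := a) (b := b)
  obtain ⟨s, hs⟩ := Int.gcd_dvd_right (a := a) (b := b)
  refine ⟨Int.gcd a b, hg, Int.gcdB a b, -Int.gcdA a b, r, s, ?_, hr, hs⟩
  have h1 := Int.gcd_eq_gcd_ab a b
  have h2 : (Int.gcd a b : ℤ) ≠ 0 := by exact_mod_cast hg.ne'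
  have h3 : (Int.gcd a b : ℤ) * 1 = (Int.gcd a b : ℤ) *
      (Int.gcdB a b * s - -Int.gcdA a b * r) := by
    rw [mul_one]
    calc (Int.gcd a b : ℤ) = a * Int.gcdA a b + b * Int.gcdB a b := h1
      _ = (Int.gcd a b : ℤ) * r * Int.gcdA a b + (Int.gcd a b : ℤ) * s * Int.gcdB a b := by
          rw [← hr, ← hs]
      _ = _ := by ring
  exact (mul_left_cancel₀ h2 h3).symm

/-- The functions of vertical frequency `m` under an automorphism. -/
lemma ver_symm {m : ℤ} {F : Heis → ℂ} (hF : Ver m F) (σ : Heis ≃* Heis)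
    (hσ : Continuous σ.symm) (hc : ∀ (g : Heis) (t : ℝ), σ (g * ⟨0, 0, t⟩) = σ g * ⟨0, 0, t⟩)
    (hG : ∀ g, g ∈ Gam ↔ σ g ∈ Gam) : Ver m (fun g => F (σ.symm g)) := by
  refine ⟨⟨hF.1.1.comp hσ, fun x γ hγ => ?_⟩, fun g t => ?_⟩
  · simp only [map_mul]
    exact hF.1.2 _ _ ((hG _).2 (by rw [MulEquiv.apply_symm_apply]; exact hγ))
  · have h1 : σ.symm (g * ⟨0, 0, t⟩) = σ.symm g * ⟨0, 0, t⟩ := by
      apply σ.injective
      rw [hc, MulEquiv.apply_symm_apply, MulEquiv.apply_symm_apply]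
    beta_reduce
    rw [h1]
    exact hF.2 _ _

lemma apply_transport (F : Heis → ℂ) (σ : Heis ≃* Heis) (g x : Heis) (h : ℕ) :
    F (g ^ h * x) = F (σ.symm ((σ g) ^ h * σ x)) := by
  rw [← map_pow, ← map_mul, MulEquiv.symm_apply_apply]

end Pool.Agent.HB
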